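import Pool.Agent.Lib.MP_e426f4_ag.RC.Avg

/-!
# RCW-AvgW: averaging over the base system, arbitrary predicate

Proof. `avg` in `RC/Avg.lean` verbatim with `Sol · ℚ` replaced by `P`.
-/

set_option autoImplicit false

namespace RcWA

open Finset Filter Topology GenHP CIPHP TwHP RcHP

open Classical in
theorem avg_w {ι : Type} [Fintype ι] [DecidableEq ι] {n : ι → ℕ} {r : ℕ}
    {d : Fin (r * 3) → ι → ℕ} (P : PSys n d ℤ → Prop) (AC : PSys n d ℝ) (A0 : PSys n d ℤ) (Q0 : ℕ)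
    (rho H : ℝ) (M1 M2 : PSys n d ℤ) (sg : Fin (r * 3) → ℤ) (Y : ℕ)
    (hM : ∀ o : Fin (r * 3) → ℕ × ℕ, (∀ j, o j ∈ bx Y) → ∀ j t,
      |((Q0 * (sg j * ((o j).1 * M1 j t + (o j).2 * M2 j t)) : ℤ) : ℝ)| ≤ rho * H)
    (K : ℝ) (hK : ∀ A ∈ Cl AC A0 Q0 (2 * rho) H,
      ((((Fintype.piFinset fun _ : Fin (r * 3) => bx Y).filter fun o =>
        ¬ P (vr A M1 M2 Q0 sg o)).card : ℕ) : ℝ) ≤ K) :
    ((Set.ncard {A | A ∈ Cl AC A0 Q0 rho H ∧ ¬ P A} : ℕ) : ℝ) * ((Y : ℝ) ^ 2) ^ (r * 3) ≤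
      ((Cl AC A0 Q0 (2 * rho) H).ncard : ℝ) * K := by
  have hT := Cl_finite AC A0 Q0 (2 * rho) H
  have hB : {A | A ∈ Cl AC A0 Q0 rho H ∧ ¬ P A}.Finite :=
    (Cl_finite AC A0 Q0 rho H).subset fun A hA => hA.1
  set O : Finset (Fin (r * 3) → ℕ × ℕ) := Fintype.piFinset fun _ : Fin (r * 3) => bx Y with hO
  have hOcard : (O.card : ℝ) = ((Y : ℝ) ^ 2) ^ (r * 3) := by
    rw [hO, Fintype.card_piFinset]
    simp [bx, sq]
  have hinj : (hB.toFinset ×ˢ O).card ≤
      ((hT.toFinset ×ˢ O).filter fun q => ¬ P (vr q.1 M1 M2 Q0 sg q.2)).card := by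
    refine Finset.card_le_card_of_injOn
      (fun q => ((fun j t => q.1 j t - Q0 * (sg j * ((q.2 j).1 * M1 j t + (q.2 j).2 * M2 j t)) :
        PSys n d ℤ), q.2)) ?_ ?_
    · rintro ⟨A, o⟩ hq
      simp only [coe_product, Set.mem_prod, mem_coe, Set.Finite.mem_toFinset,
        Set.mem_setOf_eq] at hq
      obtain ⟨⟨hA, hns⟩, ho⟩ := hq
      have ho' : ∀ j, o j ∈ bx Y := fun j => by
        rw [hO, Fintype.mem_piFinset] at ho
        exact ho j
      simp only [coe_filter, mem_product, Set.Finite.mem_toFinset, Set.mem_setOf_eq]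
      refine ⟨⟨⟨fun j t => ?_, fun j t => ?_⟩, ho⟩, ?_⟩
      · have h1 := hA.1 j t
        have h2 := hM o ho' j t
        have h3 : (((A j t - Q0 * (sg j * ((o j).1 * M1 j t + (o j).2 * M2 j t)) : ℤ) : ℝ)) -
            H * AC j t = ((A j t : ℝ) - H * AC j t) -
            ((Q0 * (sg j * ((o j).1 * M1 j t + (o j).2 * M2 j t)) : ℤ) : ℝ) := by
          push_cast
          ring
        rw [h3]
        calc _ ≤ |(A j t : ℝ) - H * AC j t| +
              |((Q0 * (sg j * ((o j).1 * M1 j t + (o j).2 * M2 j t)) : ℤ) : ℝ)| := abs_sub _ _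
          _ ≤ rho * H + rho * H := add_le_add h1 h2
          _ = 2 * rho * H := by ring
      · have h1 := hA.2 j t
        have h3 : A j t - Q0 * (sg j * ((o j).1 * M1 j t + (o j).2 * M2 j t)) - A0 j t =
            (A j t - A0 j t) - Q0 * (sg j * ((o j).1 * M1 j t + (o j).2 * M2 j t)) := by ring
        rw [h3]
        exact dvd_sub h1 (dvd_mul_right _ _)
      · have h3 : vr (fun j t => A j t - Q0 * (sg j * ((o j).1 * M1 j t + (o j).2 * M2 j t)) :
            PSys n d ℤ) M1 M2 Q0 sg o = A := by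
          funext j t
          simp only [vr]
          ring
        rw [h3]
        exact hns
    · rintro ⟨A, o⟩ _ ⟨A', o'⟩ _ h
      simp only [Prod.mk.injEq] at h
      obtain ⟨h1, rfl⟩ := h
      have : A = A' := by
        funext j t
        have := congrFun (congrFun h1 j) t
        linarith
      rw [this]
  have hsum : (((hT.toFinset ×ˢ O).filter fun q => ¬ P (vr q.1 M1 M2 Q0 sg q.2)).card : ℝ) =
      ∑ A ∈ hT.toFinset, ((O.filter fun o => ¬ P (vr A M1 M2 Q0 sg o)).card : ℝ) := by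
    rw [Finset.card_filter, Finset.sum_product]
    push_cast
    refine Finset.sum_congr rfl fun A _ => ?_
    rw [Finset.card_filter]
    push_cast
    rfl
  calc ((Set.ncard {A | A ∈ Cl AC A0 Q0 rho H ∧ ¬ P A} : ℕ) : ℝ) * ((Y : ℝ) ^ 2) ^ (r * 3)
      = ((hB.toFinset ×ˢ O).card : ℝ) := by
        rw [Finset.card_product, Set.ncard_eq_toFinset_card _ hB]
        push_cast
        rw [hOcard]
    _ ≤ (((hT.toFinset ×ˢ O).filter fun q => ¬ P (vr q.1 M1 M2 Q0 sg q.2)).card : ℝ) := by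
        exact_mod_cast hinj
    _ = ∑ A ∈ hT.toFinset, ((O.filter fun o => ¬ P (vr A M1 M2 Q0 sg o)).card : ℝ) := hsum
    _ ≤ ∑ A ∈ hT.toFinset, K := Finset.sum_le_sum fun A hA => hK A (by
        simpa using hA)
    _ = ((Cl AC A0 Q0 (2 * rho) H).ncard : ℝ) * K := by
        rw [Finset.sum_const, nsmul_eq_mul, Set.ncard_eq_toFinset_card _ hT]

end RcWA
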