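import Pool.Agent.Lib.MP_e426f4_ag.RCW.Defs

/-!
# RCW-Con3: perturbation of a point on a possibly degenerate conic

`K` is a nontrivially normed field of characteristic `0` with `SqN K` (think of `ℝ` and `ℚ_p`).  `∑ f j x j ^ 2 = 0`, `x` of sup norm `1`, the `f j`, `j ∈ T`, are tiny, the
others are `≥ sig`.  We want values `mu * tau j` (`j ∈ T`, `mu` a given small scalar, `tau j` of size about `1`) and a point `y` near `x` on the conic with coefficients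
`mu * tau j` (`j ∈ T`), `f j` (`j ∉ T`).

Proof. WLOG `rho ≤ 1`.  Fix `c0 : K`, `0 < ‖c0‖ < 1` (`NormedField.exists_norm_lt_one`), `q = ‖c0‖`; `nu0 : K` with `0 < ‖nu0‖ < rho / 4` (a power of `c0`), `nu = ‖nu0‖`;
`δ` from `SqN` with `rho`.  `tm = min (q^2) (min (nu^4) (nu^4 * ‖2‖))` (all `≤ 1`).
* `T = ∅`: `y = x`, `tau = 0`.
* `T = {a}`, the others `b, c`.  (i) some other coordinate, say `‖x b‖ ≥ nu`: `tau a = 1`, `y a = x a`, `y c = x c`, `y b = x b * t`, `t^2 = 1 + (f a - mu) x a^2 / (f b x b^2)`; the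
  fraction has norm `≤ 2 del / (sig nu^2) < δ`.  (ii) `‖x b‖, ‖x c‖ < nu`, so `‖x a‖ = 1`: `y a = x a`, `y c = 0`, `y b = c0^m` with `q^2 ≤ ‖f b‖ ‖c0^m‖^2 / ‖mu‖ ≤ 1` (the largest
  power of `q` which is `≤ R = sqrt (‖mu‖ / ‖f b‖) ≤ sqrt (del / sig) ≤ min 1 nu`, cf. `exists_nat_pow_near_of_lt_one`), `tau a = - f b (y b)^2 / (mu (x a)^2)`, of norm in `[q^2, 1]`.
* `T = {a, b}`, `c` the other one: `sig ‖x c‖^2 ≤ 2 del`, so `‖x c‖ < rho`: `y c = 0`; `y a = x a` if `‖x a‖ ≥ nu` and `y a = nu0` otherwise, the same for `b`;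
  `tau a = (y b)^2`, `tau b = -(y a)^2`, of norm in `[nu^2, 1]`.
* `T = univ`: `y j = x j` if `‖x j‖ ≥ nu`, `nu0` otherwise; `tau = (y1^2 y2^2, y0^2 y2^2, -2 y0^2 y1^2)`, of norm in `[nu^4 min (1, ‖2‖), 2]`.
`del = min` of the finitely many conditions: `2 del / (sig nu^2) < δ`, `del / sig ≤ nu^2`, `2 del / sig < rho^2`.
-/

set_option autoImplicit false

namespace RcWA

open Finset

section
variable {K : Type} [NontriviallyNormedField K]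

/-- a nearby value of norm in `[nu, 1]` -/
private theorem c3_near (nu0 : K) (rho : ℝ) (h1 : ‖nu0‖ < rho / 4) (h2 : ‖nu0‖ < 1)
    (h0 : 0 < ‖nu0‖) (x : K) (hx : ‖x‖ ≤ 1) :
    ∃ y : K, ‖y - x‖ < rho ∧ ‖nu0‖ ≤ ‖y‖ ∧ ‖y‖ ≤ 1 := by
  by_cases h : ‖nu0‖ ≤ ‖x‖
  · exact ⟨x, by simp; linarith, h, hx⟩
  · refine ⟨nu0, ?_, le_rfl, h2.le⟩
    have := norm_sub_le nu0 x
    push Not at h
    linarith

/-- case (i) for one tiny coefficient -/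
private theorem c3_one (δ nu sig del rho : ℝ) (hnu : 0 < nu) (hsig : 0 < sig)
    (hδ : ∀ u : K, ‖u - 1‖ < δ → ∃ t : K, t ^ 2 = u ∧ ‖t - 1‖ < rho)
    (hdel : 2 * del < δ * (sig * nu ^ 2)) (fa fb fc xa xb xc mu : K) (ha : ‖xa‖ ≤ 1)
    (hb : ‖xb‖ ≤ 1) (hb' : nu ≤ ‖xb‖) (he : fa * xa ^ 2 + fb * xb ^ 2 + fc * xc ^ 2 = 0)
    (hfa : ‖fa‖ ≤ del) (hfb : sig ≤ ‖fb‖) (hmu : ‖mu‖ ≤ del) :
    ∃ yb : K, ‖yb - xb‖ < rho ∧ mu * 1 * xa ^ 2 + fb * yb ^ 2 + fc * xc ^ 2 = 0 := by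
  have hb0 : 0 < ‖xb‖ := lt_of_lt_of_le hnu hb'
  have hfb0 : 0 < ‖fb‖ := lt_of_lt_of_le hsig hfb
  have hxb : xb ≠ 0 := norm_pos_iff.1 hb0
  have hfbn : fb ≠ 0 := norm_pos_iff.1 hfb0
  have hden : 0 < sig * nu ^ 2 := by positivity
  have hdel0 : 0 ≤ del := (norm_nonneg _).trans hfa
  have h1 : ‖(1 + (fa - mu) * xa ^ 2 / (fb * xb ^ 2)) - 1‖ < δ := by
    rw [add_sub_cancel_left, norm_div, norm_mul, norm_mul, norm_pow, norm_pow]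
    have e1 : sig * nu ^ 2 ≤ ‖fb‖ * ‖xb‖ ^ 2 :=
      mul_le_mul hfb (pow_le_pow_left₀ hnu.le hb' 2) (by positivity) hfb0.le
    have e2 : ‖fa - mu‖ * ‖xa‖ ^ 2 ≤ 2 * del := by
      have e3 : ‖fa - mu‖ ≤ 2 * del := (norm_sub_le _ _).trans (by linarith)
      calc ‖fa - mu‖ * ‖xa‖ ^ 2 ≤ (2 * del) * 1 :=
            mul_le_mul e3 (pow_le_one₀ (norm_nonneg _) ha) (by positivity) (by linarith)
        _ = 2 * del := mul_one _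
    rw [div_lt_iff₀ (lt_of_lt_of_le hden e1)]
    have hδ0 : 0 < δ := by
      by_contra hc
      push Not at hc
      have : δ * (sig * nu ^ 2) ≤ 0 := mul_nonpos_of_nonpos_of_nonneg hc hden.le
      linarith
    calc ‖fa - mu‖ * ‖xa‖ ^ 2 ≤ 2 * del := e2
      _ < δ * (sig * nu ^ 2) := hdel
      _ ≤ δ * (‖fb‖ * ‖xb‖ ^ 2) := mul_le_mul_of_nonneg_left e1 hδ0.le
  obtain ⟨t, ht, ht1⟩ := hδ _ h1
  refine ⟨xb * t, ?_, ?_⟩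
  · have : xb * t - xb = xb * (t - 1) := by ring
    rw [this, norm_mul]
    calc ‖xb‖ * ‖t - 1‖ ≤ 1 * ‖t - 1‖ := mul_le_mul_of_nonneg_right hb (norm_nonneg _)
      _ < rho := by rw [one_mul]; exact ht1
  · rw [mul_pow, ht]
    have hd : fb * xb ^ 2 ≠ 0 := mul_ne_zero hfbn (pow_ne_zero 2 hxb)
    have : fb * (xb ^ 2 * (1 + (fa - mu) * xa ^ 2 / (fb * xb ^ 2))) =
        fb * xb ^ 2 + (fa - mu) * xa ^ 2 := by
      field_simp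
    rw [this]
    linear_combination he

/-- one tiny coefficient -/
private theorem c3_L1 (c0 nu0 : K) (δ sig del rho : ℝ) (hc0 : 0 < ‖c0‖) (hc1 : ‖c0‖ < 1)
    (hnu : 0 < ‖nu0‖) (hnu1 : ‖nu0‖ < 1) (hnur : ‖nu0‖ < rho / 4) (hrho : 0 < rho)
    (hsig : 0 < sig)
    (hδ : ∀ u : K, ‖u - 1‖ < δ → ∃ t : K, t ^ 2 = u ∧ ‖t - 1‖ < rho)
    (hdel : 2 * del < δ * (sig * ‖nu0‖ ^ 2)) (hdel2 : del ≤ ‖nu0‖ ^ 2 * sig)
    (fa fb fc xa xb xc mu : K) (ha : ‖xa‖ ≤ 1)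
    (hb : ‖xb‖ ≤ 1) (hc : ‖xc‖ ≤ 1) (hx : ‖xa‖ = 1 ∨ ‖xb‖ = 1 ∨ ‖xc‖ = 1)
    (he : fa * xa ^ 2 + fb * xb ^ 2 + fc * xc ^ 2 = 0)
    (hfa : ‖fa‖ ≤ del) (hfb : sig ≤ ‖fb‖) (hfc : sig ≤ ‖fc‖) (hmu0 : mu ≠ 0)
    (hmu : ‖mu‖ ≤ del) :
    ∃ ta ya yb yc : K, ‖c0‖ ^ 2 ≤ ‖ta‖ ∧ ‖ta‖ ≤ 1 ∧ ‖ya - xa‖ < rho ∧ ‖yb - xb‖ < rho ∧
      ‖yc - xc‖ < rho ∧ mu * ta * ya ^ 2 + fb * yb ^ 2 + fc * yc ^ 2 = 0 := by
  have hq : ‖c0‖ ^ 2 ≤ 1 := pow_le_one₀ hc0.le hc1.le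
  by_cases h1 : ‖nu0‖ ≤ ‖xb‖
  · obtain ⟨yb, h2, h3⟩ := c3_one δ ‖nu0‖ sig del rho hnu hsig hδ hdel fa fb fc xa xb xc mu ha hb
      h1 he hfa hfb hmu
    exact ⟨1, xa, yb, xc, by simpa using hq, by simp, by simpa using hrho, h2,
      by simpa using hrho, h3⟩
  by_cases h1' : ‖nu0‖ ≤ ‖xc‖
  · obtain ⟨yc, h2, h3⟩ := c3_one δ ‖nu0‖ sig del rho hnu hsig hδ hdel fa fc fb xa xc xb mu ha hc
      h1' (by linear_combination he) hfa hfc hmu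
    exact ⟨1, xa, xb, yc, by simpa using hq, by simp, by simpa using hrho, by simpa using hrho, h2,
      by linear_combination h3⟩
  push Not at h1 h1'
  have hxa : ‖xa‖ = 1 := by
    rcases hx with h | h | h
    · exact h
    · linarith
    · linarith
  have hxan : xa ≠ 0 := by
    intro h
    rw [h, norm_zero] at hxa
    exact zero_ne_one hxa
  have hfb0 : 0 < ‖fb‖ := lt_of_lt_of_le hsig hfb
  have hmun : 0 < ‖mu‖ := norm_pos_iff.2 hmu0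
  set R : ℝ := √(‖mu‖ / ‖fb‖) with hR
  have hR0 : 0 < R := Real.sqrt_pos.2 (div_pos hmun hfb0)
  have hRsq : R ^ 2 = ‖mu‖ / ‖fb‖ := Real.sq_sqrt (div_pos hmun hfb0).le
  have hRnu : R ≤ ‖nu0‖ := by
    have : R ^ 2 ≤ ‖nu0‖ ^ 2 := by
      rw [hRsq, div_le_iff₀ hfb0]
      calc ‖mu‖ ≤ del := hmu
        _ ≤ ‖nu0‖ ^ 2 * sig := hdel2
        _ ≤ ‖nu0‖ ^ 2 * ‖fb‖ := mul_le_mul_of_nonneg_left hfb (by positivity)
    exact (pow_le_pow_iff_left₀ hR0.le hnu.le two_ne_zero).1 this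
  obtain ⟨m, hm1, hm2⟩ := exists_nat_pow_near_of_lt_one hR0 (hRnu.trans hnu1.le) hc0 hc1
  have hp0 : 0 < ‖c0‖ ^ (m + 1) := by positivity
  have hlow : ‖c0‖ * R ≤ ‖c0‖ ^ (m + 1) := by
    rw [pow_succ, mul_comm (‖c0‖ ^ m)]
    exact mul_le_mul_of_nonneg_left hm2 hc0.le
  have htau : ‖-(fb * (c0 ^ (m + 1)) ^ 2 / (mu * xa ^ 2))‖ = (‖c0‖ ^ (m + 1)) ^ 2 / R ^ 2 := by
    rw [norm_neg, norm_div, norm_mul, norm_mul, norm_pow, norm_pow, norm_pow, hxa, hRsq]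
    have := hfb0.ne'
    have := hmun.ne'
    field_simp
  refine ⟨-(fb * (c0 ^ (m + 1)) ^ 2 / (mu * xa ^ 2)), xa, c0 ^ (m + 1), 0, ?_, ?_, ?_, ?_, ?_, ?_⟩
  · rw [htau, le_div_iff₀ (by positivity), ← mul_pow]
    exact pow_le_pow_left₀ (by positivity) hlow 2
  · rw [htau, div_le_one (by positivity)]
    exact pow_le_pow_left₀ hp0.le hm1.le 2
  · simpa using hrho
  · have := norm_sub_le (c0 ^ (m + 1)) xb
    rw [norm_pow] at this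
    linarith
  · rw [zero_sub, norm_neg]
    linarith
  · field_simp
    ring

/-- two tiny coefficients -/
private theorem c3_L2 (nu0 : K) (sig del rho : ℝ) (hnu : 0 < ‖nu0‖) (hnu1 : ‖nu0‖ < 1)
    (hnur : ‖nu0‖ < rho / 4) (hrho : 0 < rho) (hsig : 0 < sig) (hdel : 2 * del < sig * rho ^ 2)
    (fa fb fc xa xb xc mu : K) (ha : ‖xa‖ ≤ 1) (hb : ‖xb‖ ≤ 1)
    (he : fa * xa ^ 2 + fb * xb ^ 2 + fc * xc ^ 2 = 0)
    (hfa : ‖fa‖ ≤ del) (hfb : ‖fb‖ ≤ del) (hfc : sig ≤ ‖fc‖) :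
    ∃ ta tb ya yb yc : K, ‖nu0‖ ^ 2 ≤ ‖ta‖ ∧ ‖ta‖ ≤ 1 ∧ ‖nu0‖ ^ 2 ≤ ‖tb‖ ∧ ‖tb‖ ≤ 1 ∧
      ‖ya - xa‖ < rho ∧ ‖yb - xb‖ < rho ∧
      ‖yc - xc‖ < rho ∧ mu * ta * ya ^ 2 + mu * tb * yb ^ 2 + fc * yc ^ 2 = 0 := by
  obtain ⟨ya, a1, a2, a3⟩ := c3_near nu0 rho hnur hnu1 hnu xa ha
  obtain ⟨yb, b1, b2, b3⟩ := c3_near nu0 rho hnur hnu1 hnu xb hb
  have hdel0 : 0 ≤ del := (norm_nonneg _).trans hfa
  have hxc : ‖xc‖ < rho := by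
    have e1 : fc * xc ^ 2 = -(fa * xa ^ 2 + fb * xb ^ 2) := by linear_combination he
    have e2 : ‖fc‖ * ‖xc‖ ^ 2 ≤ 2 * del := by
      rw [← norm_pow, ← norm_mul, e1, norm_neg]
      refine (norm_add_le _ _).trans ?_
      rw [norm_mul, norm_mul, norm_pow, norm_pow]
      have e3 : ‖fa‖ * ‖xa‖ ^ 2 ≤ del * 1 :=
        mul_le_mul hfa (pow_le_one₀ (norm_nonneg _) ha) (by positivity) hdel0
      have e4 : ‖fb‖ * ‖xb‖ ^ 2 ≤ del * 1 :=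
        mul_le_mul hfb (pow_le_one₀ (norm_nonneg _) hb) (by positivity) hdel0
      linarith
    have e3 : sig * ‖xc‖ ^ 2 ≤ ‖fc‖ * ‖xc‖ ^ 2 := mul_le_mul_of_nonneg_right hfc (by positivity)
    have e4 : ‖xc‖ ^ 2 < rho ^ 2 := by
      by_contra hcon
      push Not at hcon
      have := mul_le_mul_of_nonneg_left hcon hsig.le
      linarith
    exact (pow_lt_pow_iff_left₀ (norm_nonneg _) hrho.le two_ne_zero).1 e4
  refine ⟨yb ^ 2, -ya ^ 2, ya, yb, 0, ?_, ?_, ?_, ?_, a1, b1, ?_, ?_⟩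
  · rw [norm_pow]; exact pow_le_pow_left₀ hnu.le b2 2
  · rw [norm_pow]; exact pow_le_one₀ (norm_nonneg _) b3
  · rw [norm_neg, norm_pow]; exact pow_le_pow_left₀ hnu.le a2 2
  · rw [norm_neg, norm_pow]; exact pow_le_one₀ (norm_nonneg _) a3
  · rwa [zero_sub, norm_neg]
  · ring

/-- three tiny coefficients -/
private theorem c3_L3 (nu0 : K) (rho : ℝ) (hnu : 0 < ‖nu0‖) (hnu1 : ‖nu0‖ < 1)
    (hnur : ‖nu0‖ < rho / 4)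
    (xa xb xc mu : K) (ha : ‖xa‖ ≤ 1) (hb : ‖xb‖ ≤ 1) (hc : ‖xc‖ ≤ 1) :
    ∃ ta tb tc ya yb yc : K, ‖nu0‖ ^ 4 ≤ ‖ta‖ ∧ ‖ta‖ ≤ 1 ∧ ‖nu0‖ ^ 4 ≤ ‖tb‖ ∧ ‖tb‖ ≤ 1 ∧
      ‖nu0‖ ^ 4 * ‖(2 : K)‖ ≤ ‖tc‖ ∧ ‖tc‖ ≤ 2 ∧
      ‖ya - xa‖ < rho ∧ ‖yb - xb‖ < rho ∧
      ‖yc - xc‖ < rho ∧ mu * ta * ya ^ 2 + mu * tb * yb ^ 2 + mu * tc * yc ^ 2 = 0 := by
  obtain ⟨ya, a1, a2, a3⟩ := c3_near nu0 rho hnur hnu1 hnu xa ha
  obtain ⟨yb, b1, b2, b3⟩ := c3_near nu0 rho hnur hnu1 hnu xb hb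
  obtain ⟨yc, c1, c2, c3⟩ := c3_near nu0 rho hnur hnu1 hnu xc hc
  have low : ∀ u v : K, ‖nu0‖ ≤ ‖u‖ → ‖nu0‖ ≤ ‖v‖ → ‖nu0‖ ^ 4 ≤ ‖u‖ ^ 2 * ‖v‖ ^ 2 := by
    intro u v hu hv
    calc ‖nu0‖ ^ 4 = ‖nu0‖ ^ 2 * ‖nu0‖ ^ 2 := by ring
      _ ≤ ‖u‖ ^ 2 * ‖v‖ ^ 2 := mul_le_mul (pow_le_pow_left₀ hnu.le hu 2)
          (pow_le_pow_left₀ hnu.le hv 2) (by positivity) (by positivity)
  have up : ∀ u v : K, ‖u‖ ≤ 1 → ‖v‖ ≤ 1 → ‖u‖ ^ 2 * ‖v‖ ^ 2 ≤ 1 := by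
    intro u v hu hv
    exact mul_le_one₀ (pow_le_one₀ (norm_nonneg _) hu) (by positivity)
      (pow_le_one₀ (norm_nonneg _) hv)
  have h2 : ‖(2 : K)‖ ≤ 2 := by
    have : (2 : K) = 1 + 1 := by norm_num
    rw [this]
    refine (norm_add_le _ _).trans ?_
    rw [norm_one]
    norm_num
  refine ⟨yb ^ 2 * yc ^ 2, ya ^ 2 * yc ^ 2, -(2 * (ya ^ 2 * yb ^ 2)), ya, yb, yc, ?_, ?_, ?_, ?_,
    ?_, ?_, a1, b1, c1, ?_⟩
  · rw [norm_mul, norm_pow, norm_pow]; exact low _ _ b2 c2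
  · rw [norm_mul, norm_pow, norm_pow]; exact up _ _ b3 c3
  · rw [norm_mul, norm_pow, norm_pow]; exact low _ _ a2 c2
  · rw [norm_mul, norm_pow, norm_pow]; exact up _ _ a3 c3
  · rw [norm_neg, norm_mul, norm_mul, norm_pow, norm_pow, mul_comm]
    exact mul_le_mul_of_nonneg_left (low _ _ a2 b2) (norm_nonneg _)
  · rw [norm_neg, norm_mul, norm_mul, norm_pow, norm_pow]
    calc ‖(2 : K)‖ * (‖ya‖ ^ 2 * ‖yb‖ ^ 2) ≤ 2 * 1 :=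
          mul_le_mul h2 (up _ _ a3 b3) (by positivity) (by norm_num)
      _ = 2 := by norm_num
  · ring

end

theorem con3 (K : Type) [NontriviallyNormedField K] [CharZero K] (hK : SqN K) (rho : ℝ)
    (hrho : 0 < rho) :
    ∃ tm : ℝ, 0 < tm ∧ ∀ sig : ℝ, 0 < sig → ∃ del : ℝ, 0 < del ∧
      ∀ (T : Finset (Fin 3)) (f x : Fin 3 → K) (mu : K),
        (∀ j, ‖x j‖ ≤ 1) → (∃ j, ‖x j‖ = 1) → ∑ j, f j * x j ^ 2 = 0 →
        (∀ j ∈ T, ‖f j‖ ≤ del) → (∀ j, j ∉ T → sig ≤ ‖f j‖) → mu ≠ 0 → ‖mu‖ ≤ del →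
        ∃ tau y : Fin 3 → K, (∀ j ∈ T, tm ≤ ‖tau j‖ ∧ ‖tau j‖ ≤ 2) ∧
          (∀ j, ‖y j - x j‖ < rho) ∧ ∑ j, (if j ∈ T then mu * tau j else f j) * y j ^ 2 = 0 := by
  obtain ⟨c0, hc0, hc1⟩ := NormedField.exists_norm_lt_one K
  obtain ⟨nu0, hnu, hnu'⟩ := NormedField.exists_norm_lt K (r := min (rho / 4) 1)
    (lt_min (by linarith) one_pos)
  have hnur : ‖nu0‖ < rho / 4 := lt_of_lt_of_le hnu' (min_le_left _ _)
  have hnu1 : ‖nu0‖ < 1 := lt_of_lt_of_le hnu' (min_le_right _ _)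
  obtain ⟨δ, hδ0, hδ⟩ := hK rho hrho
  have h20 : 0 < ‖(2 : K)‖ := norm_pos_iff.2 two_ne_zero
  refine ⟨min (‖c0‖ ^ 2) (min (‖nu0‖ ^ 4) (‖nu0‖ ^ 4 * ‖(2 : K)‖)), by positivity,
    fun sig hsig => ?_⟩
  set tm : ℝ := min (‖c0‖ ^ 2) (min (‖nu0‖ ^ 4) (‖nu0‖ ^ 4 * ‖(2 : K)‖)) with htm
  have t1 : tm ≤ ‖c0‖ ^ 2 := min_le_left _ _
  have t2 : tm ≤ ‖nu0‖ ^ 4 := (min_le_right _ _).trans (min_le_left _ _)
  have t3 : tm ≤ ‖nu0‖ ^ 4 * ‖(2 : K)‖ := (min_le_right _ _).trans (min_le_right _ _)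
  have t4 : tm ≤ ‖nu0‖ ^ 2 := t2.trans (pow_le_pow_of_le_one hnu.le hnu1.le (by norm_num))
  refine ⟨min (δ * (sig * ‖nu0‖ ^ 2) / 4) (min (‖nu0‖ ^ 2 * sig) (sig * rho ^ 2 / 4)),
    by positivity, ?_⟩
  set del : ℝ := min (δ * (sig * ‖nu0‖ ^ 2) / 4) (min (‖nu0‖ ^ 2 * sig) (sig * rho ^ 2 / 4))
    with hdel
  have hdel0 : 0 < del := by rw [hdel]; positivity
  have d1 : 2 * del < δ * (sig * ‖nu0‖ ^ 2) := by
    have : del ≤ δ * (sig * ‖nu0‖ ^ 2) / 4 := min_le_left _ _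
    have : 0 < δ * (sig * ‖nu0‖ ^ 2) := by positivity
    linarith
  have d2 : del ≤ ‖nu0‖ ^ 2 * sig := (min_le_right _ _).trans (min_le_left _ _)
  have d3 : 2 * del < sig * rho ^ 2 := by
    have : del ≤ sig * rho ^ 2 / 4 := (min_le_right _ _).trans (min_le_right _ _)
    have : 0 < sig * rho ^ 2 := by positivity
    linarith
  intro T f x mu hx hx1 he hT hN hmu0 hmu
  rw [Fin.sum_univ_three] at he
  have hx1' : ‖x 0‖ = 1 ∨ ‖x 1‖ = 1 ∨ ‖x 2‖ = 1 := by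
    obtain ⟨j, hj⟩ := hx1
    fin_cases j
    · exact Or.inl hj
    · exact Or.inr (Or.inl hj)
    · exact Or.inr (Or.inr hj)
  have L1 := c3_L1 c0 nu0 δ sig del rho hc0 hc1 hnu hnu1 hnur hrho hsig hδ d1 d2
  have L2 := c3_L2 nu0 sig del rho hnu hnu1 hnur hrho hsig d3
  have L3 := c3_L3 nu0 rho hnu hnu1 hnur
  have sub0 : ∀ z : K, ‖z - z‖ < rho := fun z => by simpa using hrho
  have key : ∀ t0 t1 t2 y0 y1 y2 : K, (0 ∈ T → tm ≤ ‖t0‖ ∧ ‖t0‖ ≤ 2) →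
      (1 ∈ T → tm ≤ ‖t1‖ ∧ ‖t1‖ ≤ 2) → (2 ∈ T → tm ≤ ‖t2‖ ∧ ‖t2‖ ≤ 2) →
      ‖y0 - x 0‖ < rho → ‖y1 - x 1‖ < rho → ‖y2 - x 2‖ < rho →
      (if (0 : Fin 3) ∈ T then mu * t0 else f 0) * y0 ^ 2 +
        (if (1 : Fin 3) ∈ T then mu * t1 else f 1) * y1 ^ 2 +
        (if (2 : Fin 3) ∈ T then mu * t2 else f 2) * y2 ^ 2 = 0 →
      ∃ tau y : Fin 3 → K, (∀ j ∈ T, tm ≤ ‖tau j‖ ∧ ‖tau j‖ ≤ 2) ∧
          (∀ j, ‖y j - x j‖ < rho) ∧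
          ∑ j, (if j ∈ T then mu * tau j else f j) * y j ^ 2 = 0 := by
    intro t0 t1 t2 y0 y1 y2 h0 h1 h2 g0 g1 g2 e
    refine ⟨![t0, t1, t2], ![y0, y1, y2], ?_, ?_, ?_⟩
    · intro j hj
      fin_cases j
      · exact h0 hj
      · exact h1 hj
      · exact h2 hj
    · intro j
      fin_cases j
      · exact g0
      · exact g1
      · exact g2
    · rw [Fin.sum_univ_three]
      exact e
  by_cases h0 : (0 : Fin 3) ∈ T <;> by_cases h1 : (1 : Fin 3) ∈ T <;>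
    by_cases h2 : (2 : Fin 3) ∈ T
  · obtain ⟨ta, tb, tc, ya, yb, yc, r1, r2, r3, r4, r5, r6, r7, r8, r9, r10⟩ :=
      L3 (x 0) (x 1) (x 2) mu (hx 0) (hx 1) (hx 2)
    exact key ta tb tc ya yb yc (fun _ => ⟨t2.trans r1, by linarith⟩)
      (fun _ => ⟨t2.trans r3, by linarith⟩) (fun _ => ⟨t3.trans r5, r6⟩) r7 r8 r9
      (by rw [if_pos h0, if_pos h1, if_pos h2]; exact r10)
  · obtain ⟨ta, tb, ya, yb, yc, r1, r2, r3, r4, r7, r8, r9, r10⟩ :=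
      L2 (f 0) (f 1) (f 2) (x 0) (x 1) (x 2) mu (hx 0) (hx 1) he (hT 0 h0) (hT 1 h1) (hN 2 h2)
    exact key ta tb 0 ya yb yc (fun _ => ⟨t4.trans r1, by linarith⟩)
      (fun _ => ⟨t4.trans r3, by linarith⟩) (fun h => absurd h h2) r7 r8 r9
      (by rw [if_pos h0, if_pos h1, if_neg h2]; exact r10)
  · obtain ⟨ta, tb, ya, yb, yc, r1, r2, r3, r4, r7, r8, r9, r10⟩ :=
      L2 (f 0) (f 2) (f 1) (x 0) (x 2) (x 1) mu (hx 0) (hx 2) (by linear_combination he)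
        (hT 0 h0) (hT 2 h2) (hN 1 h1)
    exact key ta 0 tb ya yc yb (fun _ => ⟨t4.trans r1, by linarith⟩)
      (fun h => absurd h h1) (fun _ => ⟨t4.trans r3, by linarith⟩) r7 r9 r8
      (by rw [if_pos h0, if_neg h1, if_pos h2]; linear_combination r10)
  · obtain ⟨ta, ya, yb, yc, r1, r2, r7, r8, r9, r10⟩ :=
      L1 (f 0) (f 1) (f 2) (x 0) (x 1) (x 2) mu (hx 0) (hx 1) (hx 2) hx1' he (hT 0 h0) (hN 1 h1)
        (hN 2 h2) hmu0 hmu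
    exact key ta 0 0 ya yb yc (fun _ => ⟨t1.trans r1, by linarith⟩)
      (fun h => absurd h h1) (fun h => absurd h h2) r7 r8 r9
      (by rw [if_pos h0, if_neg h1, if_neg h2]; exact r10)
  · obtain ⟨ta, tb, ya, yb, yc, r1, r2, r3, r4, r7, r8, r9, r10⟩ :=
      L2 (f 1) (f 2) (f 0) (x 1) (x 2) (x 0) mu (hx 1) (hx 2) (by linear_combination he)
        (hT 1 h1) (hT 2 h2) (hN 0 h0)
    exact key 0 ta tb yc ya yb (fun h => absurd h h0) (fun _ => ⟨t4.trans r1, by linarith⟩)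
      (fun _ => ⟨t4.trans r3, by linarith⟩) r9 r7 r8
      (by rw [if_neg h0, if_pos h1, if_pos h2]; linear_combination r10)
  · obtain ⟨ta, ya, yb, yc, r1, r2, r7, r8, r9, r10⟩ :=
      L1 (f 1) (f 0) (f 2) (x 1) (x 0) (x 2) mu (hx 1) (hx 0) (hx 2)
        (by rcases hx1' with h | h | h <;> simp [h]) (by linear_combination he) (hT 1 h1)
        (hN 0 h0) (hN 2 h2) hmu0 hmu
    exact key 0 ta 0 yb ya yc (fun h => absurd h h0) (fun _ => ⟨t1.trans r1, by linarith⟩)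
      (fun h => absurd h h2) r8 r7 r9
      (by rw [if_neg h0, if_pos h1, if_neg h2]; linear_combination r10)
  · obtain ⟨ta, ya, yb, yc, r1, r2, r7, r8, r9, r10⟩ :=
      L1 (f 2) (f 0) (f 1) (x 2) (x 0) (x 1) mu (hx 2) (hx 0) (hx 1)
        (by rcases hx1' with h | h | h <;> simp [h]) (by linear_combination he) (hT 2 h2)
        (hN 0 h0) (hN 1 h1) hmu0 hmu
    exact key 0 0 ta yb yc ya (fun h => absurd h h0) (fun h => absurd h h1)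
      (fun _ => ⟨t1.trans r1, by linarith⟩) r8 r9 r7
      (by rw [if_neg h0, if_neg h1, if_pos h2]; linear_combination r10)
  · exact key 0 0 0 (x 0) (x 1) (x 2) (fun h => absurd h h0) (fun h => absurd h h1)
      (fun h => absurd h h2) (sub0 _) (sub0 _) (sub0 _)
      (by rw [if_neg h0, if_neg h1, if_neg h2]; exact he)

end RcWA
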