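import Pool.Agent.Lib.MP_e426f4_ag.RC.Defs
import Pool.Agent.Lib.MP_e426f4_ag.RC.ExDefs

/-!
# RCW: weak approximation for random diagonal conic bundles: definitions
-/

set_option autoImplicit false

namespace RcWA

open Finset Filter Topology GenHP CIPHP TwHP RcHP

section multi
variable {ι : Type} [Fintype ι] [DecidableEq ι] {n : ι → ℕ} {r : ℕ}

/-- coordinates of norm at most `1`, a coordinate of norm `1` in each block -/
def NS {K : Type} [NormedField K] (s : MVar n → K) : Prop :=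
  (∀ v, ‖s v‖ ≤ 1) ∧ ∀ l, ∃ a, ‖s ⟨l, a⟩‖ = 1

/-- every `x i` has norm `1` -/
def NX {K : Type} [NormedField K] (x : Fin r → Fin 3 → K) : Prop :=
  ∀ i, (∀ j, ‖x i j‖ ≤ 1) ∧ ∃ j, ‖x i j‖ = 1

variable {d : Fin (r * 3) → ι → ℕ}

/-- `(s, x)` lies on the conic bundle (degenerate fibres allowed) -/
def OnX {K : Type} [Field K] (A : PSys n d K) (s : MVar n → K) (x : Fin r → Fin 3 → K) : Prop :=
  ∀ i, ∑ j, MF (A (ix i j)) s * x i j ^ 2 = 0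

/-- `U` is a good `p`-adic point of level `k` -/
def GPt (p : ℕ) [Fact p.Prime] (k : ℕ) (A : PSys n d ℤ) (U : MVar n → ℤ) : Prop :=
  (∀ j, ¬ (p : ℤ) ^ k ∣ MF (A j) U) ∧
    ∀ i : Fin r, Iso ((MF (A (ix i 0)) U : ℤ) : ℚ_[p]) ((MF (A (ix i 1)) U : ℤ) : ℚ_[p])
      ((MF (A (ix i 2)) U : ℤ) : ℚ_[p])

/-- `u` is a good real point of level `c` -/
def GRt (c : ℝ) (A : PSys n d ℝ) (u : MVar n → ℝ) : Prop :=
  (∀ v, |u v| ≤ 2) ∧ (∀ j, c ≤ |MF (A j) u|) ∧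
    ∀ i : Fin r, Iso (MF (A (ix i 0)) u) (MF (A (ix i 1)) u) (MF (A (ix i 2)) u)

/-- There is a rational point of the conic bundle over an integral `z` near the given `U p` (`p ≤ w`) and,
up to scaling the blocks, near the given real `u`. -/
def SolN (w k : ℕ) (del : ℝ) (U : ℕ → MVar n → ℤ) (u : MVar n → ℝ) (A : PSys n d ℤ) : Prop :=
  ∃ (z : MVar n → ℤ) (T : ι → ℝ), (∀ l, 0 < T l) ∧ Fib (cst ℚ A) (fun v => (z v : ℚ)) ∧
    (∀ p : ℕ, p.Prime → p ≤ w → ∀ v, (p : ℤ) ^ k ∣ z v - U p v) ∧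
    ∀ v, |(z v : ℝ) - T v.1 * u v| ≤ del * T v.1

/-- Weak approximation at the real place and the primes `≤ w`, up to `rho`, for points with normalised
coordinates. -/
def WAc (w : ℕ) (rho : ℝ) (A : PSys n d ℤ) : Prop :=
  ∀ (s : MVar n → ℝ) (x : Fin r → Fin 3 → ℝ) (sp : ∀ (p : ℕ) [Fact p.Prime], MVar n → ℚ_[p])
    (xp : ∀ (p : ℕ) [Fact p.Prime], Fin r → Fin 3 → ℚ_[p]),
    NS s → NX x → OnX (cst ℝ A) s x →
    (∀ (p : ℕ) [Fact p.Prime], p ≤ w → NS (sp p) ∧ NX (xp p) ∧ OnX (cst ℚ_[p] A) (sp p) (xp p)) →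
    ∃ (S : MVar n → ℚ) (X : Fin r → Fin 3 → ℚ), (∀ j, MF (cst ℚ A j) S ≠ 0) ∧ (∀ i, X i ≠ 0) ∧
      OnX (cst ℚ A) S X ∧ (∀ v, |(S v : ℝ) - s v| < rho) ∧ (∀ i j, |(X i j : ℝ) - x i j| < rho) ∧
      ∀ (p : ℕ) [Fact p.Prime], p ≤ w → (∀ v, ‖(S v : ℚ_[p]) - sp p v‖ < rho) ∧
        ∀ i j, ‖(X i j : ℚ_[p]) - xp p i j‖ < rho

/-- The class theorem with given points: in a class of systems with the good real point `u` and the good
`p`-adic points `U p`, `p ≤ w`, all but a proportion `C / w` have a rational point near the given ones. -/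
def RCLSW (n : ι → ℕ) {r : ℕ} (d : Fin (r * 3) → ι → ℕ) : Prop :=
  ∃ C : ℝ, 0 < C ∧ ∀ w : ℕ, 2 ≤ w → ∀ bet : ℝ, 0 < bet → bet ≤ 1 → ∀ del : ℝ, 0 < del →
    ∃ rho0 : ℝ, 0 < rho0 ∧ rho0 ≤ 1 ∧ ∀ rho : ℝ, 0 < rho → rho ≤ rho0 → ∀ k : ℕ, 1 ≤ k →
      ∀ (A0 : PSys n d ℤ) (U : ℕ → MVar n → ℤ),
      (∀ (p : ℕ) [Fact p.Prime], p ≤ w → GPt p k A0 (U p)) →
      ∀ (AC Ainf : PSys n d ℝ) (u : MVar n → ℝ), (∀ j t, |Ainf j t| ≤ 1) →
      (∀ j t, |AC j t - Ainf j t| ≤ rho) → GRt bet Ainf u →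
      ∀ᶠ H : ℝ in atTop,
        (Set.ncard {A : PSys n d ℤ | (∀ j t, |(A j t : ℝ) - H * AC j t| ≤ rho * H) ∧
          (∀ j t, ((primorial w : ℤ) ^ (k + 3)) ∣ A j t - A0 j t) ∧ ¬ SolN w k del U u A} : ℝ) ≤
          C / w * (2 * rho * H / (primorial w : ℝ) ^ (k + 3)) ^ NP n d

/-- `A` has rational points near all good points at the real place and the primes `≤ w`. -/
def SolAll (w m k : ℕ) (del c : ℝ) (H : ℕ) (A : PSys n d ℤ) : Prop :=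
  ∀ (U : MVar n → ℤ) (u : MVar n → ℝ), (∀ (p : ℕ) [Fact p.Prime], p ≤ w → GPt p k A U) →
    GRt c (fun j t => (A j t : ℝ) / H) u → SolN w m del (fun _ => U) u A

end multi

/-- elements near `1` are squares of elements near `1` -/
def SqN (K : Type) [NormedField K] : Prop :=
  ∀ rho : ℝ, 0 < rho → ∃ δ : ℝ, 0 < δ ∧ ∀ u : K, ‖u - 1‖ < δ → ∃ t : K, t ^ 2 = u ∧ ‖t - 1‖ < rho

section exc
variable {ι : Type} [Fintype ι] [DecidableEq ι] {n : ι → ℕ} {m : ℕ} {d : Fin m → ι → ℕ}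

/-- `A` is exceptional over the normed field `K`: some non-empty subsystem is nearly singular at some point. -/
def ExcK {K : Type} [NormedField K] (bet : ℝ) (A : PSys n d K) : Prop :=
  ∃ (b : ℕ) (em : Fin b → Fin m), 1 ≤ b ∧ Function.Injective em ∧ ∃ z : MVar n → K, NS z ∧
    (∀ j, ‖MF (A (em j)) z‖ ≤ bet) ∧
    ∀ J : Fin b → MVar n,
      ‖(PJac (fun j => A (em j) : PSys n (fun j => d (em j)) K) z J).det‖ < bet ^ b

end exc

end RcWA
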