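import Mathlib

/-!
# RCW-Diag: the diagonal argument and quotients tending to one
-/

set_option autoImplicit false

namespace RcWA

open Filter Topology

theorem diag_small {V : Type*} (Hs : ℕ → Set V) (E : ℕ → Set V) (b : ℕ → ℝ) (hb : ∀ H, 0 ≤ b H)
    (hE : ∀ k : ℕ, ∀ eps : ℝ, 0 < eps → ∀ᶠ H : ℕ in atTop,
      (Set.ncard {A | A ∈ Hs H ∧ A ∈ E k} : ℝ) ≤ eps * b H) :
    ∃ W : ℕ → ℕ, Tendsto W atTop atTop ∧ ∀ eps : ℝ, 0 < eps → ∀ᶠ H : ℕ in atTop,
      (Set.ncard {A | A ∈ Hs H ∧ A ∈ E (W H)} : ℝ) ≤ eps * b H := by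
  have h1 : ∀ k : ℕ, ∃ N : ℕ, ∀ H : ℕ, N ≤ H →
      (Set.ncard {A | A ∈ Hs H ∧ A ∈ E k} : ℝ) ≤ 1 / ((k : ℝ) + 1) * b H :=
    fun k => Filter.eventually_atTop.mp (hE k (1 / ((k : ℝ) + 1)) (by positivity))
  choose N hN using h1
  refine ⟨fun H => Nat.findGreatest (fun k => N k ≤ H) H, ?_, fun eps heps => ?_⟩
  · rw [Filter.tendsto_atTop]
    intro k
    filter_upwards [eventually_ge_atTop k, eventually_ge_atTop (N k)] with H h1 h2
    exact Nat.le_findGreatest h1 h2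
  · obtain ⟨k, hk⟩ := exists_nat_one_div_lt heps
    filter_upwards [eventually_ge_atTop k, eventually_ge_atTop (N k)] with H h1 h2
    have h3 : k ≤ Nat.findGreatest (fun k => N k ≤ H) H := Nat.le_findGreatest h1 h2
    have h4 : N (Nat.findGreatest (fun k => N k ≤ H) H) ≤ H :=
      Nat.findGreatest_spec (P := fun k => N k ≤ H) h1 h2
    refine (hN _ H h4).trans ?_
    refine mul_le_mul_of_nonneg_right ?_ (hb H)
    refine le_trans ?_ hk.le
    have h5 : (k : ℝ) ≤ (Nat.findGreatest (fun k => N k ≤ H) H : ℕ) := by exact_mod_cast h3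
    exact one_div_le_one_div_of_le (by positivity) (by linarith)

theorem ratio_one (S T b : ℕ → ℝ) (c : ℝ) (hc : 0 < c) (hb : ∀ H, 0 < b H)
    (hpos : ∀ᶠ H : ℕ in atTop, c * b H ≤ S H) (hle : ∀ H, T H ≤ S H)
    (hsm : ∀ eps : ℝ, 0 < eps → ∀ᶠ H : ℕ in atTop, S H ≤ T H + eps * b H) :
    Tendsto (fun H => T H / S H) atTop (𝓝 1) := by
  rw [Metric.tendsto_nhds]
  intro e he
  filter_upwards [hpos, hsm (c * (e / 2)) (by positivity)] with H h1 h4
  have hb' := hb H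
  have hS0 : 0 < S H := lt_of_lt_of_le (by positivity) h1
  have h3 := hle H
  rw [Real.dist_eq, abs_sub_comm, abs_of_nonneg]
  · have h5 : S H - T H ≤ e / 2 * S H := by nlinarith
    have h6 : 1 - T H / S H = (S H - T H) / S H := by field_simp
    rw [h6, div_lt_iff₀ hS0]
    nlinarith
  · rw [sub_nonneg, div_le_one hS0]
    exact h3

end RcWA
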