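import Pool.Agent.Lib.MP_e426f4_ag.RCW.Defs
import Pool.Agent.Lib.MP_e426f4_ag.RCW.AlgK

/-!
# RCW-DirK: the direction of the perturbation

Proof. Port of `pr_adj`, `pr_K1`, `pr_K`, `pr_dir` in `RC/PertR.lean` from `ℝ` to a normed field (`MDK_norm_le` of RCW-AlgK in place of `MD_abs_le`; the bound of the adjugate:
`Matrix.det_le` with `abv := NormedField.toAbsoluteValue K` or by `Matrix.det_apply`, `norm_sum_le`, `norm_prod`); `tau` is bounded by `2` instead of `1`.
-/

set_option autoImplicit false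

namespace RcWA

open Finset GenHP CIPHP TwHP RcHP

private theorem dk_adj {K : Type} [NormedField K] {b : ℕ} (L : Matrix (Fin b) (Fin b) K) (B : ℝ)
    (hB : 1 ≤ B) (hL : ∀ i l, ‖L i l‖ ≤ B) (i l : Fin b) :
    ‖L.adjugate i l‖ ≤ (Nat.factorial b : ℝ) * B ^ b := by
  rw [Matrix.adjugate_apply]
  have h := Matrix.det_le (A := L.updateRow l (Pi.single i 1))
    (abv := NormedField.toAbsoluteValue K) (x := B) (fun a b => by
      rw [Matrix.updateRow_apply]
      split_ifs with hab
      · change ‖(Pi.single i (1 : K) : Fin _ → K) b‖ ≤ B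
        rcases eq_or_ne b i with rfl | hbi
        · rw [Pi.single_eq_same, norm_one]
          exact hB
        · rw [Pi.single_eq_of_ne hbi, norm_zero]
          linarith
      · exact hL a b)
  rw [Fintype.card_fin, nsmul_eq_mul] at h
  exact h

section consts
variable {ι : Type} [Fintype ι] [DecidableEq ι]

/-- bound for the partial derivatives -/
private noncomputable def dk_K1 (n : ι → ℕ) {m : ℕ} (d : Fin m → ι → ℕ) : ℝ :=
  1 + ∑ j, ((NM n (d j) : ℝ) * (∑ i, d j i : ℕ))

/-- bound for the direction of the perturbation -/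
private noncomputable def dk_K (n : ι → ℕ) {m : ℕ} (d : Fin m → ι → ℕ) : ℝ :=
  1 + (m : ℝ) * ((m : ℝ) * (2 * ((Nat.factorial m : ℝ) * dk_K1 n d ^ m)))

private theorem dk_K1_one (n : ι → ℕ) {m : ℕ} (d : Fin m → ι → ℕ) : 1 ≤ dk_K1 n d := by
  unfold dk_K1
  have : (0 : ℝ) ≤ ∑ j, ((NM n (d j) : ℝ) * (∑ i, d j i : ℕ)) :=
    Finset.sum_nonneg fun i _ => by positivity
  linarith

private theorem dk_K_one (n : ι → ℕ) {m : ℕ} (d : Fin m → ι → ℕ) : 1 ≤ dk_K n d := by
  unfold dk_K
  have h1 := dk_K1_one n d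
  have : (0 : ℝ) ≤ (m : ℝ) * ((m : ℝ) * (2 * ((Nat.factorial m : ℝ) * dk_K1 n d ^ m))) := by
    positivity
  linarith

private theorem dk_K1_ge (n : ι → ℕ) {m : ℕ} (d : Fin m → ι → ℕ) (j : Fin m) :
    (NM n (d j) : ℝ) * (∑ i, d j i : ℕ) ≤ dk_K1 n d := by
  unfold dk_K1
  have h := Finset.single_le_sum (f := fun j => (NM n (d j) : ℝ) * (∑ i, d j i : ℕ))
    (fun i _ => by positivity) (Finset.mem_univ j)
  linarith

end consts

theorem dir_k {K : Type} [NormedField K] {ι : Type} [Fintype ι] [DecidableEq ι] (n : ι → ℕ) {m : ℕ}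
    (d : Fin m → ι → ℕ) :
    ∃ C : ℝ, 0 < C ∧ ∀ A : PSys n d K, (∀ j t, ‖A j t‖ ≤ 1) → ∀ s : MVar n → K, (∀ v, ‖s v‖ ≤ 1) →
      ∀ (b : ℕ) (em : Fin b → Fin m), b ≤ m → ∀ (J : Fin b → MVar n) (tau : Fin b → K),
        (∀ l, ‖tau l‖ ≤ 2) →
        ∃ h : MVar n → K, (∀ v, ‖h v‖ ≤ C) ∧ ∀ l, ∑ v, MD (A (em l)) s v * h v =
          (PJac (fun j => A (em j) : PSys n (fun j => d (em j)) K) s J).det * tau l := by
  refine ⟨dk_K n d, lt_of_lt_of_le one_pos (dk_K_one n d), ?_⟩
  intro A ha z hz b em hb J tau htau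
  set L := PJac (fun j => A (em j) : PSys n (fun j => d (em j)) K) z J with hL
  have hK1 := dk_K1_one n d
  have hLb : ∀ i l, ‖L i l‖ ≤ dk_K1 n d := by
    intro i l
    have h1 := MDK_norm_le (A (em i)) z (J l) 1 1 le_rfl (ha (em i)) hz
    rw [one_pow, mul_one, mul_one] at h1
    exact le_trans h1 (dk_K1_ge n d (em i))
  set K2 : ℝ := (Nat.factorial m : ℝ) * dk_K1 n d ^ m with hK2
  have hK20 : 0 ≤ K2 := by positivity
  have hadj : ∀ i l, ‖L.adjugate i l‖ ≤ K2 := by
    intro i l
    refine (dk_adj L _ hK1 hLb i l).trans ?_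
    refine mul_le_mul ?_ (pow_le_pow_right₀ hK1 hb) (by positivity) (by positivity)
    exact_mod_cast Nat.factorial_le hb
  set w : Fin b → K := L.adjugate.mulVec tau with hw
  have hbm : (b : ℝ) ≤ m := by exact_mod_cast hb
  have hwb : ∀ l, ‖w l‖ ≤ m * (2 * K2) := by
    intro l
    calc ‖w l‖ = ‖∑ l', L.adjugate l l' * tau l'‖ := rfl
      _ ≤ ∑ l', ‖L.adjugate l l' * tau l'‖ := norm_sum_le _ _
      _ ≤ ∑ _l' : Fin b, (2 * K2) := by
          refine Finset.sum_le_sum fun l' _ => ?_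
          rw [norm_mul]
          calc ‖L.adjugate l l'‖ * ‖tau l'‖ ≤ K2 * 2 :=
                mul_le_mul (hadj l l') (htau l') (norm_nonneg _) hK20
            _ = 2 * K2 := mul_comm _ _
      _ = b * (2 * K2) := by
          rw [Finset.sum_const, Finset.card_univ, Fintype.card_fin, nsmul_eq_mul]
      _ ≤ m * (2 * K2) := mul_le_mul_of_nonneg_right hbm (by positivity)
  refine ⟨fun u => ∑ l, if J l = u then w l else 0, fun u => ?_, fun l => ?_⟩
  · calc ‖∑ l, if J l = u then w l else 0‖ ≤ ∑ l, ‖if J l = u then w l else 0‖ :=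
          norm_sum_le _ _
      _ ≤ ∑ _l : Fin b, (m * (2 * K2) : ℝ) := by
          refine Finset.sum_le_sum fun l _ => ?_
          split_ifs
          · exact hwb l
          · rw [norm_zero]
            positivity
      _ = b * (m * (2 * K2)) := by
          rw [Finset.sum_const, Finset.card_univ, Fintype.card_fin, nsmul_eq_mul]
      _ ≤ m * (m * (2 * K2)) := mul_le_mul_of_nonneg_right hbm (by positivity)
      _ ≤ dk_K n d := by
          unfold dk_K
          linarith
  · have h0 : ∑ l', L l l' * w l' = L.det * tau l := by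
      have h1 : L.mulVec w = L.det • tau := by
        rw [hw, Matrix.mulVec_mulVec, Matrix.mul_adjugate, Matrix.smul_mulVec, Matrix.one_mulVec]
      have h2 := congrFun h1 l
      simpa [Matrix.mulVec, dotProduct] using h2
    rw [← h0]
    have h1 : ∀ u, MD (A (em l)) z u * (∑ l, if J l = u then w l else 0) =
        ∑ l', if J l' = u then MD (A (em l)) z u * w l' else 0 := by
      intro u
      simp only [Finset.mul_sum]
      refine Finset.sum_congr rfl fun l' _ => ?_
      split_ifs <;> ring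
    rw [Finset.sum_congr rfl fun u _ => h1 u, Finset.sum_comm]
    refine Finset.sum_congr rfl fun l' _ => ?_
    rw [Finset.sum_ite_eq]
    simp [hL, PJac]

end RcWA
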