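import Pool.Agent.Lib.MP_e426f4_ag.RCW.Defs
import Pool.Agent.Lib.MP_e426f4_ag.WX.ConB
import Pool.Agent.Lib.MP_e426f4_ag.WX.WQ

/-!
# RCW-EndW: from a good fibre to a rational point near all local points

Proof. `z, T` from `hsol`.  `wq` (`WX/WQ.lean`, `ι` enumerated by `Fintype.equivFin`; or `choose` its one-coordinate form) gives rationals `lam l` with `|lam l - 1 / T l|` small, in particular `< 1 / T l`
and `|z v| |lam l - 1 / T l| ≤ del`, and `‖lam l - 1‖ ≤ p^(-m)` for the primes `p ≤ w` (use a radius below all `p^(-m)`).  `S v = lam v.1 * z v`: `|S v - u v| ≤ 2 del`, `‖S v - U v‖ ≤ p^(-m)`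
(ultrametric, `‖z v‖ ≤ 1`).  `MF_scale`: values nonzero; `Iso` over `ℚ` for the conics over `S` (`IntP_iso` in `RC/IntP.lean`, copy it, with `EqPar`).  `hR`, `hP` give local points on the fibre over `S` (values
cast: `MF_map`), nonzero as `rho ≤ 1/2` and `x i`, `xp p i` have norm `1`; `con_b` for each conic with `rho`: `X i`, then `|X - x| < 2 rho`.
-/

set_option autoImplicit false

namespace RcWA

open Finset GenHP CIPHP TwHP RcHP

/-- scaling preserves solubility of the conics -/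
private theorem EndW_iso {ι : Type} [Fintype ι] {K : Type} [Field K] (c : ι → K)
    (hc : ∀ i, c i ≠ 0) (d : Fin 3 → ι → ℕ) (hd : ∀ j j' l, d j l % 2 = d j' l % 2)
    (F : Fin 3 → K) (h : Iso (F 0) (F 1) (F 2)) :
    Iso ((∏ i, c i ^ d 0 i) * F 0) ((∏ i, c i ^ d 1 i) * F 1) ((∏ i, c i ^ d 2 i) * F 2) := by
  have key : ∀ j : Fin 3, (∏ i, c i ^ d j i) * F j =
      ((∏ i, c i ^ (d 0 i % 2)) * F j) * (∏ i, c i ^ (d j i / 2)) ^ 2 := by
    intro j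
    have h1 : ∏ i, c i ^ d j i = (∏ i, c i ^ (d 0 i % 2)) * (∏ i, c i ^ (d j i / 2)) ^ 2 := by
      rw [← Finset.prod_pow, ← Finset.prod_mul_distrib]
      refine Finset.prod_congr rfl fun i _ => ?_
      rw [← pow_mul, ← pow_add]
      congr 1
      rw [hd 0 j i]
      omega
    rw [h1]
    ring
  have hne : ∀ e : ι → ℕ, ∏ i, c i ^ e i ≠ 0 := fun e =>
    Finset.prod_ne_zero_iff.2 fun i _ => pow_ne_zero _ (hc i)
  rw [key 0, key 1, key 2, iso_sq _ _ _ _ _ _ (hne _) (hne _) (hne _), iso_mul _ _ _ _ (hne _)]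
  exact h

private theorem EndW_cast {ι : Type} [Fintype ι] [DecidableEq ι] {n : ι → ℕ} {r : ℕ}
    {d : Fin (r * 3) → ι → ℕ} (K : Type) [Field K] [CharZero K] (A : PSys n d ℤ)
    (S : MVar n → ℚ) (j : Fin (r * 3)) :
    MF (cst K A j) (fun v => (S v : K)) = ((MF (cst ℚ A j) S : ℚ) : K) := by
  have h1 := MF_map (Rat.castHom K) (cst ℚ A j) S
  have h2 : (fun t => Rat.castHom K (cst ℚ A j t)) = cst K A j := by
    funext t
    simp [cst]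
  rw [h2] at h1
  exact h1

private theorem EndW_lam (w m : ℕ) (T : ℝ) (hT : 0 < T) (del M : ℝ) (hdel : 0 < del)
    (hM : 0 < M) : ∃ lam : ℚ, lam ≠ 0 ∧ |(lam : ℝ) - 1 / T| * M ≤ del ∧
      ∀ (p : ℕ) [Fact p.Prime], p ≤ w → ‖(lam : ℚ_[p]) - 1‖ ≤ (p : ℝ) ^ (-(m : ℤ)) := by
  have hw : (0 : ℝ) < (w : ℝ) + 1 := by positivity
  have h1T : (0 : ℝ) < 1 / T := by positivity
  have hρ : 0 < min (1 / T) (min (del / M) (((w : ℝ) + 1) ^ (-(m : ℤ)))) :=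
    lt_min h1T (lt_min (by positivity) (zpow_pos hw _))
  obtain ⟨q, hq1, hq2⟩ := TwWA.wq (m := 1) w (fun _ => 1 / T) (fun p _ _ => (1 : ℚ_[p])) _ hρ
  have h3 := hq1 0
  refine ⟨q 0, ?_, ?_, ?_⟩
  · intro h0
    rw [h0] at h3
    have h4 := h3.trans_le (min_le_left _ _)
    rw [Rat.cast_zero, zero_sub, abs_neg, abs_of_pos h1T] at h4
    exact lt_irrefl _ h4
  · have h4 : |((q 0 : ℚ) : ℝ) - 1 / T| ≤ del / M :=
      (h3.le.trans (min_le_right _ _)).trans (min_le_left _ _)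
    calc |((q 0 : ℚ) : ℝ) - 1 / T| * M ≤ del / M * M := mul_le_mul_of_nonneg_right h4 hM.le
      _ = del := div_mul_cancel₀ _ hM.ne'
  · intro p _ hpw
    have h4 : ‖((q 0 : ℚ) : ℚ_[p]) - 1‖ ≤ ((w : ℝ) + 1) ^ (-(m : ℤ)) :=
      ((hq2 p hpw 0).le.trans (min_le_right _ _)).trans (min_le_right _ _)
    refine h4.trans ?_
    have hp0 : (0 : ℝ) < p := by exact_mod_cast (Fact.out : p.Prime).pos
    rw [zpow_neg, zpow_neg, zpow_natCast, zpow_natCast]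
    apply inv_anti₀ (pow_pos hp0 m)
    apply pow_le_pow_left₀ hp0.le
    have : (p : ℝ) ≤ w := by exact_mod_cast hpw
    linarith

private theorem EndW_ne {K : Type} [NormedField K] (a b : Fin 3 → K) (rho : ℝ)
    (hrho1 : rho ≤ 1 / 2) (hb : ∃ j, ‖b j‖ = 1) (h : ∀ j, ‖a j - b j‖ < rho) : a ≠ 0 := by
  rintro rfl
  obtain ⟨j, hj⟩ := hb
  have h1 := h j
  rw [Pi.zero_apply, zero_sub, norm_neg, hj] at h1
  linarith

theorem end_w {ι : Type} [Fintype ι] [DecidableEq ι] {n : ι → ℕ} {r : ℕ}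
    {d : Fin (r * 3) → ι → ℕ} (hpar : EqPar d) (w m : ℕ) (A : PSys n d ℤ) (del rho : ℝ)
    (hdel : 0 < del) (hrho : 0 < rho) (hrho1 : rho ≤ 1 / 2) (U : MVar n → ℤ) (u : MVar n → ℝ)
    (hsol : SolN w m del (fun _ => U) u A)
    (s : MVar n → ℝ) (x : Fin r → Fin 3 → ℝ) (hx : NX x)
    (sp : ∀ (p : ℕ) [Fact p.Prime], MVar n → ℚ_[p])
    (xp : ∀ (p : ℕ) [Fact p.Prime], Fin r → Fin 3 → ℚ_[p])
    (hxp : ∀ (p : ℕ) [Fact p.Prime], p ≤ w → NX (xp p))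
    (hR : ∀ s' : MVar n → ℝ, (∀ v, |s' v - u v| ≤ 2 * del) → (∀ v, |s' v - s v| < rho) ∧
      ∃ x' : Fin r → Fin 3 → ℝ, (∀ i j, |x' i j - x i j| < rho) ∧ OnX (cst ℝ A) s' x')
    (hP : ∀ (p : ℕ) [Fact p.Prime], p ≤ w → ∀ s' : MVar n → ℚ_[p],
      (∀ v, ‖s' v - (U v : ℚ_[p])‖ ≤ (p : ℝ) ^ (-(m : ℤ))) → (∀ v, ‖s' v - sp p v‖ < rho) ∧
      ∃ x' : Fin r → Fin 3 → ℚ_[p], (∀ i j, ‖x' i j - xp p i j‖ < rho) ∧
        OnX (cst ℚ_[p] A) s' x') :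
    ∃ (S : MVar n → ℚ) (X : Fin r → Fin 3 → ℚ), (∀ j, MF (cst ℚ A j) S ≠ 0) ∧ (∀ i, X i ≠ 0) ∧
      OnX (cst ℚ A) S X ∧ (∀ v, |(S v : ℝ) - s v| < 2 * rho) ∧
      (∀ i j, |(X i j : ℝ) - x i j| < 2 * rho) ∧
      ∀ (p : ℕ) [Fact p.Prime], p ≤ w → (∀ v, ‖(S v : ℚ_[p]) - sp p v‖ < 2 * rho) ∧
        ∀ i j, ‖(X i j : ℚ_[p]) - xp p i j‖ < 2 * rho := by
  obtain ⟨z, T, hT, hFib, hzU, hzu⟩ := hsol
  have hM : 0 < 1 + ∑ v : MVar n, |(z v : ℝ)| := by positivity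
  have hzM : ∀ v : MVar n, |(z v : ℝ)| ≤ 1 + ∑ v : MVar n, |(z v : ℝ)| := by
    intro v
    have h1 := Finset.single_le_sum (f := fun v : MVar n => |(z v : ℝ)|)
      (fun i _ => abs_nonneg _) (Finset.mem_univ v)
    linarith
  choose lam hlam0 hlamR hlamP using fun l => EndW_lam w m (T l) (hT l) del _ hdel hM
  obtain ⟨S, hS⟩ : ∃ S : MVar n → ℚ, S = fun v => lam v.1 * (z v : ℚ) := ⟨_, rfl⟩
  have hMF : ∀ j, MF (cst ℚ A j) S =
      (∏ i, lam i ^ d j i) * MF (cst ℚ A j) (fun v => (z v : ℚ)) := by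
    intro j
    rw [hS]
    exact MF_scale lam _ _
  have hne : ∀ j, MF (cst ℚ A j) S ≠ 0 := by
    intro j
    rw [hMF]
    exact mul_ne_zero (Finset.prod_ne_zero_iff.2 fun i _ => pow_ne_zero _ (hlam0 i)) (hFib.1 j)
  have hiso : ∀ i : Fin r, Iso (MF (cst ℚ A (ix i 0)) S) (MF (cst ℚ A (ix i 1)) S)
      (MF (cst ℚ A (ix i 2)) S) := by
    intro i
    rw [hMF, hMF, hMF]
    exact EndW_iso lam hlam0 (fun j => d (ix i j)) (fun j j' l => hpar i j j' l)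
      (fun j => MF (cst ℚ A (ix i j)) (fun v => (z v : ℚ))) (hFib.2 i)
  -- the real place
  have hSR : ∀ v, |((S v : ℚ) : ℝ) - u v| ≤ 2 * del := by
    intro v
    have hTv := hT v.1
    have h1 : ((S v : ℚ) : ℝ) - u v = ((lam v.1 : ℝ) - 1 / T v.1) * (z v : ℝ) +
        ((z v : ℝ) - T v.1 * u v) / T v.1 := by
      rw [hS]
      push_cast
      field_simp
      ring
    have h2 : |((lam v.1 : ℝ) - 1 / T v.1) * (z v : ℝ)| ≤ del := by
      rw [abs_mul]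
      exact (mul_le_mul_of_nonneg_left (hzM v) (abs_nonneg _)).trans (hlamR v.1)
    have h3 : |((z v : ℝ) - T v.1 * u v) / T v.1| ≤ del := by
      rw [abs_div, abs_of_pos hTv, div_le_iff₀ hTv]
      exact hzu v
    rw [h1]
    refine (abs_add_le _ _).trans ?_
    linarith
  obtain ⟨hs, x', hx', hX⟩ := hR (fun v => ((S v : ℚ) : ℝ)) hSR
  -- the primes
  have hSP : ∀ (p : ℕ) [Fact p.Prime], p ≤ w → ∀ v,
      ‖((S v : ℚ) : ℚ_[p]) - (U v : ℚ_[p])‖ ≤ (p : ℝ) ^ (-(m : ℤ)) := by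
    intro p _ hpw v
    have h1 : ((S v : ℚ) : ℚ_[p]) - (U v : ℚ_[p]) = ((lam v.1 : ℚ_[p]) - 1) * (z v : ℚ_[p]) +
        (((z v - U v : ℤ)) : ℚ_[p]) := by
      rw [hS]
      push_cast
      ring
    have h2 : ‖((lam v.1 : ℚ_[p]) - 1) * (z v : ℚ_[p])‖ ≤ (p : ℝ) ^ (-(m : ℤ)) := by
      rw [norm_mul]
      calc ‖(lam v.1 : ℚ_[p]) - 1‖ * ‖(z v : ℚ_[p])‖ ≤ ‖(lam v.1 : ℚ_[p]) - 1‖ * 1 :=
            mul_le_mul_of_nonneg_left (Padic.norm_int_le_one _) (norm_nonneg _)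
        _ = ‖(lam v.1 : ℚ_[p]) - 1‖ := mul_one _
        _ ≤ _ := hlamP v.1 p hpw
    have h3 : ‖(((z v - U v : ℤ)) : ℚ_[p])‖ ≤ (p : ℝ) ^ (-(m : ℤ)) := by
      rw [Padic.norm_int_le_pow_iff_dvd]
      exact_mod_cast hzU p (Fact.out) hpw v
    rw [h1]
    exact (Padic.nonarchimedean _ _).trans (max_le h2 h3)
  have hP' : ∀ (p : ℕ) [Fact p.Prime], ∃ xq : Fin r → Fin 3 → ℚ_[p], p ≤ w →
      (∀ v, ‖((S v : ℚ) : ℚ_[p]) - sp p v‖ < rho) ∧ (∀ i j, ‖xq i j - xp p i j‖ < rho) ∧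
        OnX (cst ℚ_[p] A) (fun v => ((S v : ℚ) : ℚ_[p])) xq := by
    intro p _
    by_cases hpw : p ≤ w
    · obtain ⟨h1, xq, h2, h3⟩ := hP p hpw (fun v => ((S v : ℚ) : ℚ_[p])) (hSP p hpw)
      exact ⟨xq, fun _ => ⟨h1, h2, h3⟩⟩
    · exact ⟨0, fun h => absurd h hpw⟩
  choose xq hxq using hP'
  have hcon : ∀ i : Fin r, ∃ X : Fin 3 → ℚ, X ≠ 0 ∧
      TwWA.bl (MF (cst ℚ A (ix i 0)) S) (MF (cst ℚ A (ix i 1)) S) (MF (cst ℚ A (ix i 2)) S) X X = 0 ∧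
      (∀ k, |(X k : ℝ) - x' i k| < rho) ∧
      ∀ (p : ℕ) [Fact p.Prime], p ≤ w → ∀ k, ‖(X k : ℚ_[p]) - xq p i k‖ < rho := by
    intro i
    refine TwWA.con_b w _ _ _ (hne _) (hne _) (hne _) (hiso i) (x' i) ?_ ?_ (fun p _ => xq p i) ?_ ?_
      rho hrho
    · exact EndW_ne _ _ rho hrho1 (hx i).2 (fun j => by rw [Real.norm_eq_abs]; exact hx' i j)
    · have h1 := hX i
      rw [Fin.sum_univ_three, EndW_cast, EndW_cast, EndW_cast] at h1
      unfold TwWA.bl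
      rw [← h1]
      ring
    · intro p _ hpw
      exact EndW_ne _ _ rho hrho1 (hxp p hpw i).2 (fun j => (hxq p hpw).2.1 i j)
    · intro p _ hpw
      have h1 := (hxq p hpw).2.2 i
      rw [Fin.sum_univ_three, EndW_cast, EndW_cast, EndW_cast] at h1
      unfold TwWA.bl
      rw [← h1]
      ring
  choose X hX0 hX1 hX2 hX3 using hcon
  refine ⟨S, X, hne, hX0, ?_, ?_, ?_, ?_⟩
  · intro i
    have h1 := hX1 i
    unfold TwWA.bl at h1
    rw [Fin.sum_univ_three, ← h1]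
    ring
  · intro v
    have := hs v
    linarith
  · intro i j
    have h1 := hX2 i j
    have h2 := hx' i j
    have h3 : ((X i j : ℚ) : ℝ) - x i j = (((X i j : ℚ) : ℝ) - x' i j) + (x' i j - x i j) := by ring
    rw [h3]
    refine lt_of_le_of_lt (abs_add_le _ _) ?_
    linarith
  · intro p _ hpw
    obtain ⟨h1, h2, -⟩ := hxq p hpw
    refine ⟨fun v => (h1 v).trans (by linarith), fun i j => ?_⟩
    have h3 := hX3 i p hpw j
    have h4 := h2 i j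
    have h5 : ((X i j : ℚ) : ℚ_[p]) - xp p i j =
        (((X i j : ℚ) : ℚ_[p]) - xq p i j) + (xq p i j - xp p i j) := by ring
    rw [h5]
    refine lt_of_le_of_lt (norm_add_le _ _) ?_
    linarith

end RcWA
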