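import Pool.Agent.Lib.MP_e426f4_ag.RCW.Defs
import Pool.Agent.Lib.MP_e426f4_ag.RC.PtU
import Pool.Agent.Lib.MP_e426f4_ag.RC.NearP

/-!
# RCW-GoodUW: an integral point near given good points

Proof. `exists_good` in `RC/GoodU.lean` with the given `Up` (`exists_U` with exponent `k + 3` gives the last clause).
-/

set_option autoImplicit false

namespace RcWA

open Finset GenHP CIPHP TwHP RcHP

theorem exists_good_w {ι : Type} [Fintype ι] [DecidableEq ι] {n : ι → ℕ} {r : ℕ}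
    {d : Fin (r * 3) → ι → ℕ} (hn : ∀ i, 1 ≤ n i) (w k : ℕ) (A0 : PSys n d ℤ)
    (Up : ℕ → MVar n → ℤ) (hA0 : ∀ (p : ℕ) [Fact p.Prime], p ≤ w → GPt p k A0 (Up p))
    (u : MVar n → ℝ) (η : ℝ) (hη : 0 < η) :
    ∃ (U : MVar n → ℤ) (T : ι → ℝ), (∀ i, 1 ≤ T i) ∧ (∀ v, |(U v : ℝ) / T v.1 - u v| ≤ η) ∧
      (∀ i, 0 < Int.gcd (U ⟨i, 0⟩) (U ⟨i, Fin.last (n i)⟩) ∧
        ∀ p : ℕ, p.Prime → p ∣ Int.gcd (U ⟨i, 0⟩) (U ⟨i, Fin.last (n i)⟩) → p ≤ w) ∧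
      (∀ (p : ℕ), p.Prime → p ≤ w → ∀ j, ¬ (p : ℤ) ^ k ∣ MF (A0 j) U) ∧
      (∀ (p : ℕ) [Fact p.Prime], p ≤ w → ∀ i : Fin r, Iso ((MF (A0 (ix i 0)) U : ℤ) : ℚ_[p])
        ((MF (A0 (ix i 1)) U : ℤ) : ℚ_[p]) ((MF (A0 (ix i 2)) U : ℤ) : ℚ_[p])) ∧
      ∀ p : ℕ, p.Prime → p ≤ w → ∀ v, (p : ℤ) ^ (k + 3) ∣ U v - Up p v := by
  obtain ⟨U, T, hT, hcl, hcong, hgcd⟩ := exists_U n hn w (k + 3) Up u η hη
  have hval : ∀ (p : ℕ), p.Prime → p ≤ w → ∀ j,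
      (p : ℤ) ^ (k + 3) ∣ MF (A0 j) U - MF (A0 j) (Up p) := fun p hp hpw j =>
    MF_congr_mod _ _ _ _ _ (fun t => by rw [sub_self]; exact dvd_zero _) (hcong p hp hpw)
  refine ⟨U, T, hT, hcl, hgcd, ?_, ?_, hcong⟩
  · intro p hp hpw j
    have : Fact p.Prime := ⟨hp⟩
    exact near_dvd p k _ _ ((hA0 p hpw).1 j) (hval p hp hpw j)
  · intro p hp hpw i
    have h1 := hA0 p hpw
    exact near_iso p k _ _ _ _ _ _ (h1.1 _) (h1.1 _) (h1.1 _) (hval p hp.out hpw _)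
      (hval p hp.out hpw _) (hval p hp.out hpw _) (h1.2 i)

end RcWA
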