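import Pool.Agent.Lib.MP_e426f4_ag.RCW.Defs
import Pool.Agent.Lib.MP_e426f4_ag.RCW.AlgK

/-!
# RCW-FibK: points on nearby fibres

Proof. WLOG `rho ≤ 1`.  `δ ≤ 1/2` from `hK` with `min (rho / 8) (1 / 2)`; `MFK_lip` with `X = 2`, `a = 1`: `‖MF (A j) s' - MF (A j) s‖ ≤ C ‖s' - s‖` with a constant `C` (sum over `j`);
`eta = min 1 (δ c / (2 C + 1))`.  `MF (A j) s' = MF (A j) s * (1 + e)`, `‖e‖ < δ`, `1 + e = t^2`, `‖t - 1‖ < rho / 8`, `x' i k = x i k / t (ix i k)`.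
-/

set_option autoImplicit false

namespace RcWA

open Finset GenHP CIPHP TwHP RcHP

theorem fib_k (K : Type) [NormedField K] (hK : SqN K) {ι : Type} [Fintype ι] [DecidableEq ι]
    (n : ι → ℕ) {r : ℕ} (d : Fin (r * 3) → ι → ℕ) (rho c : ℝ) (hrho : 0 < rho) (hc : 0 < c) :
    ∃ eta : ℝ, 0 < eta ∧ eta ≤ 1 ∧ ∀ A : PSys n d K, (∀ j t, ‖A j t‖ ≤ 1) →
      ∀ (s : MVar n → K) (x : Fin r → Fin 3 → K), (∀ v, ‖s v‖ ≤ 2) → (∀ i j, ‖x i j‖ ≤ 2) →
      OnX A s x → (∀ j, c ≤ ‖MF (A j) s‖) → ∀ s' : MVar n → K, (∀ v, ‖s' v - s v‖ ≤ eta) →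
      (∀ j, c / 2 ≤ ‖MF (A j) s'‖) ∧
        ∃ x' : Fin r → Fin 3 → K, (∀ i j, ‖x' i j - x i j‖ < rho) ∧ OnX A s' x' := by
  have hr1 : 0 < min (rho / 8) (1 / 2) := lt_min (by positivity) (by norm_num)
  obtain ⟨δ0, hδ0, hsq⟩ := hK (min (rho / 8) (1 / 2)) hr1
  have hδ : 0 < min δ0 (1 / 2) := lt_min hδ0 (by norm_num)
  set δ := min δ0 (1 / 2) with hδdef
  have hδ1 : δ ≤ δ0 := min_le_left _ _
  have hδ2 : δ ≤ 1 / 2 := min_le_right _ _
  set Cj : Fin (r * 3) → ℝ := fun j =>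
    (NM n (d j) : ℝ) * (Fintype.card (MVar n) * (∑ i, d j i : ℕ) + 4 ^ (∑ i, d j i) * 2) * 1 *
      2 ^ (∑ i, d j i) with hCj
  have hCj0 : ∀ j, 0 ≤ Cj j := fun j => by
    rw [hCj]
    positivity
  set C : ℝ := ∑ j, Cj j with hC
  have hC0 : 0 ≤ C := Finset.sum_nonneg fun j _ => hCj0 j
  have hCle : ∀ j, Cj j ≤ C := fun j =>
    Finset.single_le_sum (f := Cj) (fun i _ => hCj0 i) (Finset.mem_univ j)
  have hden : 0 < 2 * C + 1 := by linarith
  have heta : 0 < min 1 (δ * c / (2 * C + 1)) := lt_min one_pos (by positivity)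
  refine ⟨min 1 (δ * c / (2 * C + 1)), heta, min_le_left _ _, ?_⟩
  set eta := min 1 (δ * c / (2 * C + 1)) with hetadef
  have heta1 : eta ≤ 1 := min_le_left _ _
  have heta2 : eta ≤ δ * c / (2 * C + 1) := min_le_right _ _
  have hCeta : C * eta ≤ δ * c / 2 := by
    have h1 : C * eta ≤ C * (δ * c / (2 * C + 1)) := mul_le_mul_of_nonneg_left heta2 hC0
    have h2 : C * (δ * c / (2 * C + 1)) ≤ δ * c / 2 := by
      rw [← mul_div_assoc, div_le_div_iff₀ hden (by norm_num)]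
      have h3 : 0 ≤ δ * c := by positivity
      nlinarith
    exact h1.trans h2
  intro A hA s x hs hx hon hlow s' hs'
  have hdiff : ∀ j, ‖MF (A j) s' - MF (A j) s‖ ≤ δ * c / 2 := by
    intro j
    have e1 : s' = fun v => s v + (s' v - s v) := by
      funext v
      ring
    have h1 := MFK_lip (A j) s (fun v => s' v - s v) 1 2 eta (by norm_num) heta.le
      (by linarith) (hA j) hs hs'
    rw [← e1] at h1
    have h2 : Cj j * eta ≤ C * eta := mul_le_mul_of_nonneg_right (hCle j) heta.le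
    exact h1.trans (h2.trans hCeta)
  have hpos : ∀ j, 0 < ‖MF (A j) s‖ := fun j => hc.trans_le (hlow j)
  have hlow' : ∀ j, c / 2 ≤ ‖MF (A j) s'‖ := by
    intro j
    have h1 := hdiff j
    have h2 := hlow j
    have h3 : ‖MF (A j) s‖ ≤ ‖MF (A j) s'‖ + ‖MF (A j) s' - MF (A j) s‖ := by
      have h4 : MF (A j) s = MF (A j) s' - (MF (A j) s' - MF (A j) s) := by ring
      calc ‖MF (A j) s‖ = ‖MF (A j) s' - (MF (A j) s' - MF (A j) s)‖ := by rw [← h4]
        _ ≤ _ := norm_sub_le _ _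
    have h5 : δ * c / 2 ≤ c / 2 := by nlinarith
    nlinarith
  have hne : ∀ j, MF (A j) s ≠ 0 := fun j => norm_pos_iff.1 (hpos j)
  have hne' : ∀ j, MF (A j) s' ≠ 0 := fun j => norm_pos_iff.1 ((half_pos hc).trans_le (hlow' j))
  have ht : ∀ j, ∃ t : K, t ^ 2 = MF (A j) s' / MF (A j) s ∧ ‖t - 1‖ < min (rho / 8) (1 / 2) := by
    intro j
    apply hsq
    have e1 : MF (A j) s' / MF (A j) s - 1 = (MF (A j) s' - MF (A j) s) / MF (A j) s := by
      rw [sub_div, div_self (hne j)]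
    rw [e1, norm_div, div_lt_iff₀ (hpos j)]
    have h1 := hdiff j
    have h2 := hlow j
    have h3 : δ * c / 2 < δ * c := by
      have : 0 < δ * c := by positivity
      linarith
    have h4 : δ * c ≤ δ0 * ‖MF (A j) s‖ :=
      mul_le_mul hδ1 h2 hc.le hδ0.le
    linarith
  choose t ht1 ht2 using ht
  have htn : ∀ j, 1 / 2 ≤ ‖t j‖ := by
    intro j
    have h1 : ‖t j - 1‖ < 1 / 2 := (ht2 j).trans_le (min_le_right _ _)
    have h2 : ‖(1 : K)‖ ≤ ‖t j‖ + ‖t j - 1‖ := by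
      have h4 : (1 : K) = t j - (t j - 1) := by ring
      calc ‖(1 : K)‖ = ‖t j - (t j - 1)‖ := by rw [← h4]
        _ ≤ _ := norm_sub_le _ _
    rw [norm_one] at h2
    linarith
  have ht0 : ∀ j, t j ≠ 0 := fun j => norm_pos_iff.1 ((by norm_num : (0 : ℝ) < 1 / 2).trans_le (htn j))
  refine ⟨hlow', fun i k => x i k / t (ix i k), ?_, ?_⟩
  · intro i k
    have e1 : x i k / t (ix i k) - x i k = x i k * (1 - t (ix i k)) / t (ix i k) := by
      field_simp [ht0 (ix i k)]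
    have h1 : ‖(1 : K) - t (ix i k)‖ < rho / 8 := by
      rw [norm_sub_rev]
      exact (ht2 _).trans_le (min_le_left _ _)
    have h2 : 0 < ‖t (ix i k)‖ := norm_pos_iff.2 (ht0 _)
    have h3 := htn (ix i k)
    have h4 := hx i k
    have h5 : ‖x i k‖ * ‖(1 : K) - t (ix i k)‖ ≤ 2 * (rho / 8) :=
      mul_le_mul h4 h1.le (norm_nonneg _) (by norm_num)
    show ‖x i k / t (ix i k) - x i k‖ < rho
    rw [e1, norm_div, norm_mul, div_lt_iff₀ h2]
    nlinarith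
  · intro i
    have h1 := hon i
    rw [← h1]
    refine Finset.sum_congr rfl fun k _ => ?_
    show MF (A (ix i k)) s' * (x i k / t (ix i k)) ^ 2 = _
    rw [div_pow, ht1]
    have := hne (ix i k)
    have := hne' (ix i k)
    field_simp

end RcWA
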