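import Pool.Agent.Lib.MP_e426f4_ag.RCW.GlobW
import Pool.Agent.Lib.MP_e426f4_ag.RCW.ClsTW

/-!
# RCW-Final: assembly (done)
-/

set_option autoImplicit false

namespace RcWA

open Finset Filter Topology GenHP CIPHP TwHP RcHP

theorem final_w {ι : Type} [Fintype ι] [DecidableEq ι] {n : ι → ℕ} {r : ℕ}
    {d : Fin (r * 3) → ι → ℕ} (hr : 1 ≤ r) (hn : ∀ i, 1 ≤ n i) (hd : ∀ j i, 1 ≤ d j i)
    (hpar : EqPar d) (i0 : ι) (w : ℕ) (rho : ℝ) (hrho : 0 < rho) (eps : ℝ) (he : 0 < eps) :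
    ∀ᶠ H : ℕ in atTop,
      (Set.ncard {A : PSys n d ℤ | A ∈ pbox n d H ∧ ELS A ∧ ¬ WAc w rho A} : ℝ) ≤
        eps * (2 * H + 1) ^ NP n d :=
  glob_w hr hn hd hpar (rcls_w n d hr hn hd i0) w rho hrho eps he

end RcWA
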