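import Pool.Agent.Lib.MP_e426f4_ag.RCW.GlobT
import Pool.Agent.Lib.MP_e426f4_ag.RCW.AlgK
import Pool.Agent.Lib.MP_e426f4_ag.RC.NearP
import Pool.Agent.Lib.MP_e426f4_ag.TW.IsoBasic

/-!
# RCW-GlobS: all types of good points

Proof. Finite union.  `M = max m (k + 3)`, `Q = primorial w ^ M`; the `p`-adic types are the residues modulo `Q`: every `U` is congruent modulo `Q` to a `U' : MVar n → Fin Q`, and `GPt p k A U ↔
GPt p k A U'` for the primes `p ≤ w` (`p^(k+3) ∣ U v - U' v`, `MF_congr_mod` in `M/Alg.lean`, `near_dvd`, `near_iso`).  Real types: the grid `{-2 + 4 a / N : 0 ≤ a ≤ N}^(MVar n)`, every `u` with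
`|u v| ≤ 2` is within `4 / N` of a grid point `u'`; by `MFK_lip` (`X = 2`, `a = 1`; `|A / H| ≤ 1` for `A ∈ pbox n d H`, `H ≥ 1`) the values of `A / H` change by at most `c / 2` (`N` large), so they keep their signs:
`GRt c (A / H) u → GRt (c / 2) (A / H) u'` (`iso_real`).  `4 / N ≤ del / 2`: `SolN w m (del / 2) (fun _ => U') u' A → SolN w m del (fun _ => U) u A`.  Apply `glob_t` with `del / 2`, `c / 2`,
`eps / (number of types)` to each type.
-/

set_option autoImplicit false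

namespace RcWA

open Finset Filter Topology GenHP CIPHP TwHP RcHP

section aux
variable {ι : Type} [Fintype ι] [DecidableEq ι] {n : ι → ℕ} {r : ℕ} {d : Fin (r * 3) → ι → ℕ}

private theorem gs_gpt (p : ℕ) [Fact p.Prime] (k : ℕ) (A : PSys n d ℤ) (U U' : MVar n → ℤ)
    (h : ∀ v, (p : ℤ) ^ (k + 3) ∣ U' v - U v) (hU : GPt p k A U) : GPt p k A U' := by
  have hM : ∀ j, (p : ℤ) ^ (k + 3) ∣ MF (A j) U' - MF (A j) U := fun j =>
    MF_congr_mod _ (A j) (A j) U' U (fun t => by rw [sub_self]; exact dvd_zero _) h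
  refine ⟨fun j => near_dvd p k _ _ (hU.1 j) (hM j), fun i => ?_⟩
  exact near_iso p k _ _ _ _ _ _ (hU.1 _) (hU.1 _) (hU.1 _) (hM _) (hM _) (hM _) (hU.2 i)

private theorem gs_grt (c Y : ℝ) (hc : 0 < c) (A : PSys n d ℝ) (hA : ∀ j t, |A j t| ≤ 1)
    (u u' : MVar n → ℝ) (hu' : ∀ v, |u' v| ≤ 2) (hY : 0 ≤ Y) (hY2 : Y ≤ 2)
    (hd : ∀ v, |u' v - u v| ≤ Y)
    (hB : ∀ j, (NM n (d j) * (Fintype.card (MVar n) * (∑ i, d j i : ℕ) + 4 ^ (∑ i, d j i) * 2) * 1 *
      2 ^ (∑ i, d j i) * Y : ℝ) ≤ c / 2) (h : GRt c A u) : GRt (c / 2) A u' := by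
  have hlip : ∀ j, |MF (A j) u' - MF (A j) u| ≤ c / 2 := by
    intro j
    have h1 := MFK_lip (A j) u (fun v => u' v - u v) 1 2 Y (by norm_num) hY hY2
      (fun t => by rw [Real.norm_eq_abs]; exact hA j t)
      (fun v => by rw [Real.norm_eq_abs]; exact h.1 v)
      (fun v => by rw [Real.norm_eq_abs]; exact hd v)
    have e : (fun v => u v + (u' v - u v)) = u' := by
      funext v
      ring
    rw [e, Real.norm_eq_abs] at h1
    exact h1.trans (hB j)
  have hpos : ∀ j, 0 < MF (A j) u * MF (A j) u' := by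
    intro j
    have h1 := hlip j
    have h2 := h.2.1 j
    rw [abs_le] at h1
    rcases le_abs.1 h2 with h3 | h3
    · have h4 : 0 < MF (A j) u := by linarith
      have h5 : 0 < MF (A j) u' := by linarith [h1.1]
      exact mul_pos h4 h5
    · have h4 : MF (A j) u < 0 := by linarith
      have h5 : MF (A j) u' < 0 := by linarith [h1.2]
      exact mul_pos_of_neg_of_neg h4 h5
  refine ⟨hu', fun j => ?_, fun i => ?_⟩
  · have h1 := hlip j
    have h2 := h.2.1 j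
    have h3 : |MF (A j) u| ≤ |MF (A j) u'| + |MF (A j) u' - MF (A j) u| := by
      have := abs_sub_abs_le_abs_sub (MF (A j) u) (MF (A j) u')
      rw [abs_sub_comm (MF (A j) u) (MF (A j) u')] at this
      linarith
    linarith
  · exact iso_real _ _ _ _ _ _ (hpos _) (hpos _) (hpos _) (h.2.2 i)

private theorem gs_sol (w m : ℕ) (del : ℝ) (U U' : MVar n → ℤ) (u u' : MVar n → ℝ)
    (A : PSys n d ℤ) (hU : ∀ p : ℕ, p.Prime → p ≤ w → ∀ v, (p : ℤ) ^ m ∣ U' v - U v)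
    (hu : ∀ v, |u' v - u v| ≤ del / 2) (h : SolN w m (del / 2) (fun _ => U') u' A) :
    SolN w m del (fun _ => U) u A := by
  obtain ⟨z, T, hT, hF, hp, hz⟩ := h
  refine ⟨z, T, hT, hF, fun p h1 h2 v => ?_, fun v => ?_⟩
  · have e : z v - U v = (z v - U' v) + (U' v - U v) := by ring
    rw [e]
    exact dvd_add (hp p h1 h2 v) (hU p h1 h2 v)
  · have h1 := hz v
    have h2 := hu v
    have h3 := hT v.1
    have e : (z v : ℝ) - T v.1 * u v = ((z v : ℝ) - T v.1 * u' v) + T v.1 * (u' v - u v) := by ring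
    rw [e]
    refine (abs_add_le _ _).trans ?_
    rw [abs_mul, abs_of_pos h3]
    have h4 : T v.1 * |u' v - u v| ≤ T v.1 * (del / 2) := mul_le_mul_of_nonneg_left h2 h3.le
    linarith

/-- a grid point -/
private theorem gs_grid (N : ℕ) (hN : 1 ≤ N) (x : ℝ) (hx : |x| ≤ 2) :
    ∃ g : Fin (N + 1), |(-2 + 4 * ((g : ℕ) : ℝ) / N)| ≤ 2 ∧
      |(-2 + 4 * ((g : ℕ) : ℝ) / N) - x| ≤ 4 / N := by
  have hNR : (0 : ℝ) < N := by exact_mod_cast hN
  rw [abs_le] at hx
  obtain ⟨h1, h2⟩ := hx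
  have h0 : 0 ≤ (x + 2) * N / 4 := by
    have : 0 ≤ x + 2 := by linarith
    positivity
  have hf1 := Nat.floor_le h0
  have hf2 := Nat.lt_floor_add_one ((x + 2) * N / 4)
  have hfN : ⌊(x + 2) * N / 4⌋₊ < N + 1 := by
    have : (⌊(x + 2) * N / 4⌋₊ : ℝ) ≤ N := by
      refine hf1.trans ?_
      nlinarith
    have h3 : ⌊(x + 2) * N / 4⌋₊ ≤ N := by exact_mod_cast this
    omega
  refine ⟨⟨⌊(x + 2) * N / 4⌋₊, hfN⟩, ?_, ?_⟩
  · simp only
    set g : ℝ := ((⌊(x + 2) * N / 4⌋₊ : ℕ) : ℝ) with hg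
    have hg0 : 0 ≤ g := Nat.cast_nonneg _
    have h3 : 0 ≤ 4 * g / N := by positivity
    have h4 : 4 * g / N ≤ x + 2 := by
      rw [div_le_iff₀ hNR]
      linarith
    rw [abs_le]
    constructor <;> linarith
  · simp only
    set g : ℝ := ((⌊(x + 2) * N / 4⌋₊ : ℕ) : ℝ) with hg
    have h4 : 4 * g / N ≤ x + 2 := by
      rw [div_le_iff₀ hNR]
      linarith
    have h5 : x + 2 ≤ 4 * g / N + 4 / N := by
      rw [← add_div, le_div_iff₀ hNR]
      linarith
    have h6 : (0 : ℝ) ≤ 4 / N := by positivity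
    rw [abs_le]
    constructor <;> linarith

end aux

theorem glob_s {ι : Type} [Fintype ι] [DecidableEq ι] {n : ι → ℕ} {r : ℕ}
    {d : Fin (r * 3) → ι → ℕ} (hr : 1 ≤ r) (hd : ∀ j i, 1 ≤ d j i) (hpar : EqPar d)
    (hcls : RCLSW n d) (w m k : ℕ) (del c : ℝ) (hdel : 0 < del) (hc : 0 < c) (hc1 : c ≤ 1)
    (eps : ℝ) (he : 0 < eps) : ∀ᶠ H : ℕ in atTop,
    (Set.ncard {A : PSys n d ℤ | A ∈ pbox n d H ∧ ELS A ∧ ¬ SolAll w m k del c H A} : ℝ) ≤
      eps * (2 * H + 1) ^ NP n d := by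
  classical
  -- the moduli
  obtain ⟨M, hM⟩ : ∃ M : ℕ, M = max m (k + 3) := ⟨_, rfl⟩
  obtain ⟨Q, hQ⟩ : ∃ Q : ℕ, Q = primorial w ^ M := ⟨_, rfl⟩
  have hQpos : 0 < Q := by
    rw [hQ]
    exact pow_pos (primorial_pos w) _
  have hpQ : ∀ (p e : ℕ), p.Prime → p ≤ w → e ≤ M → (p : ℤ) ^ e ∣ (Q : ℤ) := by
    intro p e hp hpw heM
    have h1 : p ∣ primorial w := by
      unfold primorial
      exact Finset.dvd_prod_of_mem _
        (Finset.mem_filter.mpr ⟨Finset.mem_range.mpr (by omega), hp⟩)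
    have h2 : p ^ e ∣ Q := by
      rw [hQ]
      exact (pow_dvd_pow p heM).trans (pow_dvd_pow_of_dvd h1 M)
    exact_mod_cast h2
  -- the grid
  obtain ⟨Bd, hBd⟩ : ∃ Bd : Fin (r * 3) → ℝ, Bd = fun j => (NM n (d j) *
    (Fintype.card (MVar n) * (∑ i, d j i : ℕ) + 4 ^ (∑ i, d j i) * 2) * 1 *
      2 ^ (∑ i, d j i) : ℝ) := ⟨_, rfl⟩
  have hBd0 : ∀ j, 0 ≤ Bd j := fun j => by
    rw [hBd]
    positivity
  obtain ⟨N, hN⟩ : ∃ N : ℕ, (∑ j, Bd j + 1) * 8 / c + 8 / del + 2 ≤ (N : ℝ) := exists_nat_ge _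
  have hS0 : 0 ≤ ∑ j, Bd j := Finset.sum_nonneg fun j _ => hBd0 j
  have hN2 : (2 : ℝ) ≤ N := by
    have h1 : 0 ≤ (∑ j, Bd j + 1) * 8 / c := by positivity
    have h2 : 0 ≤ 8 / del := by positivity
    linarith
  have hN1 : 1 ≤ N := by
    have : (1 : ℝ) ≤ N := by linarith
    exact_mod_cast this
  have hNR : (0 : ℝ) < N := by linarith
  have hY2 : (4 : ℝ) / N ≤ 2 := by
    rw [div_le_iff₀ hNR]
    linarith
  have hYdel : (4 : ℝ) / N ≤ del / 2 := by
    rw [div_le_iff₀ hNR]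
    have h1 : 0 ≤ (∑ j, Bd j + 1) * 8 / c := by positivity
    have h2 : 8 / del ≤ N := by linarith
    rw [div_le_iff₀ hdel] at h2
    linarith
  have hYB : ∀ j, Bd j * (4 / N) ≤ c / 2 := by
    intro j
    have h0 : Bd j ≤ ∑ j, Bd j := Finset.single_le_sum (fun j _ => hBd0 j) (Finset.mem_univ j)
    have h1 : (∑ j, Bd j + 1) * 8 / c ≤ N := by
      have h2 : 0 ≤ 8 / del := by positivity
      linarith
    rw [div_le_iff₀ hc] at h1
    rw [mul_div_assoc', div_le_iff₀ hNR]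
    nlinarith
  -- the types
  let Ty : Type := (MVar n → Fin Q) × (MVar n → Fin (N + 1))
  let UT : Ty → MVar n → ℤ := fun τ v => ((τ.1 v : ℕ) : ℤ)
  let uT : Ty → MVar n → ℝ := fun τ v => -2 + 4 * ((τ.2 v : ℕ) : ℝ) / N
  let TT : ℕ → Ty → Set (PSys n d ℤ) := fun H τ => {A : PSys n d ℤ | A ∈ pbox n d H ∧ ELS A ∧
      (∀ (p : ℕ) [Fact p.Prime], p ≤ w → GPt p k A (UT τ)) ∧
      GRt (c / 2) (fun j t => (A j t : ℝ) / H) (uT τ) ∧
      ¬ SolN w m (del / 2) (fun _ => UT τ) (uT τ) A}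
  haveI : NeZero Q := ⟨hQpos.ne'⟩
  have hTy : 0 < Fintype.card Ty := by
    rw [Fintype.card_pos_iff]
    exact ⟨(fun _ => 0, fun _ => 0)⟩
  have hTyR : (0 : ℝ) < Fintype.card Ty := by exact_mod_cast hTy
  have hev : ∀ᶠ H : ℕ in atTop, ∀ τ : Ty,
      (Set.ncard (TT H τ) : ℝ) ≤ eps / Fintype.card Ty * (2 * H + 1) ^ NP n d := by
    rw [eventually_all]
    intro τ
    exact glob_t hr hd hpar hcls w m k (del / 2) (c / 2) (by linarith) (by linarith)
      (by linarith) (UT τ) (uT τ) (eps / Fintype.card Ty) (by positivity)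
  filter_upwards [hev, eventually_ge_atTop 1] with H hH hH1
  have hHR : (1 : ℝ) ≤ H := by exact_mod_cast hH1
  have hfin : (pbox n d H).Finite := by
    refine (Set.Finite.pi' fun j => Set.Finite.pi' fun t => Set.finite_Icc (-(H : ℤ)) H).subset ?_
    intro A hA j t
    have := hA j t
    rw [abs_le] at this
    exact this
  have hfinT : ∀ τ, (TT H τ).Finite := fun τ => hfin.subset fun A hA => hA.1
  have hsub : {A : PSys n d ℤ | A ∈ pbox n d H ∧ ELS A ∧ ¬ SolAll w m k del c H A} ⊆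
      ⋃ τ ∈ (Finset.univ : Finset Ty), TT H τ := by
    rintro A ⟨hA1, hA2, hA3⟩
    unfold SolAll at hA3
    push Not at hA3
    obtain ⟨U, u, hU, hu, hS⟩ := hA3
    have hgr := fun v => gs_grid N hN1 (u v) (hu.1 v)
    choose g hg1 hg2 using hgr
    have hres : ∀ v, ∃ a : Fin Q, (Q : ℤ) ∣ ((a : ℕ) : ℤ) - U v := by
      intro v
      have hQz : (0 : ℤ) < Q := by exact_mod_cast hQpos
      have h0 := Int.emod_nonneg (U v) hQz.ne'
      have h1 := Int.emod_lt_of_pos (U v) hQz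
      refine ⟨⟨(U v % Q).toNat, ?_⟩, ?_⟩
      · have : ((U v % Q).toNat : ℤ) < Q := by
          rw [Int.toNat_of_nonneg h0]
          exact h1
        exact_mod_cast this
      · simp only
        rw [Int.toNat_of_nonneg h0]
        have h3 : (Q : ℤ) ∣ U v - U v % Q := Int.dvd_self_sub_emod
        have h4 := (dvd_neg).2 h3
        rwa [neg_sub] at h4
    choose a ha using hres
    simp only [Set.mem_iUnion]
    refine ⟨(a, g), Finset.mem_univ _, hA1, hA2, fun p hp hpw => ?_, ?_, ?_⟩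
    · refine gs_gpt p k A U _ (fun v => ?_) (hU p hpw)
      exact (hpQ p (k + 3) hp.out hpw (by omega)).trans (ha v)
    · refine gs_grt c (4 / N) hc _ (fun j t => ?_) u _ hg1 (by positivity) hY2 hg2 (fun j => ?_) hu
      · rw [abs_div, abs_of_pos (by linarith : (0 : ℝ) < H), div_le_one (by linarith)]
        have := hA1 j t
        exact_mod_cast this
      · have := hYB j
        rw [hBd] at this
        exact this
    · intro hS'
      refine hS (gs_sol w m del U _ u _ A (fun p hp hpw v => ?_) (fun v => ?_) hS')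
      · exact (hpQ p m hp hpw (by omega)).trans (ha v)
      · exact (hg2 v).trans hYdel
  calc (Set.ncard {A : PSys n d ℤ | A ∈ pbox n d H ∧ ELS A ∧ ¬ SolAll w m k del c H A} : ℝ)
      ≤ (Set.ncard (⋃ τ ∈ (Finset.univ : Finset Ty), TT H τ) : ℝ) := by
        have h1 : (⋃ τ ∈ (Finset.univ : Finset Ty), TT H τ).Finite :=
          Set.Finite.biUnion (Finset.finite_toSet _) fun τ _ => hfinT τ
        exact_mod_cast Set.ncard_le_ncard hsub h1
    _ ≤ ∑ τ : Ty, (Set.ncard (TT H τ) : ℝ) := by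
        have h1 := Finset.set_ncard_biUnion_le (Finset.univ : Finset Ty) (TT H)
        exact_mod_cast h1
    _ ≤ ∑ _τ : Ty, eps / Fintype.card Ty * (2 * H + 1) ^ NP n d :=
        Finset.sum_le_sum fun τ _ => hH τ
    _ = eps * (2 * H + 1) ^ NP n d := by
        rw [Finset.sum_const, Finset.card_univ, nsmul_eq_mul]
        field_simp

end RcWA
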