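import Pool.Agent.Lib.MP_e426f4_ag.RCW.Defs
import Pool.Agent.Lib.MP_e426f4_ag.RC.ExP
import Pool.Agent.Lib.MP_e426f4_ag.RC.PertP
import Pool.Agent.Lib.MP_e426f4_ag.RC.IntP

/-!
# RCW-GlobT: from classes to all systems, one type of good points

Proof. Port of `RC/Glob.lean` (copy the private lemmas).  `(U, u)` is fixed.  `C` from `RCLSW`; `w' = max w (max 2 w0)` with `C / w' ≤ eps / 4`; `rho0` from `RCLSW` for `w'`, `c`, `del`; `R` with
`1 / R ≤ rho0`; for the primes `w < p ≤ w'`: `κ p` from `ex_p` with `eps / (4 (w' + 1))`; `k' = 1 + m + k + ∑_p 2 (r * 3 * κ p + 9)`; `Q = primorial w' ^ (k' + 3)`.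
Witness of a cell `a` and a class `b`: `H ≥ 1`, `A ∈ pbox n d H` in the cell and in the class with `GRt c (A / H) u` and `UU : ℕ → MVar n → ℤ` with `UU p = U` for `p ≤ w` and
`GPt p k' A (UU p)` for all primes `p ≤ w'`.  `RCLSW` (`A0 = A`, `U = UU`, `AC = pzC R a`, `Ainf = A / H`, `rho = 1 / R`) bounds `¬ SolN w' k' del UU u` in the class, and
`SolN w' k' del UU u A' → SolN w m del (fun _ => U) u A'` (`m ≤ k'`).  For `A` in our set and not in the exceptional sets `ExcP p (κ p)`, `w < p ≤ w'`: `int_p`, `pert_p`, `good_mono` give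
`UU p` for `w < p ≤ w'`; for `p ≤ w`: `GPt p k A U`, so `GPt p k' A U` (`k ≤ k'`).  So `A` is in the bad set of a class with a witness (itself).  No real exceptional set is needed.
-/

set_option autoImplicit false

namespace RcWA

open Finset Filter Topology GenHP CIPHP TwHP RcHP

section multi
variable {ι : Type} [Fintype ι] [DecidableEq ι] {n : ι → ℕ} {r : ℕ} {d : Fin (r * 3) → ι → ℕ}

/-- the centre of the cell `a` -/
private noncomputable def pzC (R : ℕ) (a : PSys n d (Fin R)) : PSys n d ℝ :=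
  fun j m => -1 + (2 * (a j m : ℝ) + 1) / R

/-- the bad systems of a class -/
private def pzS (w m : ℕ) (del : ℝ) (U : MVar n → ℤ) (u : MVar n → ℝ) (R Q : ℕ)
    (a : PSys n d (Fin R)) (b : PSys n d (Fin Q)) (H : ℕ) : Set (PSys n d ℤ) :=
  {A | (∀ j m, |(A j m : ℝ) - H * pzC R a j m| ≤ 1 / R * H) ∧
    (∀ j m, (Q : ℤ) ∣ A j m - (b j m : ℤ)) ∧ ¬ SolN w m del (fun _ => U) u A}

/-- the class has a witness -/
private def pzW (w w' k R Q : ℕ) (c : ℝ) (U : MVar n → ℤ) (u : MVar n → ℝ)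
    (a : PSys n d (Fin R)) (b : PSys n d (Fin Q)) : Prop :=
  ∃ (H : ℕ) (A : PSys n d ℤ) (UU : ℕ → MVar n → ℤ), 1 ≤ H ∧ A ∈ pbox n d H ∧
    (∀ j m, |(A j m : ℝ) - H * pzC R a j m| ≤ 1 / R * H) ∧
    (∀ j m, (Q : ℤ) ∣ A j m - (b j m : ℤ)) ∧
    GRt c (fun j t => (A j t : ℝ) / H) u ∧ (∀ p, p ≤ w → UU p = U) ∧
    (∀ (p : ℕ) [Fact p.Prime], p ≤ w' → GPt p k A (UU p))

private theorem pz_cell (H R : ℕ) (hH : 1 ≤ H) (hR : 1 ≤ R) (z : ℝ) (hz : |z| ≤ H) :
    ∃ a : Fin R, |z - H * (-1 + (2 * (a : ℝ) + 1) / R)| ≤ 1 / R * H := by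
  have hH0 : (0 : ℝ) < H := by exact_mod_cast hH
  have hR0 : (0 : ℝ) < R := by exact_mod_cast hR
  rw [abs_le] at hz
  set t : ℝ := (z / H + 1) * R / 2 with ht
  have ht0 : 0 ≤ t := by
    have : -1 ≤ z / H := by rw [le_div_iff₀ hH0]; linarith
    rw [ht]
    have : 0 ≤ z / H + 1 := by linarith
    positivity
  have ht1 : t ≤ R := by
    have h1 : z / H ≤ 1 := by rw [div_le_iff₀ hH0]; linarith
    rw [ht]
    nlinarith
  have hkey : ∀ a : ℝ, |t - (a + 1 / 2)| ≤ 1 / 2 → |z - H * (-1 + (2 * a + 1) / R)| ≤ 1 / R * H := by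
    intro a ha
    have e : z - H * (-1 + (2 * a + 1) / R) = (2 * H / R) * (t - (a + 1 / 2)) := by
      rw [ht]
      field_simp
      ring
    rw [e, abs_mul, abs_of_pos (by positivity : 0 < 2 * (H : ℝ) / R)]
    calc 2 * (H : ℝ) / R * |t - (a + 1 / 2)| ≤ 2 * (H : ℝ) / R * (1 / 2) :=
          mul_le_mul_of_nonneg_left ha (by positivity)
      _ = 1 / R * H := by ring
  rcases lt_or_ge t R with hlt | hge
  · refine ⟨⟨⌊t⌋₊, (Nat.floor_lt ht0).mpr hlt⟩, hkey _ ?_⟩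
    have h1 := Nat.floor_le ht0
    have h2 := Nat.lt_floor_add_one t
    simp only
    rw [abs_le]
    constructor <;> linarith
  · have htR : t = R := le_antisymm ht1 hge
    refine ⟨⟨R - 1, by omega⟩, hkey _ ?_⟩
    simp only
    rw [Nat.cast_sub hR, htR, abs_le]
    push_cast
    constructor <;> linarith

private theorem pz_finite_of_abs_le (S : Set (PSys n d ℤ)) (C : ℝ)
    (h : ∀ A ∈ S, ∀ j m, |(A j m : ℝ)| ≤ C) : S.Finite := by
  refine (Set.Finite.pi' (fun j : Fin (r * 3) =>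
    GenHP.finite_of_abs_le {a : MIdx n (d j) → ℤ | ∀ m, |(a m : ℝ)| ≤ C} C
      fun a ha m => ha m)).subset ?_
  intro A hA j
  exact h A hA j

private theorem pz_cell_finite (R : ℕ) (a : PSys n d (Fin R)) (H : ℕ) :
    {A : PSys n d ℤ | ∀ j m, |(A j m : ℝ) - H * pzC R a j m| ≤ 1 / R * H}.Finite := by
  refine pz_finite_of_abs_le _ (∑ i, ∑ m, |(H : ℝ) * pzC R a i m| + 1 / R * H) ?_
  intro A hA i m
  have h1 := hA i m
  have h2 : |(H : ℝ) * pzC R a i m| ≤ ∑ i, ∑ m, |(H : ℝ) * pzC R a i m| := by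
    refine le_trans ?_ (Finset.single_le_sum (f := fun i => ∑ m, |(H : ℝ) * pzC R a i m|)
      (fun _ _ => Finset.sum_nonneg fun _ _ => abs_nonneg _) (Finset.mem_univ i))
    exact Finset.single_le_sum (f := fun m => |(H : ℝ) * pzC R a i m|) (fun _ _ => abs_nonneg _)
      (Finset.mem_univ m)
  calc |(A i m : ℝ)| = |H * pzC R a i m + ((A i m : ℝ) - H * pzC R a i m)| := by ring_nf
    _ ≤ |(H : ℝ) * pzC R a i m| + |(A i m : ℝ) - H * pzC R a i m| := abs_add_le _ _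
    _ ≤ _ := add_le_add h2 h1

private theorem pz_S_finite (w m : ℕ) (del : ℝ) (U : MVar n → ℤ) (u : MVar n → ℝ) (R Q : ℕ)
    (a : PSys n d (Fin R)) (b : PSys n d (Fin Q)) (H : ℕ) :
    (pzS w m del U u R Q a b H).Finite :=
  (pz_cell_finite R a H).subset fun _ hA => hA.1

/-- a point near `UU` at the primes `≤ w'` is a point near `U` at the primes `≤ w` -/
private theorem pz_mono (w w' m k : ℕ) (hw : w ≤ w') (hmk : m ≤ k) (del : ℝ) (U : MVar n → ℤ)
    (UU : ℕ → MVar n → ℤ) (hU : ∀ p, p ≤ w → UU p = U) (u : MVar n → ℝ) (A : PSys n d ℤ)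
    (h : SolN w' k del UU u A) : SolN w m del (fun _ => U) u A := by
  obtain ⟨z, T, hT, hz, hp, hr⟩ := h
  refine ⟨z, T, hT, hz, fun p hp1 hpw v => ?_, hr⟩
  have h1 := hp p hp1 (hpw.trans hw) v
  rw [hU p hpw] at h1
  exact (pow_dvd_pow _ hmk).trans h1

private theorem pz_class (C : ℝ) (w w' m k R : ℕ) (hww : w ≤ w') (hmk : m ≤ k) (hk : 1 ≤ k)
    (hR : 1 ≤ R) (c del : ℝ) (U : MVar n → ℤ) (u : MVar n → ℝ) (rho0 : ℝ)
    (hcl : ∀ rho : ℝ, 0 < rho → rho ≤ rho0 → ∀ k : ℕ, 1 ≤ k →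
      ∀ (A0 : PSys n d ℤ) (U : ℕ → MVar n → ℤ),
      (∀ (p : ℕ) [Fact p.Prime], p ≤ w' → GPt p k A0 (U p)) →
      ∀ (AC Ainf : PSys n d ℝ) (u : MVar n → ℝ), (∀ j t, |Ainf j t| ≤ 1) →
      (∀ j t, |AC j t - Ainf j t| ≤ rho) → GRt c Ainf u →
      ∀ᶠ H : ℝ in atTop,
        (Set.ncard {A : PSys n d ℤ | (∀ j t, |(A j t : ℝ) - H * AC j t| ≤ rho * H) ∧
          (∀ j t, ((primorial w' : ℤ) ^ (k + 3)) ∣ A j t - A0 j t) ∧
            ¬ SolN w' k del U u A} : ℝ) ≤
          C / w' * (2 * rho * H / (primorial w' : ℝ) ^ (k + 3)) ^ NP n d)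
    (hrho : (1 : ℝ) / R ≤ rho0) (a : PSys n d (Fin R))
    (b : PSys n d (Fin (primorial w' ^ (k + 3))))
    (hW : pzW w w' k R (primorial w' ^ (k + 3)) c U u a b) :
    ∀ᶠ H : ℕ in atTop, ((pzS w m del U u R (primorial w' ^ (k + 3)) a b H).ncard : ℝ) ≤
      C / w' * (2 * (1 / R) * H / (primorial w' : ℝ) ^ (k + 3)) ^ NP n d := by
  obtain ⟨H0, A, UU, hH0, hbox, hcell, hres, hgR, hUU, hp⟩ := hW
  have hR0 : (0 : ℝ) < R := by exact_mod_cast hR
  have hH0' : (0 : ℝ) < H0 := by exact_mod_cast hH0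
  have h := hcl (1 / R) (by positivity) hrho k hk A UU hp (pzC R a)
    (fun j t => (A j t : ℝ) / H0) u ?_ ?_ hgR
  · refine (tendsto_natCast_atTop_atTop.eventually h).mono fun H hH => ?_
    refine le_trans ?_ hH
    have hfin : {A' : PSys n d ℤ | (∀ i m, |(A' i m : ℝ) - (H : ℝ) * pzC R a i m| ≤ 1 / R * (H : ℝ)) ∧
          (∀ i m, ((primorial w' : ℤ) ^ (k + 3)) ∣ A' i m - A i m) ∧
            ¬ SolN w' k del UU u A'}.Finite := by
      refine (pz_cell_finite R a H).subset ?_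
      intro A' hA'
      exact hA'.1
    have hsub : pzS w m del U u R (primorial w' ^ (k + 3)) a b H ⊆
        {A' : PSys n d ℤ | (∀ i m, |(A' i m : ℝ) - (H : ℝ) * pzC R a i m| ≤ 1 / R * (H : ℝ)) ∧
          (∀ i m, ((primorial w' : ℤ) ^ (k + 3)) ∣ A' i m - A i m) ∧
            ¬ SolN w' k del UU u A'} := by
      intro A' hA'
      obtain ⟨g1, g2, g3⟩ := hA'
      refine ⟨g1, fun i m => ?_, fun hs => g3 (pz_mono w w' m k hww hmk del U UU hUU u A' hs)⟩
      have h1 := hres i m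
      have h2 := g2 i m
      push_cast at h1 h2 ⊢
      have := dvd_sub h2 h1
      simpa using this
    exact_mod_cast Set.ncard_le_ncard hsub hfin
  · intro i m
    have h1 : |A i m| ≤ H0 := hbox i m
    have h2 : |(A i m : ℝ)| ≤ H0 := by exact_mod_cast h1
    rw [abs_div, abs_of_pos hH0', div_le_one hH0']
    exact h2
  · intro i m
    have h1 := hcell i m
    have e1 : pzC R a i m - (A i m : ℝ) / H0 =
        -((H0 : ℝ)⁻¹ * ((A i m : ℝ) - H0 * pzC R a i m)) := by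
      field_simp
      ring
    rw [e1, abs_neg, abs_mul, abs_inv, abs_of_pos hH0', inv_mul_le_iff₀ hH0']
    linarith

end multi

theorem glob_t {ι : Type} [Fintype ι] [DecidableEq ι] {n : ι → ℕ} {r : ℕ}
    {d : Fin (r * 3) → ι → ℕ} (hr : 1 ≤ r) (hd : ∀ j i, 1 ≤ d j i) (hpar : EqPar d)
    (hcls : RCLSW n d) (w m k : ℕ) (del c : ℝ) (hdel : 0 < del) (hc : 0 < c) (hc1 : c ≤ 1)
    (U : MVar n → ℤ) (u : MVar n → ℝ) (eps : ℝ) (he : 0 < eps) : ∀ᶠ H : ℕ in atTop,
    (Set.ncard {A : PSys n d ℤ | A ∈ pbox n d H ∧ ELS A ∧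
      (∀ (p : ℕ) [Fact p.Prime], p ≤ w → GPt p k A U) ∧ GRt c (fun j t => (A j t : ℝ) / H) u ∧
      ¬ SolN w m del (fun _ => U) u A} : ℝ) ≤ eps * (2 * H + 1) ^ NP n d := by
  classical
  obtain ⟨C, hC, hcls⟩ := hcls
  -- w
  obtain ⟨w0, hw0⟩ := exists_nat_gt (4 * C / eps)
  set w' : ℕ := max w (max 2 w0) with hw
  have hww : w ≤ w' := le_max_left _ _
  have hw2 : 2 ≤ w' := (le_max_left 2 w0).trans (le_max_right _ _)
  have hwpos : (0 : ℝ) < w' := by
    have : 0 < w' := by omega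
    exact_mod_cast this
  have hwC : C / (w' : ℝ) ≤ eps / 4 := by
    have h1 : (w0 : ℝ) ≤ w' := by exact_mod_cast (le_max_right 2 w0).trans (le_max_right w _)
    have h2 : 4 * C / eps ≤ w' := by linarith
    rw [div_le_iff₀ he] at h2
    rw [div_le_iff₀ hwpos]
    linarith
  obtain ⟨rho0, hrho0, hrho01, hcl⟩ := hcls w' hw2 c hc hc1 del hdel
  -- R
  obtain ⟨R, hR, hRrho⟩ : ∃ R : ℕ, 1 ≤ R ∧ (1 : ℝ) / R ≤ rho0 := by
    obtain ⟨m, hm⟩ := exists_nat_one_div_lt hrho0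
    refine ⟨m + 1, by omega, ?_⟩
    push_cast
    exact hm.le
  have hR0 : (0 : ℝ) < R := by exact_mod_cast hR
  -- k
  set Pr : Finset ℕ := (Finset.range (w' + 1)).filter Nat.Prime with hPr
  have hpad : ∀ p : ℕ, ∃ κ : ℕ, p ∈ Pr → 1 ≤ κ ∧ ∀ᶠ H : ℕ in atTop,
      (Set.ncard {A : PSys n d ℤ | A ∈ pbox n d H ∧ ExcP p κ A} : ℝ) ≤
        eps / (4 * (w' + 1)) * (2 * H + 1) ^ NP n d := by
    intro p
    by_cases hp : p ∈ Pr
    · obtain ⟨κ, hκ⟩ := ex_p (n := n) d hd p (Finset.mem_filter.mp hp).2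
        (eps / (4 * (w' + 1))) (by positivity)
      exact ⟨κ, fun _ => hκ⟩
    · exact ⟨0, fun h => absurd h hp⟩
  choose κ hκ using hpad
  set k' : ℕ := 1 + m + k + ∑ p ∈ Pr, 2 * (r * 3 * κ p + 9) with hk
  have hk1 : 1 ≤ k' := by omega
  have hmk : m ≤ k' := by omega
  have hkk : k ≤ k' := by omega
  have hkp : ∀ p ∈ Pr, 2 * (r * 3 * κ p + 9) ≤ k' := by
    intro p hp
    have := Finset.single_le_sum (f := fun p => 2 * (r * 3 * κ p + 9))
      (fun _ _ => Nat.zero_le _) hp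
    omega
  set Q : ℕ := primorial w' ^ (k' + 3) with hQ
  have hQpos : 0 < Q := pow_pos (primorial_pos w') _
  have hQ0 : (0 : ℝ) < Q := by exact_mod_cast hQpos
  have hQcast : (primorial w' : ℝ) ^ (k' + 3) = Q := by rw [hQ]; push_cast; rfl
  -- eventual bounds
  have h1 : ∀ᶠ H : ℕ in atTop, ∀ ab : PSys n d (Fin R) × PSys n d (Fin Q),
      pzW w w' k' R Q c U u ab.1 ab.2 →
      ((pzS w m del U u R Q ab.1 ab.2 H).ncard : ℝ) ≤ C / w' * (2 * (1 / R) * H / Q) ^ NP n d := by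
    rw [Filter.eventually_all]
    intro ab
    by_cases hW : pzW w w' k' R Q c U u ab.1 ab.2
    · have := pz_class C w w' m k' R hww hmk hk1 hR c del U u rho0 hcl hRrho ab.1 ab.2 hW
      rw [hQcast] at this
      exact this.mono fun H hH _ => hH
    · exact Filter.Eventually.of_forall fun H h => absurd h hW
  have h3 : ∀ᶠ H : ℕ in atTop, ∀ p ∈ Pr,
      (Set.ncard {A : PSys n d ℤ | A ∈ pbox n d H ∧ ExcP p (κ p) A} : ℝ) ≤
        eps / (4 * (w' + 1)) * (2 * H + 1) ^ NP n d := by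
    rw [Filter.eventually_all_finset]
    intro p hp
    exact (hκ p hp).2
  filter_upwards [h1, h3, Filter.eventually_ge_atTop 1] with H h1 h3 hH
  have hbfin : (pbox n d H).Finite := by
    refine pz_finite_of_abs_le _ H fun A hA j m => ?_
    have := hA j m
    exact_mod_cast this
  have hbm : ∀ A, A ∈ hbfin.toFinset ↔ A ∈ pbox n d H := fun A => Set.Finite.mem_toFinset _
  -- the finsets
  set E : Finset (PSys n d ℤ) := hbfin.toFinset.filter (fun A => ELS A ∧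
      (∀ (p : ℕ) [Fact p.Prime], p ≤ w → GPt p k A U) ∧ GRt c (fun j t => (A j t : ℝ) / H) u ∧
      ¬ SolN w m del (fun _ => U) u A) with hE
  set EP : ℕ → Finset (PSys n d ℤ) := fun p => hbfin.toFinset.filter (fun A =>
      ExcP p (κ p) A) with hEP
  set GW : Finset (PSys n d (Fin R) × PSys n d (Fin Q)) :=
    Finset.univ.filter (fun ab => pzW w w' k' R Q c U u ab.1 ab.2) with hGW
  have hfin : ∀ ab : PSys n d (Fin R) × PSys n d (Fin Q), (pzS w m del U u R Q ab.1 ab.2 H).Finite :=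
    fun ab => pz_S_finite w m del U u R Q ab.1 ab.2 H
  have hsub : E ⊆ (GW.biUnion fun ab => (hfin ab).toFinset) ∪ (Pr.biUnion EP) := by
    intro A hA
    rw [hE, Finset.mem_filter, hbm] at hA
    obtain ⟨hAbox, ⟨-, hpad0⟩, hgP, hgR, hns⟩ := hA
    by_cases hpp : ∃ p ∈ Pr, A ∈ EP p
    · exact Finset.mem_union_right _ (Finset.mem_biUnion.mpr hpp)
    refine Finset.mem_union_left _ ?_
    -- the cell
    have hAabs : ∀ i m, |(A i m : ℝ)| ≤ H := fun i m => by
      have := hAbox i m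
      exact_mod_cast this
    choose a ha using fun i m => pz_cell H R hH hR (A i m : ℝ) (hAabs i m)
    have hbex : ∀ i m, ∃ b : Fin Q, (Q : ℤ) ∣ A i m - (b : ℤ) := by
      intro i m
      have hQz : (0 : ℤ) < Q := by exact_mod_cast hQpos
      have h0 : 0 ≤ A i m % Q := Int.emod_nonneg _ hQz.ne'
      have h1 : A i m % Q < Q := Int.emod_lt_of_pos _ hQz
      refine ⟨⟨(A i m % Q).toNat, by omega⟩, ?_⟩
      simp only
      rw [Int.toNat_of_nonneg h0]
      exact Int.dvd_self_sub_emod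
    choose b hb' using hbex
    refine Finset.mem_biUnion.mpr ⟨(a, b), ?_, ?_⟩
    · rw [hGW, Finset.mem_filter]
      have hex : ∀ p : ℕ, ∃ V : MVar n → ℤ, (p ≤ w → V = U) ∧
          ∀ [Fact p.Prime], p ≤ w' → GPt p k' A V := by
        intro p
        by_cases hpw : p ≤ w
        · refine ⟨U, fun _ => rfl, fun {hp} _ => ?_⟩
          obtain ⟨g1, g2⟩ := hgP p hpw
          exact ⟨fun j hj => g1 j ((pow_dvd_pow _ hkk).trans hj), g2⟩
        by_cases hpp' : p.Prime ∧ p ≤ w'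
        · haveI : Fact p.Prime := ⟨hpp'.1⟩
          have hpPr : p ∈ Pr := by
            rw [hPr, Finset.mem_filter, Finset.mem_range]
            exact ⟨by omega, hpp'.1⟩
          have hnP : ¬ ExcP p (κ p) A := fun hcon =>
            hpp ⟨p, hpPr, Finset.mem_filter.mpr ⟨(hbm A).2 hAbox, hcon⟩⟩
          obtain ⟨z, hz1, hz2, hz3⟩ := int_p hr hd hpar p A (hpad0 p)
          obtain ⟨V, hV⟩ := good_mono p _ k' (hkp p hpPr) A
            (pert_p p (κ p) (hκ p hpPr).1 A hnP z hz1 hz2 hz3)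
          exact ⟨V, fun h => absurd h hpw, fun {_} _ => hV⟩
        · exact ⟨U, fun _ => rfl, fun {hp} h => absurd ⟨hp.out, h⟩ hpp'⟩
      choose UU hUU1 hUU2 using hex
      exact ⟨Finset.mem_univ _, H, A, UU, hH, hAbox, ha, hb', hgR, hUU1,
        fun p hp hpw => @hUU2 p hp hpw⟩
    · rw [Set.Finite.mem_toFinset]
      exact ⟨ha, hb', hns⟩
  have hcardE : Set.ncard {A : PSys n d ℤ | A ∈ pbox n d H ∧ ELS A ∧
      (∀ (p : ℕ) [Fact p.Prime], p ≤ w → GPt p k A U) ∧ GRt c (fun j t => (A j t : ℝ) / H) u ∧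
      ¬ SolN w m del (fun _ => U) u A} = E.card := by
    rw [← Set.ncard_coe_finset]
    congr 1
    ext A
    rw [Finset.mem_coe, hE, Finset.mem_filter, hbm]
    rfl
  have hcardP : ∀ p ∈ Pr, ((EP p).card : ℝ) ≤ eps / (4 * (w' + 1)) * (2 * H + 1) ^ NP n d := by
    intro p hp
    refine le_trans (le_of_eq ?_) (h3 p hp)
    rw [← Set.ncard_coe_finset]
    congr 2
    ext A
    rw [Finset.mem_coe, hEP]
    simp only [Finset.mem_filter, hbm]
    rfl
  have hcardS : ∀ ab ∈ GW, (((hfin ab).toFinset).card : ℝ) ≤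
      C / w' * (2 * (1 / R) * H / Q) ^ NP n d := by
    intro ab hab
    rw [← Set.ncard_eq_toFinset_card _ (hfin ab)]
    exact h1 ab (Finset.mem_filter.mp hab).2
  rw [hcardE]
  have hcS : ∀ M : ℕ, Fintype.card (PSys n d (Fin M)) = M ^ NP n d := by
    intro M
    rw [Fintype.card_pi]
    unfold NP
    rw [← Finset.prod_pow_eq_pow_sum]
    refine Finset.prod_congr rfl fun i _ => ?_
    rw [Fintype.card_fun, Fintype.card_fin]
    rfl
  have hGWcard : (GW.card : ℝ) ≤ (R : ℝ) ^ NP n d * (Q : ℝ) ^ NP n d := by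
    have h6 : GW.card ≤ R ^ NP n d * Q ^ NP n d := by
      refine (Finset.card_le_univ _).trans (le_of_eq ?_)
      rw [Fintype.card_prod, hcS, hcS]
    exact_mod_cast h6
  have hsumS : ((GW.biUnion fun ab => (hfin ab).toFinset).card : ℝ) ≤
      eps / 4 * (2 * H + 1) ^ NP n d := by
    calc ((GW.biUnion fun ab => (hfin ab).toFinset).card : ℝ)
        ≤ ∑ ab ∈ GW, (((hfin ab).toFinset).card : ℝ) := by exact_mod_cast Finset.card_biUnion_le
      _ ≤ ∑ ab ∈ GW, (C / w' * (2 * (1 / R) * H / Q) ^ NP n d : ℝ) := Finset.sum_le_sum hcardS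
      _ = (GW.card : ℝ) * (C / w' * (2 * (1 / R) * H / Q) ^ NP n d) := by
          rw [Finset.sum_const, nsmul_eq_mul]
      _ ≤ ((R : ℝ) ^ NP n d * (Q : ℝ) ^ NP n d) * (C / w' * (2 * (1 / R) * H / Q) ^ NP n d) :=
          mul_le_mul_of_nonneg_right hGWcard (by positivity)
      _ = C / w' * (2 * H) ^ NP n d := by
          have h7 : (2 * (H : ℝ)) = R * Q * (2 * (1 / R) * H / Q) := by
            field_simp
          rw [h7, mul_pow, mul_pow]
          ring
      _ ≤ eps / 4 * (2 * H + 1) ^ NP n d := by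
          refine mul_le_mul hwC ?_ (by positivity) (by positivity)
          exact pow_le_pow_left₀ (by positivity) (by linarith) _
  have hsumP : ((Pr.biUnion EP).card : ℝ) ≤ eps / 4 * (2 * H + 1) ^ NP n d := by
    have hPrc : (Pr.card : ℝ) ≤ (w' : ℝ) + 1 := by
      have : Pr.card ≤ w' + 1 := by
        refine (Finset.card_filter_le _ _).trans ?_
        rw [Finset.card_range]
      exact_mod_cast this
    calc ((Pr.biUnion EP).card : ℝ) ≤ ∑ p ∈ Pr, ((EP p).card : ℝ) := by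
          exact_mod_cast Finset.card_biUnion_le
      _ ≤ ∑ p ∈ Pr, (eps / (4 * (w' + 1)) * (2 * H + 1) ^ NP n d : ℝ) := Finset.sum_le_sum hcardP
      _ = (Pr.card : ℝ) * (eps / (4 * (w' + 1)) * (2 * H + 1) ^ NP n d) := by
          rw [Finset.sum_const, nsmul_eq_mul]
      _ ≤ ((w' : ℝ) + 1) * (eps / (4 * (w' + 1)) * (2 * H + 1) ^ NP n d) :=
          mul_le_mul_of_nonneg_right hPrc (by positivity)
      _ = eps / 4 * (2 * H + 1) ^ NP n d := by field_simp
  have hfinal : (E.card : ℝ) ≤ ((GW.biUnion fun ab => (hfin ab).toFinset).card : ℝ) +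
      ((Pr.biUnion EP).card : ℝ) := by
    have h7 : E.card ≤ (GW.biUnion fun ab => (hfin ab).toFinset).card +
        (Pr.biUnion EP).card :=
      (Finset.card_le_card hsub).trans (Finset.card_union_le _ _)
    exact_mod_cast h7
  have hpos : 0 ≤ (2 * (H : ℝ) + 1) ^ NP n d := by positivity
  nlinarith

end RcWA
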