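import Pool.Agent.Lib.MP_e426f4_ag.RCW.Defs
import Pool.Agent.Lib.MP_e426f4_ag.WX.SqP

/-!
# RCW-SqR: elements near `1` are squares in `ℝ` and in `ℚ_p` (done)
-/

set_option autoImplicit false

namespace RcWA

theorem sqn_real : SqN ℝ := by
  intro rho hrho
  refine ⟨min rho 1, lt_min hrho one_pos, fun u hu => ?_⟩
  have h1 : |u - 1| < 1 := lt_of_lt_of_le hu (min_le_right _ _)
  have h2 : |u - 1| < rho := lt_of_lt_of_le hu (min_le_left _ _)
  have hu0 : 0 < u := by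
    have := (abs_lt.mp h1).1
    linarith
  have hs : 0 < √u := Real.sqrt_pos.2 hu0
  refine ⟨√u, Real.sq_sqrt hu0.le, ?_⟩
  have e : u - 1 = (√u - 1) * (√u + 1) := by
    have := Real.mul_self_sqrt hu0.le
    linarith
  rw [Real.norm_eq_abs]
  have h3 : |√u - 1| ≤ |u - 1| := by
    rw [e, abs_mul, abs_of_pos (by linarith : 0 < √u + 1)]
    exact le_mul_of_one_le_right (abs_nonneg _) (by linarith)
  linarith

theorem sqn_padic (p : ℕ) [Fact p.Prime] : SqN ℚ_[p] := by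
  intro rho hrho
  obtain ⟨δ, hδ, h⟩ := TwWA.sq_near_p p rho hrho
  refine ⟨δ, hδ, fun u hu => ?_⟩
  obtain ⟨t, -, -, ht, ht1⟩ := h u hu
  exact ⟨t, ht.symm, ht1⟩

end RcWA
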