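import Pool.Agent.Lib.MP_e426f4_ag.RCW.PertK
import Pool.Agent.Lib.MP_e426f4_ag.RCW.FibK
import Pool.Agent.Lib.MP_e426f4_ag.RCW.SqR

/-!
# RCW-LocR: local points at the real place

Proof. Work with `a = A / H`, `|a| ≤ 1` (`MF` and `PJac` scale: `PJac_smul` etc., see `RC/PertR.lean`): `ExcK bet a → ExcR bet H A`; `OnX` for `a` and for `cst ℝ A` are equivalent.
WLOG `rho ≤ 1/2`.  `c1` from `pert_k ℝ` with `rho / 4`, `bet`; `eta1` from `fib_k` with `rho / 4`, `c1`; `c = min 1 c1`, `eta = min eta1 (rho / 4)`.  `u = s1`; `Iso` from the nonzero point `x1 i`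
(within `rho` of `x i` of norm `1`) on the fibre over `s1`.
-/

set_option autoImplicit false

namespace RcWA

open Finset GenHP CIPHP TwHP RcHP

theorem loc_r {ι : Type} [Fintype ι] [DecidableEq ι] (n : ι → ℕ) {r : ℕ}
    (d : Fin (r * 3) → ι → ℕ) (bet rho : ℝ) (hbet : 0 < bet) (hrho : 0 < rho) :
    ∃ c eta : ℝ, 0 < c ∧ c ≤ 1 ∧ 0 < eta ∧ ∀ H : ℕ, 1 ≤ H → ∀ A ∈ pbox n d H, ¬ ExcR bet H A →
      ∀ (s : MVar n → ℝ) (x : Fin r → Fin 3 → ℝ), NS s → NX x → OnX (cst ℝ A) s x →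
      ∃ u : MVar n → ℝ, GRt c (fun j t => (A j t : ℝ) / H) u ∧ ∀ s' : MVar n → ℝ,
        (∀ v, |s' v - u v| ≤ eta) →
        (∀ v, |s' v - s v| < rho) ∧ ∃ x' : Fin r → Fin 3 → ℝ,
          (∀ i j, |x' i j - x i j| < rho) ∧ OnX (cst ℝ A) s' x' := by
  obtain ⟨ρ, hρ⟩ : ∃ ρ : ℝ, ρ = min rho 1 := ⟨_, rfl⟩
  have hρ0 : 0 < ρ := by
    rw [hρ]
    exact lt_min hrho one_pos
  have hρ1 : ρ ≤ 1 := by
    rw [hρ]
    exact min_le_right _ _
  have hρr : ρ ≤ rho := by
    rw [hρ]
    exact min_le_left _ _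
  obtain ⟨c1, hc1, hpert⟩ := pert_k ℝ sqn_real n d (ρ / 4) bet (by positivity) hbet
  obtain ⟨eta1, heta1, _, hfib⟩ := fib_k ℝ sqn_real n d (ρ / 4) c1 (by positivity) hc1
  refine ⟨min 1 c1, min eta1 (ρ / 4), lt_min one_pos hc1, min_le_left _ _,
    lt_min heta1 (by positivity), ?_⟩
  intro H hH A hAH hexc s x hs hx hon
  have hH0 : (0 : ℝ) < H := by exact_mod_cast hH
  set a : PSys n d ℝ := fun j t => (A j t : ℝ) / H with hadef
  have ha : ∀ j t, ‖a j t‖ ≤ 1 := by
    intro j t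
    simp only [hadef]
    rw [Real.norm_eq_abs, abs_div, abs_of_pos hH0, div_le_one hH0]
    exact_mod_cast hAH j t
  have hAa : ∀ j, (fun t => (A j t : ℝ)) = fun t => (H : ℝ) * a j t := by
    intro j
    funext t
    simp only [hadef]
    field_simp
  have hMF : ∀ j (z : MVar n → ℝ), MF (cst ℝ A j) z = H * MF (a j) z := by
    intro j z
    change MF (fun t => (A j t : ℝ)) z = H * MF (a j) z
    rw [hAa j, MF_smul]
  have honX : ∀ (z : MVar n → ℝ) (y : Fin r → Fin 3 → ℝ), OnX (cst ℝ A) z y ↔ OnX a z y := by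
    intro z y
    refine forall_congr' fun i => ?_
    have h1 : ∑ j, MF (cst ℝ A (ix i j)) z * y i j ^ 2 =
        H * ∑ j, MF (a (ix i j)) z * y i j ^ 2 := by
      rw [Finset.mul_sum]
      refine Finset.sum_congr rfl fun j _ => ?_
      rw [hMF]
      ring
    rw [h1, mul_eq_zero]
    constructor
    · rintro (h | h)
      · exact absurd h hH0.ne'
      · exact h
    · exact fun h => Or.inr h
  have hexK : ¬ ExcK bet a := by
    rintro ⟨b, em, hb, hinj, z, hz, h1, h2⟩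
    refine hexc ⟨b, em, hb, hinj, z, ⟨fun v => hz.1 v, fun l => hz.2 l⟩, fun j => ?_, fun J => ?_⟩
    · have h3 := h1 j
      rw [Real.norm_eq_abs] at h3
      change |MF (cst ℝ A (em j)) z| ≤ bet * H
      rw [hMF, abs_mul, abs_of_pos hH0, mul_comm]
      exact mul_le_mul_of_nonneg_right h3 hH0.le
    · have h3 := h2 J
      rw [Real.norm_eq_abs] at h3
      have h4 : (fun j t => (A (em j) t : ℝ) : PSys n (fun j => d (em j)) ℝ) =
          fun j t => (H : ℝ) * (fun j => a (em j) : PSys n (fun j => d (em j)) ℝ) j t := by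
        funext j t
        exact congrFun (hAa (em j)) t
      rw [h4, PJac_smul, abs_mul, abs_pow, abs_of_pos hH0, mul_pow, mul_comm (bet ^ b)]
      exact mul_lt_mul_of_pos_left h3 (pow_pos hH0 b)
  obtain ⟨s1, x1, hs1, hx1, hon1, hv1⟩ := hpert a ha hexK s x hs hx ((honX s x).1 hon)
  have hs1b : ∀ v, ‖s1 v‖ ≤ 2 := by
    intro v
    have h1 := norm_add_le (s1 v - s v) (s v)
    rw [sub_add_cancel] at h1
    have h2 := hs1 v
    have h3 := hs.1 v
    linarith
  have hx1b : ∀ i j, ‖x1 i j‖ ≤ 2 := by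
    intro i j
    have h1 := norm_add_le (x1 i j - x i j) (x i j)
    rw [sub_add_cancel] at h1
    have h2 := hx1 i j
    have h3 := (hx i).1 j
    linarith
  refine ⟨s1, ⟨fun v => ?_, fun j => (min_le_right _ _).trans ?_, fun i => ?_⟩, ?_⟩
  · have := hs1b v
    rwa [Real.norm_eq_abs] at this
  · have := hv1 j
    rwa [Real.norm_eq_abs] at this
  · refine ⟨x1 i 0, x1 i 1, x1 i 2, ?_, ?_⟩
    · obtain ⟨j, hj⟩ := (hx i).2
      have h1 : x1 i j ≠ 0 := by
        intro h0
        have h2 := hx1 i j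
        rw [h0, zero_sub, norm_neg, hj] at h2
        linarith
      fin_cases j
      · exact Or.inl h1
      · exact Or.inr (Or.inl h1)
      · exact Or.inr (Or.inr h1)
    · have h1 := hon1 i
      rw [Fin.sum_univ_three] at h1
      exact h1
  · intro s' hs'
    obtain ⟨-, x', hx', hon'⟩ := hfib a ha s1 x1 hs1b hx1b hon1 hv1 s'
      (fun v => (hs' v).trans (min_le_left _ _))
    refine ⟨fun v => ?_, x', fun i j => ?_, (honX s' x').2 hon'⟩
    · have h1 := abs_add_le (s' v - s1 v) (s1 v - s v)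
      rw [sub_add_sub_cancel] at h1
      have h2 := (hs' v).trans (min_le_right _ _)
      have h3 := hs1 v
      rw [Real.norm_eq_abs] at h3
      linarith
    · have h1 := abs_add_le (x' i j - x1 i j) (x1 i j - x i j)
      rw [sub_add_sub_cancel] at h1
      have h2 := hx' i j
      have h3 := hx1 i j
      rw [Real.norm_eq_abs] at h2 h3
      linarith

end RcWA
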