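import Pool.Agent.Lib.MP_e426f4_ag.RCW.LocP
import Pool.Agent.Lib.MP_e426f4_ag.RCW.LocR
import Pool.Agent.Lib.MP_e426f4_ag.RCW.GlobS
import Pool.Agent.Lib.MP_e426f4_ag.RCW.EndW
import Pool.Agent.Lib.MP_e426f4_ag.RC.ExR
import Pool.Agent.Lib.MP_e426f4_ag.RC.ExP
import Pool.Agent.Lib.MP_e426f4_ag.RC.PtU

/-!
# RCW-GlobW: weak approximation for almost all systems

Proof. WLOG `rho ≤ 1` (`WAc` is monotone in `rho`).  `bet` from `ex_r` (`eps / 4`), `κ p` from `ex_p` (`eps / (4 (w + 1))`) for the primes `p ≤ w`.  `c, eta` from `loc_r` with `rho / 2`; `k p`, `m p` from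
`loc_p` with `rho / 2`; `k = ∑ k p`, `m = ∑ m p` (so `k p ≤ k`, `m p ≤ m`), `M = max m (k + 3)`; `glob_s` with `w, M, k`, `del = eta / 2`, `c`, `eps / 4`.  For `A ∈ pbox`, `ELS A`, in no exceptional
set, with `SolAll w M k del c H A`: given the local points, `loc_r` gives `u`, `loc_p` gives `U p` for the primes `p ≤ w`; CRT: `U` with `p^M ∣ U v - U p v` for all primes `p ≤ w` (`exists_U` in `RC/PtU.lean`
if `1 ≤ n i` is at hand, or `Nat.chineseRemainder`/`Ideal`-style CRT over the finite set of primes, e.g. `crt` lemmas in `RC/PtU.lean`); `GPt p k A U` (as `M ≥ k + 3`: `MF_congr_mod`, `near_dvd`, `near_iso`);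
`SolAll` gives `SolN w M del (fun _ => U) u A`; `end_w` with `m := M`, `rho / 2`: `2 del = eta`, and `‖s' v - U v‖ ≤ p^(-M)` implies `‖s' v - U p v‖ ≤ p^(-(m p))` (ultrametric).
The union bound is as at the end of `RC/Glob.lean`.
-/

set_option autoImplicit false

namespace RcWA

open Finset Filter Topology GenHP CIPHP TwHP RcHP

private theorem gw_gpt {ι : Type} [Fintype ι] [DecidableEq ι] {n : ι → ℕ} {r : ℕ}
    {d : Fin (r * 3) → ι → ℕ} (p : ℕ) [Fact p.Prime] {kp k : ℕ} (hk : kp ≤ k) {A : PSys n d ℤ}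
    {U U' : MVar n → ℤ} (h : GPt p kp A U) (hU : ∀ v, (p : ℤ) ^ (k + 3) ∣ U' v - U v) :
    GPt p k A U' := by
  have hcon : ∀ j, (p : ℤ) ^ (k + 3) ∣ MF (A j) U' - MF (A j) U := fun j =>
    MF_congr_mod _ (A j) (A j) U' U (fun t => by simp) hU
  have hnd : ∀ j, ¬ (p : ℤ) ^ k ∣ MF (A j) U := fun j hj =>
    h.1 j ((pow_dvd_pow _ hk).trans hj)
  refine ⟨fun j => near_dvd p k _ _ (hnd j) (hcon j), fun i => ?_⟩
  exact near_iso p k _ _ _ _ _ _ (hnd _) (hnd _) (hnd _) (hcon _) (hcon _) (hcon _) (h.2 i)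

private theorem gw_finite {ι : Type} [Fintype ι] [DecidableEq ι] {n : ι → ℕ} {r : ℕ}
    (d : Fin (r * 3) → ι → ℕ) (H : ℕ) : (pbox n d H).Finite := by
  refine (Set.Finite.pi' (fun j : Fin (r * 3) =>
    GenHP.finite_of_abs_le {a : MIdx n (d j) → ℤ | ∀ m, |(a m : ℝ)| ≤ H} H
      fun a ha m => ha m)).subset ?_
  intro A hA j m
  have := hA j m
  exact_mod_cast this

theorem glob_w {ι : Type} [Fintype ι] [DecidableEq ι] {n : ι → ℕ} {r : ℕ}
    {d : Fin (r * 3) → ι → ℕ} (hr : 1 ≤ r) (hn : ∀ i, 1 ≤ n i) (hd : ∀ j i, 1 ≤ d j i)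
    (hpar : EqPar d) (hcls : RCLSW n d) (w : ℕ) (rho : ℝ) (hrho : 0 < rho) (eps : ℝ)
    (he : 0 < eps) : ∀ᶠ H : ℕ in atTop,
    (Set.ncard {A : PSys n d ℤ | A ∈ pbox n d H ∧ ELS A ∧ ¬ WAc w rho A} : ℝ) ≤
      eps * (2 * H + 1) ^ NP n d := by
  classical
  set rho' : ℝ := min rho 1 with hrho'
  have hrho'0 : 0 < rho' := lt_min hrho one_pos
  have hrho'1 : rho' ≤ 1 := min_le_right _ _
  have hrho'r : rho' ≤ rho := min_le_left _ _
  have h2rho : 2 * (rho' / 2) ≤ rho := by linarith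
  obtain ⟨bet, hb, hb1, hreal⟩ := ex_r (n := n) d hd (eps / 4) (by positivity)
  obtain ⟨c, eta, hc, hc1, heta, hlr⟩ := loc_r n d bet (rho' / 2) hb (by positivity)
  set Pr : Finset ℕ := (Finset.range (w + 1)).filter Nat.Prime with hPr
  have hpad : ∀ p : ℕ, ∃ κ k m : ℕ, p ∈ Pr → (∀ᶠ H : ℕ in atTop,
      (Set.ncard {A : PSys n d ℤ | A ∈ pbox n d H ∧ ExcP p κ A} : ℝ) ≤
        eps / (4 * (w + 1)) * (2 * H + 1) ^ NP n d) ∧
      ∀ [Fact p.Prime], ∀ A : PSys n d ℤ, ¬ ExcP p κ A →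
      ∀ (s : MVar n → ℚ_[p]) (x : Fin r → Fin 3 → ℚ_[p]), NS s → NX x → OnX (cst ℚ_[p] A) s x →
      ∃ U : MVar n → ℤ, GPt p k A U ∧ ∀ s' : MVar n → ℚ_[p],
        (∀ v, ‖s' v - (U v : ℚ_[p])‖ ≤ (p : ℝ) ^ (-(m : ℤ))) →
        (∀ v, ‖s' v - s v‖ < rho' / 2) ∧ ∃ x' : Fin r → Fin 3 → ℚ_[p],
          (∀ i j, ‖x' i j - x i j‖ < rho' / 2) ∧ OnX (cst ℚ_[p] A) s' x' := by
    intro p
    by_cases hp : p ∈ Pr
    · have hp' : p.Prime := (Finset.mem_filter.mp hp).2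
      have : Fact p.Prime := ⟨hp'⟩
      obtain ⟨κ, hκ1, hκ⟩ := ex_p (n := n) d hd p hp' (eps / (4 * (w + 1))) (by positivity)
      obtain ⟨k, m, hkm⟩ := loc_p p n d κ hκ1 (rho' / 2) (by positivity)
      exact ⟨κ, k, m, fun _ => ⟨hκ, @fun _ => hkm⟩⟩
    · exact ⟨0, 0, 0, fun h => absurd h hp⟩
  choose κ kk mm hκ using hpad
  set k : ℕ := ∑ p ∈ Pr, kk p with hk
  set m : ℕ := ∑ p ∈ Pr, mm p with hm
  set M : ℕ := max m (k + 3) with hM
  have hkp : ∀ p ∈ Pr, kk p ≤ k := fun p hp =>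
    Finset.single_le_sum (f := fun p => kk p) (fun _ _ => Nat.zero_le _) hp
  have hmp : ∀ p ∈ Pr, mm p ≤ M := fun p hp =>
    (Finset.single_le_sum (f := fun p => mm p) (fun _ _ => Nat.zero_le _) hp).trans
      (le_max_left _ _)
  have hkM : k + 3 ≤ M := le_max_right _ _
  have hgs := glob_s hr hd hpar hcls w M k (eta / 2) c (by positivity) hc hc1 (eps / 4)
    (by positivity)
  have h3 : ∀ᶠ H : ℕ in atTop, ∀ p ∈ Pr,
      (Set.ncard {A : PSys n d ℤ | A ∈ pbox n d H ∧ ExcP p (κ p) A} : ℝ) ≤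
        eps / (4 * (w + 1)) * (2 * H + 1) ^ NP n d := by
    rw [Filter.eventually_all_finset]
    intro p hp
    exact (hκ p hp).1
  filter_upwards [hgs, hreal, h3, Filter.eventually_ge_atTop 1] with H h1 h2 h3 hH
  have hbfin : (pbox n d H).Finite := gw_finite d H
  have hbm : ∀ A, A ∈ hbfin.toFinset ↔ A ∈ pbox n d H := fun A => Set.Finite.mem_toFinset _
  set E : Finset (PSys n d ℤ) := hbfin.toFinset.filter (fun A => ELS A ∧ ¬ WAc w rho A) with hE
  set ES : Finset (PSys n d ℤ) :=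
    hbfin.toFinset.filter (fun A => ELS A ∧ ¬ SolAll w M k (eta / 2) c H A) with hES
  set ER : Finset (PSys n d ℤ) := hbfin.toFinset.filter (fun A => ExcR bet H A) with hER
  set EP : ℕ → Finset (PSys n d ℤ) := fun p => hbfin.toFinset.filter (fun A =>
      ExcP p (κ p) A) with hEP
  have hsub : E ⊆ ES ∪ ER ∪ (Pr.biUnion EP) := by
    intro A hA
    rw [hE, Finset.mem_filter, hbm] at hA
    obtain ⟨hAbox, hels, hnw⟩ := hA
    by_cases hr' : A ∈ ER
    · exact Finset.mem_union_left _ (Finset.mem_union_right _ hr')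
    by_cases hpp : ∃ p ∈ Pr, A ∈ EP p
    · exact Finset.mem_union_right _ (Finset.mem_biUnion.mpr hpp)
    refine Finset.mem_union_left _ (Finset.mem_union_left _ ?_)
    rw [hES, Finset.mem_filter, hbm]
    refine ⟨hAbox, hels, fun hsa => hnw ?_⟩
    have hnR : ¬ ExcR bet H A := fun hcon =>
      hr' (Finset.mem_filter.mpr ⟨(hbm A).2 hAbox, hcon⟩)
    intro s x sp xp hs hx hon hp
    obtain ⟨u, hu1, hu2⟩ := hlr H hH A hAbox hnR s x hs hx hon
    have hmem : ∀ p : ℕ, p.Prime → p ≤ w → p ∈ Pr := by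
      intro p hp hpw
      rw [hPr, Finset.mem_filter, Finset.mem_range]
      exact ⟨by omega, hp⟩
    have hUex : ∀ p : ℕ, ∃ U : MVar n → ℤ, p ∈ Pr → ∀ [Fact p.Prime], GPt p (kk p) A U ∧
        ∀ s' : MVar n → ℚ_[p],
        (∀ v, ‖s' v - (U v : ℚ_[p])‖ ≤ (p : ℝ) ^ (-(mm p : ℤ))) →
        (∀ v, ‖s' v - sp p v‖ < rho' / 2) ∧ ∃ x' : Fin r → Fin 3 → ℚ_[p],
          (∀ i j, ‖x' i j - xp p i j‖ < rho' / 2) ∧ OnX (cst ℚ_[p] A) s' x' := by
      intro p
      by_cases hpP : p ∈ Pr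
      · have : Fact p.Prime := ⟨(Finset.mem_filter.mp hpP).2⟩
        have hpw : p ≤ w := by
          have := (Finset.mem_filter.mp hpP).1
          rw [Finset.mem_range] at this
          omega
        have hnP : ¬ ExcP p (κ p) A := fun hcon =>
          hpp ⟨p, hpP, Finset.mem_filter.mpr ⟨(hbm A).2 hAbox, hcon⟩⟩
        obtain ⟨hs1, hx1, ho1⟩ := hp p hpw
        obtain ⟨U, hU1, hU2⟩ := (hκ p hpP).2 A hnP (sp p) (xp p) hs1 hx1 ho1
        exact ⟨U, fun _ => ⟨hU1, hU2⟩⟩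
      · exact ⟨0, fun h => absurd h hpP⟩
    choose Up hUp using hUex
    obtain ⟨U, T, -, -, hUc, -⟩ := exists_U n hn w M Up u 1 one_pos
    have hsol : SolN w M (eta / 2) (fun _ => U) u A := by
      refine hsa U u (fun p _ hpw => ?_) hu1
      have hpP := hmem p Fact.out hpw
      exact gw_gpt p (hkp p hpP) (hUp p hpP).1 fun v =>
        (pow_dvd_pow _ hkM).trans (hUc p Fact.out hpw v)
    obtain ⟨S, X, hX1, hX2, hX3, hX4, hX5, hX6⟩ := end_w hpar w M A (eta / 2) (rho' / 2)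
      (by positivity) (by positivity) (by linarith) U u hsol s x hx sp xp
      (fun p _ hpw => (hp p hpw).2.1)
      (fun s' hs' => hu2 s' fun v => (hs' v).trans (le_of_eq (by ring)))
      (fun p _ hpw s' hs' => by
        have hpP := hmem p Fact.out hpw
        refine (hUp p hpP).2 s' fun v => ?_
        have hp1 : (1 : ℝ) ≤ p := by
          exact_mod_cast (Fact.out : p.Prime).one_lt.le
        have h5 : (p : ℝ) ^ (-(M : ℤ)) ≤ (p : ℝ) ^ (-(mm p : ℤ)) :=
          zpow_le_zpow_right₀ hp1 (by have := hmp p hpP; omega)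
        have h6 : ‖((U v - Up p v : ℤ) : ℚ_[p])‖ ≤ (p : ℝ) ^ (-(M : ℤ)) := by
          rw [Padic.norm_int_le_pow_iff_dvd]
          exact hUc p Fact.out hpw v
        have h7 : s' v - (Up p v : ℚ_[p]) =
            (s' v - (U v : ℚ_[p])) + ((U v - Up p v : ℤ) : ℚ_[p]) := by
          push_cast
          ring
        rw [h7]
        refine (Padic.nonarchimedean _ _).trans (max_le ((hs' v).trans h5) (h6.trans h5)))
    refine ⟨S, X, hX1, hX2, hX3, fun v => lt_of_lt_of_le (hX4 v) h2rho,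
      fun i j => lt_of_lt_of_le (hX5 i j) h2rho, fun p _ hpw =>
        ⟨fun v => lt_of_lt_of_le ((hX6 p hpw).1 v) h2rho,
          fun i j => lt_of_lt_of_le ((hX6 p hpw).2 i j) h2rho⟩⟩
  have hcardE : Set.ncard {A : PSys n d ℤ | A ∈ pbox n d H ∧ ELS A ∧ ¬ WAc w rho A} =
      E.card := by
    rw [← Set.ncard_coe_finset]
    congr 1
    ext A
    rw [Finset.mem_coe, hE, Finset.mem_filter, hbm]
    rfl
  have hcardS : (ES.card : ℝ) ≤ eps / 4 * (2 * H + 1) ^ NP n d := by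
    refine le_trans (le_of_eq ?_) h1
    rw [← Set.ncard_coe_finset]
    congr 2
    ext A
    rw [Finset.mem_coe, hES, Finset.mem_filter, hbm]
    rfl
  have hcardR : (ER.card : ℝ) ≤ eps / 4 * (2 * H + 1) ^ NP n d := by
    refine le_trans (le_of_eq ?_) h2
    rw [← Set.ncard_coe_finset]
    congr 2
    ext A
    rw [Finset.mem_coe, hER, Finset.mem_filter, hbm]
    rfl
  have hcardP : ∀ p ∈ Pr, ((EP p).card : ℝ) ≤ eps / (4 * (w + 1)) * (2 * H + 1) ^ NP n d := by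
    intro p hp
    refine le_trans (le_of_eq ?_) (h3 p hp)
    rw [← Set.ncard_coe_finset]
    congr 2
    ext A
    rw [Finset.mem_coe, hEP]
    simp only [Finset.mem_filter, hbm]
    rfl
  rw [hcardE]
  have hsumP : ((Pr.biUnion EP).card : ℝ) ≤ eps / 4 * (2 * H + 1) ^ NP n d := by
    have hPrc : (Pr.card : ℝ) ≤ (w : ℝ) + 1 := by
      have : Pr.card ≤ w + 1 := by
        refine (Finset.card_filter_le _ _).trans ?_
        rw [Finset.card_range]
      exact_mod_cast this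
    calc ((Pr.biUnion EP).card : ℝ) ≤ ∑ p ∈ Pr, ((EP p).card : ℝ) := by
          exact_mod_cast Finset.card_biUnion_le
      _ ≤ ∑ p ∈ Pr, (eps / (4 * (w + 1)) * (2 * H + 1) ^ NP n d : ℝ) := Finset.sum_le_sum hcardP
      _ = (Pr.card : ℝ) * (eps / (4 * (w + 1)) * (2 * H + 1) ^ NP n d) := by
          rw [Finset.sum_const, nsmul_eq_mul]
      _ ≤ ((w : ℝ) + 1) * (eps / (4 * (w + 1)) * (2 * H + 1) ^ NP n d) :=
          mul_le_mul_of_nonneg_right hPrc (by positivity)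
      _ = eps / 4 * (2 * H + 1) ^ NP n d := by field_simp
  have hfinal : (E.card : ℝ) ≤ (ES.card : ℝ) + (ER.card : ℝ) + ((Pr.biUnion EP).card : ℝ) := by
    have h7 : E.card ≤ ES.card + ER.card + (Pr.biUnion EP).card := by
      refine (Finset.card_le_card hsub).trans ((Finset.card_union_le _ _).trans ?_)
      exact Nat.add_le_add_right (Finset.card_union_le _ _) _
    exact_mod_cast h7
  have hpos : 0 ≤ (2 * (H : ℝ) + 1) ^ NP n d := by positivity
  nlinarith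

end RcWA
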