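import Pool.Agent.Lib.MP_e426f4_ag.RCW.PertK
import Pool.Agent.Lib.MP_e426f4_ag.RCW.FibK
import Pool.Agent.Lib.MP_e426f4_ag.RCW.SqR
import Pool.Agent.Lib.MP_e426f4_ag.RC.NearP
import Pool.Agent.Lib.MP_e426f4_ag.TW.LocP

/-!
# RCW-LocP: local points at a prime

Proof. (1) `ExcK (p^(-κ)) (cst ℚ_[p] A) → ExcP p κ A`: approximate the `p`-adic point `z` by integers modulo a high power `p^N`, `N ≥ b κ`, `N ≥ κ`, `N ≥ 1` (`locP_approx` in
`TW/LocP.lean`): `BUnit`; `MF`, the determinants change by elements of norm `≤ p^(-N)` (they are integral polynomials; `MF_congr_mod`-like, or `MFK_lip`, continuity: choose the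
approximation close enough); `‖·‖ < p^(-b κ)` and `‖·‖ ≤ p^(-κ)` are preserved (`Padic.norm_int_le_pow_iff_dvd`).
(2) WLOG `rho ≤ 1/2`.  `c` from `pert_k ℚ_[p]` with `rho / 4`, `bet = p^(-κ)`; `eta` from `fib_k` with `rho / 4`, `c`; `m` with `2 p^(-m) ≤ eta`, `p^(-m) < rho / 4`; `k` with `p^(-k) < c / 2`.
Given the point: `(s1, x1)` from `pert_k`, `‖s1 v‖ ≤ 1` (ultrametric), `U v` an integer with `‖U v - s1 v‖ ≤ p^(-m)`; `fib_k` at `s' = U`: values of norm `≥ c / 2`, so not divisible by `p^k`, and a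
nonzero point on the fibre over `U` (`x2` is within `rho` of `x`, which has norm `1`): `Iso`.  For `s'` with `‖s' - U‖ ≤ p^(-m)`: `‖s' - s1‖ ≤ 2 p^(-m) ≤ eta`: `fib_k`.
-/

set_option autoImplicit false

namespace RcWA

open Finset GenHP CIPHP TwHP RcHP

private theorem locpMFcont {K : Type} [NormedField K] {ι : Type} [Fintype ι] [DecidableEq ι]
    {n d : ι → ℕ} (A : MIdx n d → K) : Continuous fun z : MVar n → K => MF A z := by
  unfold MF Fg mon
  fun_prop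

private theorem locpMDcont {K : Type} [NormedField K] {ι : Type} [Fintype ι] [DecidableEq ι]
    {n d : ι → ℕ} (A : MIdx n d → K) (v : MVar n) :
    Continuous fun z : MVar n → K => MD A z v := by
  unfold MD Dg dmon
  fun_prop

private theorem locpDetcont {K : Type} [NormedField K] {ι : Type} [Fintype ι] [DecidableEq ι]
    {n : ι → ℕ} {b : ℕ} {d : Fin b → ι → ℕ} (A : PSys n d K) (J : Fin b → MVar n) :
    Continuous fun z : MVar n → K => (PJac A z J).det := by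
  refine Continuous.matrix_det ?_
  refine continuous_matrix fun i j => ?_
  exact locpMDcont (A i) (J j)

/-- a power of `1/p` below a positive real -/
private theorem locpPow (p : ℕ) [Fact p.Prime] (e : ℝ) (he : 0 < e) :
    ∃ k : ℕ, 1 ≤ k ∧ (p : ℝ) ^ (-(k : ℤ)) < e := by
  have hp1 : (1 : ℝ) < p := by exact_mod_cast (Fact.out : p.Prime).one_lt
  have hp0 : (0 : ℝ) < p := by linarith
  obtain ⟨k, hk⟩ := exists_pow_lt_of_lt_one he (show ((p : ℝ)⁻¹) < 1 from inv_lt_one_of_one_lt₀ hp1)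
  refine ⟨k + 1, by omega, lt_of_le_of_lt ?_ hk⟩
  rw [zpow_neg, zpow_natCast, ← inv_pow]
  exact pow_le_pow_of_le_one (by positivity) (inv_le_one_of_one_le₀ hp1.le) (by omega)

private theorem locpExc (p : ℕ) [Fact p.Prime] {ι : Type} [Fintype ι] [DecidableEq ι] {n : ι → ℕ}
    {m : ℕ} {d : Fin m → ι → ℕ} (κ : ℕ) (A : PSys n d ℤ)
    (h : ExcK ((p : ℝ) ^ (-(κ : ℤ))) (fun j t => (A j t : ℚ_[p]) : PSys n d ℚ_[p])) :
    ExcP p κ A := by
  obtain ⟨b, em, hb, hem, z, ⟨hz, hz1⟩, h1, h2⟩ := h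
  have hp1 : (1 : ℝ) < p := by exact_mod_cast (Fact.out : p.Prime).one_lt
  have hp0 : (0 : ℝ) < p := by linarith
  have hev : ∀ᶠ x in nhds z, (∀ j, ‖MF (fun t => (A (em j) t : ℚ_[p])) x -
      MF (fun t => (A (em j) t : ℚ_[p])) z‖ < (p : ℝ) ^ (-(κ : ℤ))) ∧
      ∀ J : Fin b → MVar n, ‖(PJac (fun j t => (A (em j) t : ℚ_[p]) :
        PSys n (fun j => d (em j)) ℚ_[p]) x J).det‖ < ((p : ℝ) ^ (-(κ : ℤ))) ^ b := by
    refine Filter.Eventually.and ?_ ?_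
    · rw [Filter.eventually_all]
      intro j
      have := Metric.continuousAt_iff'.1
        ((locpMFcont (fun t => (A (em j) t : ℚ_[p]))).continuousAt (x := z))
        ((p : ℝ) ^ (-(κ : ℤ))) (zpow_pos hp0 _)
      refine this.mono fun x hx => ?_
      rwa [dist_eq_norm] at hx
    · rw [Filter.eventually_all]
      intro J
      have hc := (locpDetcont (fun j t => (A (em j) t : ℚ_[p]) :
        PSys n (fun j => d (em j)) ℚ_[p]) J).norm
      exact (hc.continuousAt (x := z)).eventually_lt_const (h2 J)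
  obtain ⟨δ, hδ, hball⟩ := Metric.eventually_nhds_iff.1 hev
  obtain ⟨N, hN1, hN⟩ := locpPow p (min δ 1) (lt_min hδ one_pos)
  choose z' hz' using fun v => locP_approx p (z v) (hz v) N
  have hd : dist (fun v => ((z' v : ℤ) : ℚ_[p])) z < δ := by
    rw [dist_pi_lt_iff hδ]
    intro v
    rw [dist_eq_norm]
    exact lt_of_le_of_lt (hz' v) (lt_of_lt_of_le hN (min_le_left _ _))
  obtain ⟨ha, hb'⟩ := hball hd
  refine ⟨b, em, hb, hem, z', ?_, fun j => ?_, fun J => ?_⟩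
  · intro l
    obtain ⟨a, ha1⟩ := hz1 l
    refine ⟨a, fun hdv => ?_⟩
    have e1 : ‖((z' ⟨l, a⟩ : ℤ) : ℚ_[p])‖ < 1 := Padic.norm_intCast_lt_one_iff.2 hdv
    have e2 : ‖((z' ⟨l, a⟩ : ℤ) : ℚ_[p]) - z ⟨l, a⟩‖ < 1 :=
      lt_of_le_of_lt (hz' _) (lt_of_lt_of_le hN (min_le_right _ _))
    have e3 : z ⟨l, a⟩ = ((z' ⟨l, a⟩ : ℤ) : ℚ_[p]) + -(((z' ⟨l, a⟩ : ℤ) : ℚ_[p]) - z ⟨l, a⟩) := by
      ring
    have e4 := Padic.nonarchimedean ((z' ⟨l, a⟩ : ℤ) : ℚ_[p])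
      (-(((z' ⟨l, a⟩ : ℤ) : ℚ_[p]) - z ⟨l, a⟩))
    rw [← e3, norm_neg, ha1] at e4
    exact absurd e4 (not_le.2 (max_lt e1 e2))
  · rw [← Padic.norm_int_le_pow_iff_dvd]
    have e1 := MF_map (Int.castRingHom ℚ_[p]) (A (em j)) z'
    have e2 : ((MF (A (em j)) z' : ℤ) : ℚ_[p]) =
        MF (fun t => (A (em j) t : ℚ_[p])) (fun v => ((z' v : ℤ) : ℚ_[p])) := e1.symm
    rw [e2]
    have e3 : MF (fun t => (A (em j) t : ℚ_[p])) (fun v => ((z' v : ℤ) : ℚ_[p])) =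
        (MF (fun t => (A (em j) t : ℚ_[p])) (fun v => ((z' v : ℤ) : ℚ_[p])) -
          MF (fun t => (A (em j) t : ℚ_[p])) z) + MF (fun t => (A (em j) t : ℚ_[p])) z := by ring
    rw [e3]
    exact (Padic.nonarchimedean _ _).trans (max_le (ha j).le (h1 j))
  · rw [← Padic.norm_int_le_pow_iff_dvd]
    have e1 := PJac_map (Int.castRingHom ℚ_[p])
      (fun j => A (em j) : PSys n (fun j => d (em j)) ℤ) z' J
    have e2 : (((PJac (fun j => A (em j) : PSys n (fun j => d (em j)) ℤ) z' J).det : ℤ) : ℚ_[p]) =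
        (PJac (fun j t => (A (em j) t : ℚ_[p]) : PSys n (fun j => d (em j)) ℚ_[p])
          (fun v => ((z' v : ℤ) : ℚ_[p])) J).det := e1.symm
    rw [e2]
    refine (hb' J).le.trans (le_of_eq ?_)
    rw [← zpow_natCast, ← zpow_mul]
    congr 1
    push_cast
    ring

theorem loc_p (p : ℕ) [Fact p.Prime] {ι : Type} [Fintype ι] [DecidableEq ι] (n : ι → ℕ) {r : ℕ}
    (d : Fin (r * 3) → ι → ℕ) (κ : ℕ) (hκ : 1 ≤ κ) (rho : ℝ) (hrho : 0 < rho) :
    ∃ k m : ℕ, ∀ A : PSys n d ℤ, ¬ ExcP p κ A →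
      ∀ (s : MVar n → ℚ_[p]) (x : Fin r → Fin 3 → ℚ_[p]), NS s → NX x → OnX (cst ℚ_[p] A) s x →
      ∃ U : MVar n → ℤ, GPt p k A U ∧ ∀ s' : MVar n → ℚ_[p],
        (∀ v, ‖s' v - (U v : ℚ_[p])‖ ≤ (p : ℝ) ^ (-(m : ℤ))) →
        (∀ v, ‖s' v - s v‖ < rho) ∧ ∃ x' : Fin r → Fin 3 → ℚ_[p],
          (∀ i j, ‖x' i j - x i j‖ < rho) ∧ OnX (cst ℚ_[p] A) s' x' := by
  have hp1 : (1 : ℝ) < p := by exact_mod_cast (Fact.out : p.Prime).one_lt
  have hp0 : (0 : ℝ) < p := by linarith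
  obtain ⟨ρ, hρ, hρ1, hρ2⟩ : ∃ ρ : ℝ, 0 < ρ ∧ ρ ≤ rho ∧ ρ ≤ 1 / 2 :=
    ⟨min rho (1 / 2), lt_min hrho (by norm_num), min_le_left _ _, min_le_right _ _⟩
  obtain ⟨c, hc, hP⟩ := pert_k ℚ_[p] (sqn_padic p) n d (ρ / 4) ((p : ℝ) ^ (-(κ : ℤ)))
    (by positivity) (zpow_pos hp0 _)
  obtain ⟨eta, heta, heta1, hF⟩ := fib_k ℚ_[p] (sqn_padic p) n d (ρ / 4) c (by positivity) hc
  obtain ⟨m, -, hm⟩ := locpPow p (min (eta / 2) (ρ / 4)) (lt_min (by positivity) (by positivity))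
  obtain ⟨k, -, hk⟩ := locpPow p (c / 2) (by positivity)
  have hm1 : (p : ℝ) ^ (-(m : ℤ)) < eta / 2 := lt_of_lt_of_le hm (min_le_left _ _)
  have hm2 : (p : ℝ) ^ (-(m : ℤ)) < ρ / 4 := lt_of_lt_of_le hm (min_le_right _ _)
  refine ⟨k, m, fun A hA s x hs hx hon => ?_⟩
  have hco : ∀ j t, ‖cst ℚ_[p] A j t‖ ≤ 1 := fun j t => Padic.norm_int_le_one _
  obtain ⟨s1, x1, hs1, hx1, hon1, hc1⟩ := hP (cst ℚ_[p] A) hco
    (fun h => hA (locpExc p κ A h)) s x hs hx hon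
  have hs1n : ∀ v, ‖s1 v‖ ≤ 1 := by
    intro v
    have e : s1 v = (s1 v - s v) + s v := by ring
    rw [e]
    exact (Padic.nonarchimedean _ _).trans (max_le (by linarith [hs1 v]) (hs.1 v))
  have hx1n : ∀ i j, ‖x1 i j‖ ≤ 2 := by
    intro i j
    have e : x1 i j = (x1 i j - x i j) + x i j := by ring
    rw [e]
    refine (norm_add_le _ _).trans ?_
    linarith [hx1 i j, (hx i).1 j]
  choose U hU using fun v => locP_approx p (s1 v) (hs1n v) m
  obtain ⟨hv, x2, hx2, hon2⟩ := hF (cst ℚ_[p] A) hco s1 x1 (fun v => by linarith [hs1n v]) hx1n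
    hon1 hc1 (fun v => (U v : ℚ_[p])) (fun v => (hU v).trans (by linarith))
  have hcast : ∀ j, ((MF (A j) U : ℤ) : ℚ_[p]) = MF (cst ℚ_[p] A j) (fun v => (U v : ℚ_[p])) :=
    fun j => (MF_map (Int.castRingHom ℚ_[p]) (A j) U).symm
  refine ⟨U, ⟨fun j hdv => ?_, fun i => ?_⟩, fun s' hs' => ?_⟩
  · have e1 := (Padic.norm_int_le_pow_iff_dvd (p := p) _ _).2 hdv
    rw [hcast] at e1
    linarith [hv j]
  · rw [hcast, hcast, hcast]
    refine ⟨x2 i 0, x2 i 1, x2 i 2, ?_, ?_⟩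
    · obtain ⟨j, hj⟩ := (hx i).2
      have hne : x2 i j ≠ 0 := by
        intro h0
        have e : x i j = -((x2 i j - x1 i j) + (x1 i j - x i j)) := by
          rw [h0]; ring
        have e2 : ‖x i j‖ ≤ ‖x2 i j - x1 i j‖ + ‖x1 i j - x i j‖ := by
          conv_lhs => rw [e]
          rw [norm_neg]
          exact norm_add_le _ _
        linarith [hx2 i j, hx1 i j]
      fin_cases j
      · exact Or.inl hne
      · exact Or.inr (Or.inl hne)
      · exact Or.inr (Or.inr hne)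
    · have := hon2 i
      rw [Fin.sum_univ_three] at this
      exact this
  · have hd : ∀ v, ‖s' v - s1 v‖ ≤ eta := by
      intro v
      have e : s' v - s1 v = (s' v - (U v : ℚ_[p])) + ((U v : ℚ_[p]) - s1 v) := by ring
      rw [e]
      refine (norm_add_le _ _).trans ?_
      linarith [hs' v, hU v]
    obtain ⟨-, x', hx', hon'⟩ := hF (cst ℚ_[p] A) hco s1 x1 (fun v => by linarith [hs1n v]) hx1n
      hon1 hc1 s' hd
    refine ⟨fun v => ?_, x', fun i j => ?_, hon'⟩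
    · have e : s' v - s v = ((s' v - (U v : ℚ_[p])) + ((U v : ℚ_[p]) - s1 v)) + (s1 v - s v) := by
        ring
      rw [e]
      refine lt_of_le_of_lt (norm_add_le _ _) ?_
      have := norm_add_le (s' v - (U v : ℚ_[p])) ((U v : ℚ_[p]) - s1 v)
      linarith [hs' v, hU v, hs1 v]
    · have e : x' i j - x i j = (x' i j - x1 i j) + (x1 i j - x i j) := by ring
      rw [e]
      refine lt_of_le_of_lt (norm_add_le _ _) ?_
      linarith [hx' i j, hx1 i j]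

end RcWA
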