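import Pool.Agent.Lib.MP_e426f4_ag.RCW.PertOne

/-!
# RCW-PertK: perturbation of an arbitrary point of a non-exceptional conic bundle

Proof. `sig 0 = bet`, `sig (l + 1) = sig'` of `pert_one` for `sig l` (with `c l`): a strictly decreasing sequence (recursion on pairs / subtypes).  For a given point there is `l ≤ r * 3` such
that no value `‖MF (A j) s‖` lies in `(sig (l+1), sig l]`: the `r*3 + 1` intervals are disjoint and there are `r*3` values (pigeonhole, `Finset.exists_ne_map_eq_of_card_lt_of_maps_to`).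
`c = min` of the `c l`, `l ≤ r*3`.
-/

set_option autoImplicit false

namespace RcWA

open Finset GenHP CIPHP TwHP RcHP

theorem pert_k (K : Type) [NontriviallyNormedField K] [CharZero K] (hK : SqN K) {ι : Type}
    [Fintype ι] [DecidableEq ι] (n : ι → ℕ) {r : ℕ} (d : Fin (r * 3) → ι → ℕ) (rho bet : ℝ)
    (hrho : 0 < rho) (hbet : 0 < bet) :
    ∃ c : ℝ, 0 < c ∧ ∀ A : PSys n d K, (∀ j t, ‖A j t‖ ≤ 1) →
      ¬ ExcK bet A → ∀ (s : MVar n → K) (x : Fin r → Fin 3 → K), NS s → NX x → OnX A s x →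
      ∃ (s' : MVar n → K) (x' : Fin r → Fin 3 → K), (∀ v, ‖s' v - s v‖ < rho) ∧
        (∀ i j, ‖x' i j - x i j‖ < rho) ∧ OnX A s' x' ∧ ∀ j, c ≤ ‖MF (A j) s'‖ := by
  classical
  have H : ∀ σ : {σ : ℝ // 0 < σ ∧ σ ≤ bet}, ∃ (σ' : {σ : ℝ // 0 < σ ∧ σ ≤ bet}) (c : ℝ),
      σ'.1 < σ.1 ∧ 0 < c ∧ ∀ A : PSys n d K, (∀ j t, ‖A j t‖ ≤ 1) →
      ¬ ExcK bet A → ∀ (s : MVar n → K) (x : Fin r → Fin 3 → K), NS s → NX x → OnX A s x →
      (∀ j, ‖MF (A j) s‖ ≤ σ'.1 ∨ σ.1 < ‖MF (A j) s‖) →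
      ∃ (s' : MVar n → K) (x' : Fin r → Fin 3 → K), (∀ v, ‖s' v - s v‖ < rho) ∧
        (∀ i j, ‖x' i j - x i j‖ < rho) ∧ OnX A s' x' ∧ ∀ j, c ≤ ‖MF (A j) s'‖ := by
    intro σ
    obtain ⟨sig', c, h1, h2, h3, h4⟩ :=
      pert_one K hK n d rho bet σ.1 hrho hbet σ.2.1 σ.2.2
    exact ⟨⟨sig', h1, h2.le.trans σ.2.2⟩, c, h2, h3, h4⟩
  choose f g hf hg hP using H
  obtain ⟨sq, hsq0, hsq1⟩ : ∃ sq : ℕ → {σ : ℝ // 0 < σ ∧ σ ≤ bet},
      sq 0 = ⟨bet, hbet, le_rfl⟩ ∧ ∀ l, sq (l + 1) = f (sq l) :=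
    ⟨fun l => f^[l] ⟨bet, hbet, le_rfl⟩, rfl, fun l => Function.iterate_succ_apply' f l _⟩
  have hanti : StrictAnti fun l => (sq l).1 := by
    refine strictAnti_nat_of_succ_lt fun l => ?_
    show (sq (l + 1)).1 < (sq l).1
    rw [hsq1 l]
    exact hf (sq l)
  have hne : (Finset.range (r * 3 + 1)).Nonempty := ⟨0, by simp⟩
  refine ⟨(Finset.range (r * 3 + 1)).inf' hne fun l => g (sq l), ?_, ?_⟩
  · rw [Finset.lt_inf'_iff]
    intro l _
    exact hg (sq l)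
  intro A hA hex s x hs hx hon
  obtain ⟨l, hl, hwin⟩ : ∃ l ∈ Finset.range (r * 3 + 1), ∀ j,
      ¬ ((sq (l + 1)).1 < ‖MF (A j) s‖ ∧ ‖MF (A j) s‖ ≤ (sq l).1) := by
    by_contra hcon
    push Not at hcon
    have hex2 : ∀ l : ℕ, ∃ j : Fin (r * 3), l ∈ Finset.range (r * 3 + 1) →
        (sq (l + 1)).1 < ‖MF (A j) s‖ ∧ ‖MF (A j) s‖ ≤ (sq l).1 := by
      intro l
      by_cases hl : l ∈ Finset.range (r * 3 + 1)
      · obtain ⟨j, hj⟩ := hcon l hl
        exact ⟨j, fun _ => hj⟩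
      · obtain ⟨j, -⟩ := hcon 0 (by simp)
        exact ⟨j, fun h => absurd h hl⟩
    choose φ hφ using hex2
    obtain ⟨a, ha, b, hb, hab, he⟩ := Finset.exists_ne_map_eq_of_card_lt_of_maps_to
      (s := Finset.range (r * 3 + 1)) (t := (Finset.univ : Finset (Fin (r * 3)))) (f := φ)
      (by simp) (fun l _ => Finset.mem_univ _)
    have key : ∀ a b : ℕ, a ∈ Finset.range (r * 3 + 1) → b ∈ Finset.range (r * 3 + 1) → a < b →
        φ a = φ b → False := by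
      intro a b ha hb hab he
      have h1 := (hφ a ha).1
      have h2 := (hφ b hb).2
      rw [← he] at h2
      have h3 : (sq b).1 ≤ (sq (a + 1)).1 := hanti.antitone (Nat.succ_le_of_lt hab)
      linarith
    rcases lt_or_gt_of_ne hab with h | h
    · exact key a b ha hb h he
    · exact key b a hb ha h he.symm
  obtain ⟨s', x', h1, h2, h3, h4⟩ := hP (sq l) A hA hex s x hs hx hon (fun j => by
    rw [← hsq1 l]
    by_contra hcon
    push Not at hcon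
    exact hwin j hcon)
  exact ⟨s', x', h1, h2, h3, fun j => (Finset.inf'_le _ hl).trans (h4 j)⟩

end RcWA
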