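import Pool.Agent.Lib.MP_e426f4_ag.RCW.Con3
import Pool.Agent.Lib.MP_e426f4_ag.RCW.DirK

/-!
# RCW-PertOne: perturbation of a point whose values are tiny or not small

Proof. WLOG `rho ≤ 1`.  Constants, in this order: `tm` from `con3 K hK (rho / 2)`, `del3` from it with `sig`; `δ1 ≤ 1/2` from `hK` with `min (rho / 16) (1 / 2)`; `C` from `dir_k`;
`C1` and `C2` constants of `MFK_taylor`, `MFK_lip` (`X = 1`, `a = 1`, sum over `j`); `B = (min 1 bet)^(r*3)`, so that `B ≤ bet^b` for `b ≤ r*3`.  `mu : K`, `mu ≠ 0`, `‖mu‖` less than: `del3`,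
`B / C * min 1 (rho / 2)`, `tm δ1 B^2 / (4 C1 C^2)`, `sig δ1 B / (2 C2 C)` (a power of an element of norm `< 1`).
`sig' = min del3 (min (‖mu‖ tm δ1 / 4) (sig / 2))`, `c = min (sig / 2) (‖mu‖ tm / 2)`.
Given the point: `P = {j : ‖MF (A j) s‖ ≤ sig'}`.  For each conic `i` apply `con3` with `T i = {k : ix i k ∈ P}`, `f k = MF (A (ix i k)) s`, `x i`, `mu`: `tau i`, `y i`.  If `P` is empty take
`(s, x)`.  Otherwise enumerate `P` by an injective `em : Fin b → Fin (r*3)` (`pr_enum` in `RC/PertR.lean`), `1 ≤ b ≤ r*3`; `¬ ExcK bet A` at `s` gives columns `J` with `D = det (PJac ..)`,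
`‖D‖ ≥ bet^b ≥ B`.  `dir_k` with `tau' l = tau i k` for `em l = ix i k` (`finProdFinEquiv.symm`): `h`; `s' = s + (mu / D) h`.  `j ∈ P`, `j = ix i k`: `MF (A j) s' = mu tau i k (1 + e)` with
`‖e‖ < δ1`; `j ∉ P`: `MF (A j) s' = f (1 + e)` with `f = MF (A j) s`, `‖e‖ < δ1`.  `1 + e = t^2` with `t` near `1` and `x' i k = y i k / t`.
-/

set_option autoImplicit false

namespace RcWA

open Finset GenHP CIPHP TwHP RcHP

open Classical in
private theorem pertOne_enum {M : ℕ} (P : Fin M → Prop) :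
    ∃ (b : ℕ) (em : Fin b → Fin M), Function.Injective em ∧ ∀ j, (∃ l, em l = j) ↔ P j := by
  let S : Finset (Fin M) := univ.filter P
  refine ⟨S.card, S.orderEmbOfFin rfl, (S.orderEmbOfFin rfl).injective, fun j => ?_⟩
  have h1 : j ∈ Set.range (S.orderEmbOfFin rfl) ↔ j ∈ (S : Set (Fin M)) := by
    rw [Finset.range_orderEmbOfFin]
  constructor
  · rintro ⟨l, hl⟩
    have := h1.1 ⟨l, hl⟩
    simpa [S] using this
  · intro h
    exact h1.2 (by simpa [S] using h)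

section consts
variable {ι : Type} [Fintype ι] [DecidableEq ι]

private theorem pertOne_C1 (n : ι → ℕ) {m : ℕ} (d : Fin m → ι → ℕ) :
    ∃ C : ℝ, 0 < C ∧ ∀ j, (NM n (d j) : ℝ) * 4 ^ (∑ i, d j i) ≤ C := by
  refine ⟨1 + ∑ j, ((NM n (d j) : ℝ) * 4 ^ (∑ i, d j i)), ?_, fun j => ?_⟩
  · have : (0 : ℝ) ≤ ∑ j, ((NM n (d j) : ℝ) * 4 ^ (∑ i, d j i)) :=
      Finset.sum_nonneg fun i _ => by positivity
    linarith
  · have h := Finset.single_le_sum (f := fun j => (NM n (d j) : ℝ) * 4 ^ (∑ i, d j i))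
      (fun i _ => by positivity) (Finset.mem_univ j)
    linarith

private theorem pertOne_C2 (n : ι → ℕ) {m : ℕ} (d : Fin m → ι → ℕ) :
    ∃ C : ℝ, 0 < C ∧ ∀ j, (NM n (d j) : ℝ) *
      (Fintype.card (MVar n) * (∑ i, d j i : ℕ) + 4 ^ (∑ i, d j i) * 1) ≤ C := by
  refine ⟨1 + ∑ j, ((NM n (d j) : ℝ) *
    (Fintype.card (MVar n) * (∑ i, d j i : ℕ) + 4 ^ (∑ i, d j i) * 1)), ?_, fun j => ?_⟩
  · have : (0 : ℝ) ≤ ∑ j, ((NM n (d j) : ℝ) *
        (Fintype.card (MVar n) * (∑ i, d j i : ℕ) + 4 ^ (∑ i, d j i) * 1)) :=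
      Finset.sum_nonneg fun i _ => by positivity
    linarith
  · have h := Finset.single_le_sum (f := fun j => (NM n (d j) : ℝ) *
      (Fintype.card (MVar n) * (∑ i, d j i : ℕ) + 4 ^ (∑ i, d j i) * 1))
      (fun i _ => by positivity) (Finset.mem_univ j)
    linarith

end consts

/-- the final division by the square roots -/
private theorem pertOne_div {K : Type} [NormedField K] {ρ : ℝ} (hρ0 : 0 < ρ) (hρ1 : ρ ≤ 1)
    {x y t : K} (hx : ‖x‖ ≤ 1) (hy : ‖y - x‖ < ρ / 2) (ht : ‖t - 1‖ < ρ / 16)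
    (_ht2 : ‖t - 1‖ < 1 / 2) : t ≠ 0 ∧ ‖y / t - x‖ < ρ := by
  have h1 : 1 / 2 ≤ ‖t‖ := by
    have h := norm_sub_norm_le (1 : K) (1 - t)
    rw [sub_sub_cancel, norm_one, norm_sub_rev] at h
    linarith
  have h0 : t ≠ 0 := by
    intro h
    rw [h, norm_zero] at h1
    linarith
  refine ⟨h0, ?_⟩
  have hy1 : ‖y‖ ≤ 3 / 2 := by
    have h := norm_add_le (y - x) x
    rw [sub_add_cancel] at h
    linarith
  have e : y / t - x = y * (1 - t) / t + (y - x) := by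
    field_simp
    ring
  have h2 : ‖y * (1 - t) / t‖ ≤ 3 / 16 * ρ := by
    rw [norm_div, norm_mul, norm_sub_rev, div_le_iff₀ (by linarith)]
    have h3 : ‖y‖ * ‖t - 1‖ ≤ 3 / 2 * (ρ / 16) :=
      mul_le_mul hy1 ht.le (norm_nonneg _) (by norm_num)
    nlinarith
  rw [e]
  refine lt_of_le_of_lt (norm_add_le _ _) ?_
  linarith

/-- a value near `a` has the form `a t ^ 2` -/
private theorem pertOne_val {K : Type} [NormedField K] {δ : ℝ} (hδ : 0 < δ) (hδ2 : δ ≤ 1 / 2)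
    {a v : K} {L E : ℝ} (hL : 0 < L) (ha : L ≤ ‖a‖) (hv : ‖v - a‖ ≤ E) (hE : E < δ * L) :
    ‖v / a - 1‖ < δ ∧ v = a * (v / a) ∧ L / 2 ≤ ‖v‖ := by
  have ha0 : 0 < ‖a‖ := lt_of_lt_of_le hL ha
  have ha1 : a ≠ 0 := norm_pos_iff.1 ha0
  have h1 : δ * L ≤ δ * ‖a‖ := mul_le_mul_of_nonneg_left ha hδ.le
  refine ⟨?_, ?_, ?_⟩
  · have e : v / a - 1 = (v - a) / a := by
      field_simp
    rw [e, norm_div, div_lt_iff₀ ha0]
    linarith
  · field_simp
  · have h2 := norm_sub_norm_le a (a - v)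
    rw [sub_sub_cancel, norm_sub_rev a v] at h2
    have h3 : δ * L ≤ 1 / 2 * L := mul_le_mul_of_nonneg_right hδ2 hL.le
    linarith

theorem pert_one (K : Type) [NontriviallyNormedField K] [CharZero K] (hK : SqN K) {ι : Type}
    [Fintype ι] [DecidableEq ι] (n : ι → ℕ) {r : ℕ} (d : Fin (r * 3) → ι → ℕ) (rho bet sig : ℝ)
    (hrho : 0 < rho) (hbet : 0 < bet) (hsig : 0 < sig) (hsb : sig ≤ bet) :
    ∃ sig' c : ℝ, 0 < sig' ∧ sig' < sig ∧ 0 < c ∧ ∀ A : PSys n d K, (∀ j t, ‖A j t‖ ≤ 1) →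
      ¬ ExcK bet A → ∀ (s : MVar n → K) (x : Fin r → Fin 3 → K), NS s → NX x → OnX A s x →
      (∀ j, ‖MF (A j) s‖ ≤ sig' ∨ sig < ‖MF (A j) s‖) →
      ∃ (s' : MVar n → K) (x' : Fin r → Fin 3 → K), (∀ v, ‖s' v - s v‖ < rho) ∧
        (∀ i j, ‖x' i j - x i j‖ < rho) ∧ OnX A s' x' ∧ ∀ j, c ≤ ‖MF (A j) s'‖ := by
  classical
  obtain ⟨ρ, hρ⟩ : ∃ ρ : ℝ, ρ = min rho 1 := ⟨_, rfl⟩
  have hρ0 : 0 < ρ := by
    rw [hρ]
    exact lt_min hrho one_pos
  have hρ1 : ρ ≤ 1 := by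
    rw [hρ]
    exact min_le_right _ _
  have hρr : ρ ≤ rho := by
    rw [hρ]
    exact min_le_left _ _
  obtain ⟨tm, htm, hcon⟩ := con3 K hK (ρ / 2) (by positivity)
  obtain ⟨del3, hdel3, hcon3⟩ := hcon sig hsig
  obtain ⟨δ0, hδ0, hsq0⟩ := hK (min (ρ / 16) (1 / 2)) (lt_min (by positivity) (by norm_num))
  obtain ⟨δ, hδ⟩ : ∃ δ : ℝ, δ = min δ0 (1 / 2) := ⟨_, rfl⟩
  have hδp : 0 < δ := by
    rw [hδ]
    exact lt_min hδ0 (by norm_num)
  have hδ2 : δ ≤ 1 / 2 := by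
    rw [hδ]
    exact min_le_right _ _
  have hsq : ∀ u : K, ‖u - 1‖ < δ → ∃ t : K, t ^ 2 = u ∧ ‖t - 1‖ < ρ / 16 ∧ ‖t - 1‖ < 1 / 2 := by
    intro u hu
    obtain ⟨t, ht, ht1⟩ := hsq0 u (lt_of_lt_of_le hu (by rw [hδ]; exact min_le_left _ _))
    exact ⟨t, ht, lt_of_lt_of_le ht1 (min_le_left _ _), lt_of_lt_of_le ht1 (min_le_right _ _)⟩
  obtain ⟨C, hC, hdir⟩ := dir_k (K := K) n d
  obtain ⟨C1, hC1, hC1j⟩ := pertOne_C1 n d
  obtain ⟨C2, hC2, hC2j⟩ := pertOne_C2 n d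
  obtain ⟨B, hB⟩ : ∃ B : ℝ, B = (min 1 bet) ^ (r * 3) := ⟨_, rfl⟩
  have hm0 : 0 < min 1 bet := lt_min one_pos hbet
  have hB0 : 0 < B := by
    rw [hB]
    positivity
  obtain ⟨mu, hmup, hmul⟩ := NormedField.exists_norm_lt K
    (r := min (min del3 (B / C * (ρ / 2))) (min (tm * δ * B ^ 2 / (4 * C1 * C ^ 2))
      (sig * δ * B / (2 * C2 * C)))) (by
      refine lt_min (lt_min hdel3 (by positivity)) (lt_min (by positivity) (by positivity)))
  rw [lt_min_iff, lt_min_iff, lt_min_iff] at hmul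
  obtain ⟨⟨hmu1, hmu2⟩, hmu3, hmu4⟩ := hmul
  have hmu0 : mu ≠ 0 := norm_pos_iff.1 hmup
  obtain ⟨Y, hY⟩ : ∃ Y : ℝ, Y = ‖mu‖ / B * C := ⟨_, rfl⟩
  have hY0 : 0 ≤ Y := by
    rw [hY]
    positivity
  have hYρ : Y < ρ / 2 := by
    rw [hY, div_mul_eq_mul_div, div_lt_iff₀ hB0]
    rw [div_mul_eq_mul_div, lt_div_iff₀ hC] at hmu2
    linarith
  have hY1 : Y ≤ 1 := by linarith
  have hYC1 : C1 * Y ^ 2 ≤ ‖mu‖ * tm * δ / 4 := by
    rw [lt_div_iff₀ (by positivity)] at hmu3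
    have e : C1 * Y ^ 2 = ‖mu‖ * (‖mu‖ * (4 * C1 * C ^ 2)) / (4 * B ^ 2) := by
      rw [hY]
      field_simp
    rw [e, div_le_iff₀ (by positivity)]
    have h := mul_le_mul_of_nonneg_left hmu3.le (norm_nonneg mu)
    linarith
  have hYC2 : C2 * Y ≤ sig * δ / 2 := by
    rw [lt_div_iff₀ (by positivity)] at hmu4
    have e : C2 * Y = (‖mu‖ * (2 * C2 * C)) / (2 * B) := by
      rw [hY]
      field_simp
    rw [e, div_le_iff₀ (by positivity)]
    linarith
  obtain ⟨sig', hsig'⟩ : ∃ sig' : ℝ, sig' = min del3 (min (‖mu‖ * tm * δ / 4) (sig / 2)) :=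
    ⟨_, rfl⟩
  have hs1 : sig' ≤ del3 := by
    rw [hsig']
    exact min_le_left _ _
  have hs2 : sig' ≤ ‖mu‖ * tm * δ / 4 := by
    rw [hsig']
    exact (min_le_right _ _).trans (min_le_left _ _)
  have hs3 : sig' ≤ sig / 2 := by
    rw [hsig']
    exact (min_le_right _ _).trans (min_le_right _ _)
  have hs0 : 0 < sig' := by
    rw [hsig']
    exact lt_min hdel3 (lt_min (by positivity) (by positivity))
  refine ⟨sig', min (sig / 2) (‖mu‖ * tm / 2), hs0, by linarith,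
    lt_min (by positivity) (by positivity), ?_⟩
  intro A hA hex s x hs hx hon hdich
  obtain ⟨b, em, hinj, hP⟩ := pertOne_enum fun j => ‖MF (A j) s‖ ≤ sig'
  have hbm : b ≤ r * 3 := by
    have := Fintype.card_le_of_injective em hinj
    simpa using this
  rcases Nat.eq_zero_or_pos b with hb0 | hb0
  · subst hb0
    refine ⟨s, x, fun v => by simpa using hrho, fun i j => by simpa using hrho, hon, fun j => ?_⟩
    refine (min_le_left _ _).trans ?_
    rcases hdich j with h | h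
    · obtain ⟨l, -⟩ := (hP j).2 h
      exact l.elim0
    · linarith
  -- the conics
  have hcc : ∀ i : Fin r, ∃ tau y : Fin 3 → K,
      (∀ k, ‖MF (A (ix i k)) s‖ ≤ sig' → tm ≤ ‖tau k‖ ∧ ‖tau k‖ ≤ 2) ∧
      (∀ k, ‖y k - x i k‖ < ρ / 2) ∧
      ∑ k, (if ‖MF (A (ix i k)) s‖ ≤ sig' then mu * tau k else MF (A (ix i k)) s) * y k ^ 2 = 0 := by
    intro i
    obtain ⟨tau, y, h1, h2, h3⟩ := hcon3
      (univ.filter fun k => ‖MF (A (ix i k)) s‖ ≤ sig') (fun k => MF (A (ix i k)) s) (x i) mu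
      (hx i).1 (hx i).2 (hon i) (fun k hk => ((mem_filter.1 hk).2).trans hs1) (fun k hk => by
        rcases hdich (ix i k) with h | h
        · exact absurd (show k ∈ univ.filter (fun k => ‖MF (A (ix i k)) s‖ ≤ sig') from
            mem_filter.2 ⟨mem_univ _, h⟩) hk
        · exact h.le) hmu0 hmu1.le
    refine ⟨tau, y, fun k hk => h1 k (mem_filter.2 ⟨mem_univ _, hk⟩), h2, ?_⟩
    simpa only [mem_filter, mem_univ, true_and] using h3
  choose tau y htau hy hsum using hcc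
  -- the Jacobian
  obtain ⟨J, hJ⟩ : ∃ J : Fin b → MVar n, bet ^ b ≤
      ‖(PJac (fun j => A (em j) : PSys n (fun j => d (em j)) K) s J).det‖ := by
    by_contra hcon'
    push Not at hcon'
    exact hex ⟨b, em, hb0, hinj, s, hs, fun l => ((hP (em l)).1 ⟨l, rfl⟩).trans
      (by linarith), hcon'⟩
  obtain ⟨D, hD⟩ : ∃ D : K, D = (PJac (fun j => A (em j) : PSys n (fun j => d (em j)) K) s J).det :=
    ⟨_, rfl⟩
  rw [← hD] at hJ
  have hBD : B ≤ ‖D‖ := by
    rw [hB]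
    refine le_trans ?_ hJ
    exact (pow_le_pow_of_le_one hm0.le (min_le_left _ _) hbm).trans
      (pow_le_pow_left₀ hm0.le (min_le_right _ _) b)
  have hD0 : D ≠ 0 := norm_pos_iff.1 (lt_of_lt_of_le hB0 hBD)
  have hix : ∀ j : Fin (r * 3), ∃ (i : Fin r) (k : Fin 3), j = ix i k := by
    intro j
    exact ⟨(finProdFinEquiv.symm j).1, (finProdFinEquiv.symm j).2, by
      unfold ix
      rw [Prod.mk.eta, Equiv.apply_symm_apply]⟩
  have hixs : ∀ (i : Fin r) (k : Fin 3), finProdFinEquiv.symm (ix i k) = (i, k) := by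
    intro i k
    exact Equiv.symm_apply_apply _ _
  obtain ⟨h, hh1, hh2⟩ := hdir A hA s hs.1 b em hbm J
    (fun l => tau (finProdFinEquiv.symm (em l)).1 (finProdFinEquiv.symm (em l)).2) (fun l => by
      have h1 := (hP (em l)).1 ⟨l, rfl⟩
      obtain ⟨i, k, hik⟩ := hix (em l)
      rw [hik, hixs]
      rw [hik] at h1
      exact (htau i k h1).2)
  rw [← hD] at hh2
  have hyv : ∀ v, ‖mu / D * h v‖ ≤ Y := by
    intro v
    rw [norm_mul, norm_div, hY]
    refine mul_le_mul ?_ (hh1 v) (norm_nonneg _) (by positivity)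
    exact div_le_div_of_nonneg_left (norm_nonneg _) hB0 hBD
  obtain ⟨s', hs'⟩ : ∃ s' : MVar n → K, s' = fun v => s v + mu / D * h v := ⟨_, rfl⟩
  -- the new values
  have hval : ∀ (i : Fin r) (k : Fin 3),
      ‖MF (A (ix i k)) s' / (if ‖MF (A (ix i k)) s‖ ≤ sig' then mu * tau i k
        else MF (A (ix i k)) s) - 1‖ < δ ∧
      MF (A (ix i k)) s' = (if ‖MF (A (ix i k)) s‖ ≤ sig' then mu * tau i k
        else MF (A (ix i k)) s) * (MF (A (ix i k)) s' /
          (if ‖MF (A (ix i k)) s‖ ≤ sig' then mu * tau i k else MF (A (ix i k)) s)) ∧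
      min (sig / 2) (‖mu‖ * tm / 2) ≤ ‖MF (A (ix i k)) s'‖ := by
    intro i k
    by_cases hj : ‖MF (A (ix i k)) s‖ ≤ sig'
    · rw [if_pos hj]
      obtain ⟨l, hl⟩ := (hP (ix i k)).2 hj
      have h1 := MFK_taylor (A (em l)) s (fun v => mu / D * h v) 1 1 Y le_rfl hY0 hY1
        (hA (em l)) hs.1 hyv
      have h2 : ∑ v, MD (A (em l)) s v * (mu / D * h v) = mu * tau i k := by
        have h3 := hh2 l
        rw [hl, hixs, ← hl] at h3
        have h4 : ∑ v, MD (A (em l)) s v * (mu / D * h v) =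
            mu / D * ∑ v, MD (A (em l)) s v * h v := by
          rw [Finset.mul_sum]
          exact Finset.sum_congr rfl fun v _ => by ring
        rw [h4, h3]
        field_simp
      rw [h2, one_pow, mul_one, mul_one, ← hs'] at h1
      rw [hl] at h1
      have h5 : (NM n (d (ix i k)) : ℝ) * 4 ^ (∑ i', d (ix i k) i') * Y ^ 2 ≤ C1 * Y ^ 2 :=
        mul_le_mul_of_nonneg_right (hC1j _) (by positivity)
      have h1' : ‖MF (A (ix i k)) s' - MF (A (ix i k)) s - mu * tau i k‖ ≤ C1 * Y ^ 2 := by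
        have : (NM n (d (em l)) : ℝ) * 4 ^ (∑ i', d (em l) i') ≤ C1 := hC1j _
        refine h1.trans ?_
        rw [← hl] at h5 ⊢
        exact h5
      have h6 : ‖MF (A (ix i k)) s' - mu * tau i k‖ ≤ ‖mu‖ * tm * δ / 2 := by
        have e : MF (A (ix i k)) s' - mu * tau i k =
            (MF (A (ix i k)) s' - MF (A (ix i k)) s - mu * tau i k) + MF (A (ix i k)) s := by ring
        rw [e]
        refine (norm_add_le _ _).trans ?_
        linarith
      have h7 : ‖mu‖ * tm ≤ ‖mu * tau i k‖ := by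
        rw [norm_mul]
        exact mul_le_mul_of_nonneg_left (htau i k hj).1 (norm_nonneg _)
      have hp : 0 < ‖mu‖ * tm := by positivity
      obtain ⟨g1, g2, g3⟩ := pertOne_val hδp hδ2 hp h7 h6 (by nlinarith [mul_pos hp hδp])
      exact ⟨g1, g2, (min_le_right _ _).trans g3⟩
    · rw [if_neg hj]
      have hj' : sig < ‖MF (A (ix i k)) s‖ := (hdich (ix i k)).resolve_left hj
      have h1 := MFK_lip (A (ix i k)) s (fun v => mu / D * h v) 1 1 Y le_rfl hY0 hY1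
        (hA (ix i k)) hs.1 hyv
      rw [one_pow, mul_one, mul_one, ← hs'] at h1
      have h5 : (NM n (d (ix i k)) : ℝ) * (Fintype.card (MVar n) * (∑ i', d (ix i k) i' : ℕ) +
          4 ^ (∑ i', d (ix i k) i') * 1) * Y ≤ C2 * Y :=
        mul_le_mul_of_nonneg_right (hC2j _) hY0
      have h6 : ‖MF (A (ix i k)) s' - MF (A (ix i k)) s‖ ≤ sig * δ / 2 :=
        (h1.trans h5).trans hYC2
      obtain ⟨g1, g2, g3⟩ := pertOne_val hδp hδ2 hsig hj'.le h6 (by nlinarith [mul_pos hsig hδp])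
      exact ⟨g1, g2, (min_le_left _ _).trans g3⟩
  have hroot := fun i k => hsq _ (hval i k).1
  choose t ht1 ht2 ht3 using hroot
  refine ⟨s', fun i k => y i k / t i k, fun v => ?_, fun i k => ?_, fun i => ?_, fun j => ?_⟩
  · rw [hs']
    have e : s v + mu / D * h v - s v = mu / D * h v := by ring
    rw [e]
    exact lt_of_le_of_lt (hyv v) (by linarith)
  · exact lt_of_lt_of_le (pertOne_div hρ0 hρ1 ((hx i).1 k) (hy i k) (ht2 i k) (ht3 i k)).2 hρr
  · rw [← hsum i]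
    refine Finset.sum_congr rfl fun k _ => ?_
    have h0 := (pertOne_div hρ0 hρ1 ((hx i).1 k) (hy i k) (ht2 i k) (ht3 i k)).1
    have h1 := (hval i k).2.1
    rw [← ht1 i k] at h1
    rw [h1, div_pow]
    field_simp
  · obtain ⟨i, k, rfl⟩ := hix j
    exact (hval i k).2.2

end RcWA
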